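import Pool.Agent.Lib.MP_6e81d8_ag.H22.Defs

set_option autoImplicit false

namespace Pool.Agent.Lib.MP_6e81d8_ag.H22

open Polynomial Finset Module H36
open Multiset (replicate)

theorem bd_inl {ι κ : Type} [Fintype ι] {m : ι → ℕ} (m' : κ → ℕ) {E : Submodule ℂ R} {ρ : ℕ}
    (h : Bd m E univ ρ) (S : Finset κ) : Bd (Sum.elim m m') E (univ.disjSum S) ρ := by
  obtain ⟨p, Ψ, h⟩ := h
  exact ⟨Sum.elim p fun _ => 0, Ψ, fun F hF hV hΨ =>
    h F hF (fun i _ => hV (Sum.inl i) (by simp)) hΨ⟩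

theorem bd_inr {ι κ : Type} [Fintype κ] (m : ι → ℕ) {m' : κ → ℕ} {E : Submodule ℂ R} {ρ : ℕ}
    (h : Bd m' E univ ρ) (S : Finset ι) : Bd (Sum.elim m m') E (S.disjSum univ) ρ := by
  obtain ⟨p, Ψ, h⟩ := h
  exact ⟨Sum.elim (fun _ => 0) p, Ψ, fun F hF hV hΨ =>
    h F hF (fun i _ => hV (Sum.inr i) (by simp)) hΨ⟩

theorem sum_elim_index {ι κ : Type} [Fintype ι] [Fintype κ] (m : ι → ℕ) (m' : κ → ℕ) :
    ∑ i, ({Sum.elim m m' i} : Multiset ℕ) =
      ∑ i, ({m i} : Multiset ℕ) + ∑ j, ({m' j} : Multiset ℕ) := by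
  simp only [Fintype.sum_sum_type, Sum.elim_inl, Sum.elim_inr]

theorem BM.mono {E E' : Submodule ℂ R} {T T' : Multiset ℕ} {ρ : ℕ} (hE : E ≤ E') (hT : T' ≤ T)
    (h : BM E' T' ρ) : BM E T ρ := by
  obtain ⟨U, rfl⟩ := Multiset.le_iff_exists_add.mp hT
  obtain ⟨ι, _, m, hm, h⟩ := h
  obtain ⟨κ, _, m', hm'⟩ := exists_index U
  refine ⟨ι ⊕ κ, inferInstance, Sum.elim m m', by rw [sum_elim_index, hm, hm'], ?_⟩
  exact Bd.mono hE (subset_univ _) (bd_inl m' h ∅)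

theorem BM.mono_rho {E : Submodule ℂ R} {T : Multiset ℕ} {ρ ρ' : ℕ} (hρ : ρ ≤ ρ')
    (h : BM E T ρ) : BM E T ρ' := by
  obtain ⟨ι, _, m, hm, p, Ψ, h⟩ := h
  refine ⟨ι, inferInstance, m, hm, p, LinearMap.pi fun j : Fin ρ' =>
    if hj : (j : ℕ) < ρ then (LinearMap.proj (⟨j, hj⟩ : Fin ρ)) ∘ₗ Ψ else 0,
    fun F hF hV hΨ => h F hF hV ?_⟩
  funext j
  have := congrFun hΨ ⟨j, j.2.trans_le hρ⟩
  simpa [j.2] using this

theorem BM.of_extra {E : Submodule ℂ R} {T : Multiset ℕ} {ρ : ℕ}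
    (h : BM E (T + replicate ρ 1) 0) : BM E T ρ := by
  obtain ⟨ι, _, m, hm⟩ := exists_index T
  refine ⟨ι, inferInstance, m, hm, Bd.of_extra ?_⟩
  rw [univ_disjSum_univ]
  exact h.use _ (by rw [sum_elim_index, hm, sum_replicate])

theorem BM.add_simple {E : Submodule ℂ R} [FiniteDimensional ℂ E] {T : Multiset ℕ} {a v : ℕ}
    (h : BM E T (v + a)) : BM E (T + replicate v 1) a := by
  obtain ⟨ι, _, m, hm, h⟩ := h
  refine ⟨ι ⊕ Fin v, inferInstance, Sum.elim m fun _ => 1,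
    by rw [sum_elim_index, hm, sum_replicate], ?_⟩
  rw [← univ_disjSum_univ]
  exact h.add_simple

theorem base_exact {n a : ℕ} (hn : 10 ^ 10 ≤ n) (ha : 1 ≤ a) (E : ℕ) :
    BM (Dsp E E) (replicate n a) (tri E - n * tri a) := by
  have key : ∀ d, BM (Dsp (d + 1) (d + 1)) (replicate n a) (tri (d + 1) - n * tri a) := fun d => by
    refine ⟨Fin n, inferInstance, fun _ => a, sum_replicate n a, ?_⟩
    rcases le_total n (16 * a) with h2 | h2
    · exact big_large hn h2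
    · exact hom_small2 (by omega) ha h2
  rcases E with _ | d
  · have hT : 1 ≤ tri a := tri_mono (a := 1) ha
    have h1 : 1 ≤ n * tri a := Nat.mul_pos (by omega) hT
    refine BM.mono (Dsp_mono (Nat.zero_le 1)) le_rfl ((key 0).mono_rho ?_)
    have : tri (0 + 1) = 1 := rfl
    omega
  · exact key d

theorem base {n a E c : ℕ} (hn : 10 ^ 10 ≤ n) (ha : 1 ≤ a) (h : tri E ≤ n * tri a + c) :
    BM (Dsp E E) (replicate n a + replicate c 1) 0 :=
  BM.add_simple ((base_exact hn ha E).mono_rho (by omega))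

theorem ell_one (E : ℕ) : ell 1 E E = fun t => E - t := by
  funext t
  rcases le_or_gt E t with h | h
  · simp [ell, sz, Nat.sub_eq_zero_of_le h]
  · rw [ell, mul_one, min_eq_left (by omega)]
    simp [sz]

theorem linecut {E k ρ ρ' : ℕ} {I J : Multiset ℕ} (hk : k + 1 ≤ E) (hρ : ρ + ρ' + k ≤ E)
    (hI0 : BM (Dsp (E - (k + 1)) (E - (k + 1))) I 0) (hI1 : BM (Dsp (E - k) (E - k)) I ρ)
    (hJ0 : BM (Sp k E) J 0) (hJ1 : BM (Sp (k + 1) E) J ρ') : BM (Dsp E E) (I + J) 0 := by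
  classical
  obtain ⟨ι, _, m, hm⟩ := exists_index I
  obtain ⟨κ, _, m', hm'⟩ := exists_index J
  refine ⟨ι ⊕ κ, inferInstance, Sum.elim m m', by rw [sum_elim_index, hm, hm'], ?_⟩
  have h := main_cut (μ := Sum.elim m m') (s := 1) (A := E) (e := E) (k := k) le_rfl le_rfl
    (by omega) (I := univ.disjSum ∅) (J := (∅ : Finset ι).disjSum univ)
    (by
      rw [Finset.disjoint_left]
      rintro (i | j) h1 h2
      · simp at h2
      · simp at h1)
    (ρ := ρ) (ρ' := ρ') (by rw [ell_one]; dsimp only; omega)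
    (by rw [mul_one]; exact bd_inl m' (hI0.use m hm) ∅)
    (by rw [mul_one]; exact bd_inl m' (hI1.use m hm) ∅)
    (by rw [ell_one]; exact bd_inr m (hJ0.use m' hm') ∅)
    (by rw [ell_one]; exact bd_inr m (hJ1.use m' hm') ∅)
  exact Bd.mono le_rfl (subset_univ _) h

end Pool.Agent.Lib.MP_6e81d8_ag.H22
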