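import Pool.Agent.Lib.MP_6e81d8_ag.H22.Defs

set_option autoImplicit false

namespace Pool.Agent.Lib.MP_6e81d8_ag.H22

open Polynomial Finset Module H36
open Multiset (replicate)

/-- One of two consecutive multiples of `β` is close to an integer. -/
theorem param2_near {a u₀ : ℕ} {β : ℝ} (h1 : (a : ℝ) + 41 / 100 ≤ β) (h2 : β ≤ a + 1 / 2)
    (h3 : 1 ≤ u₀ * β) :
    ∃ u P : ℕ, u₀ ≤ u ∧ u ≤ u₀ + 1 ∧ (P : ℝ) + 7 / 10 ≤ u * β ∧ u * β ≤ P + 13 / 10 := by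
  have hx : (0 : ℝ) ≤ u₀ * β := by linarith
  have f1 := Nat.floor_le hx
  have f2 := Nat.lt_floor_add_one ((u₀ : ℝ) * β)
  have f3 : 1 ≤ ⌊(u₀ : ℝ) * β⌋₊ := Nat.le_floor (by exact_mod_cast h3)
  obtain ⟨F, hF⟩ : ∃ F, ⌊(u₀ : ℝ) * β⌋₊ = F + 1 := ⟨⌊(u₀ : ℝ) * β⌋₊ - 1, by omega⟩
  rw [hF] at f1 f2
  push_cast at f1 f2
  by_cases c1 : u₀ * β ≤ F + 13 / 10
  · exact ⟨u₀, F, le_rfl, Nat.le_succ _, by linarith, c1⟩
  by_cases c2 : (F : ℝ) + 17 / 10 ≤ u₀ * β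
  · exact ⟨u₀, F + 1, le_rfl, Nat.le_succ _, by push_cast; linarith, by push_cast; linarith⟩
  · refine ⟨u₀ + 1, F + 1 + a, Nat.le_succ _, le_rfl, ?_, ?_⟩ <;> push_cast <;> linarith

theorem param2_nat {a P₀ : ℕ} (ha : 1 ≤ a) (hP : 200000 * a ≤ P₀) :
    ∃ n P : ℕ, 10 ^ 10 ≤ n ∧ P₀ ≤ P ∧ P ≤ P₀ + 5 * a ∧
      5 * (P * (P + 1)) + 2 * P ≤ 5 * (n * (a * (a + 1))) ∧
      5 * (n * (a * (a + 1))) + 2 * P ≤ 5 * ((P + 1) * (P + 1 + 1)) := by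
  have ha' : (1 : ℝ) ≤ a := by exact_mod_cast ha
  have hP' : (200000 : ℝ) * a ≤ P₀ := by exact_mod_cast hP
  obtain ⟨β, hβ0, hβ⟩ : ∃ β : ℝ, 0 ≤ β ∧ β ^ 2 = a * (a + 1) :=
    ⟨√(a * (a + 1)), Real.sqrt_nonneg _, Real.sq_sqrt (by positivity)⟩
  have h1 : (a : ℝ) + 41 / 100 ≤ β := by
    refine le_of_sq_le_sq (by rw [hβ]; nlinarith) hβ0
  have h2 : β ≤ a + 1 / 2 := by
    refine le_of_sq_le_sq (by rw [hβ]; nlinarith) (by positivity)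
  have hβp : 0 < β := by linarith
  obtain ⟨u₀, g2, g3⟩ : ∃ u₀ : ℕ, (P₀ : ℝ) + 2 ≤ u₀ * β ∧ u₀ * β ≤ P₀ + 2 + β := by
    refine ⟨⌈((P₀ : ℝ) + 2) / β⌉₊, (div_le_iff₀ hβp).1 (Nat.le_ceil _), ?_⟩
    have := mul_le_mul_of_nonneg_right
      (Nat.ceil_lt_add_one (a := ((P₀ : ℝ) + 2) / β) (by positivity)).le hβ0
    rwa [add_mul, div_mul_cancel₀ _ hβp.ne', one_mul] at this
  have g1 : 10 ^ 5 ≤ u₀ := by
    by_contra h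
    have h3 : (u₀ : ℝ) ≤ 100000 := by exact_mod_cast (not_le.1 h).le
    have := mul_le_mul h3 h2 hβ0 (by norm_num)
    linarith
  obtain ⟨u, P, k1, k2, k3, k4⟩ := param2_near (u₀ := u₀) h1 h2 (by linarith)
  have k1' : (u₀ : ℝ) * β ≤ u * β := by gcongr
  have k2' : (u : ℝ) * β ≤ (u₀ + 1) * β :=
    mul_le_mul_of_nonneg_right (by exact_mod_cast k2) hβ0
  have hP0 : (0 : ℝ) ≤ P := Nat.cast_nonneg _
  have hsq : ((u : ℝ) * β) ^ 2 = u * u * (a * (a + 1)) := by rw [mul_pow, hβ]; ring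
  refine ⟨u * u, P, ?_, ?_, ?_, ?_, ?_⟩
  · calc 10 ^ 10 = 10 ^ 5 * 10 ^ 5 := by norm_num
      _ ≤ u * u := Nat.mul_le_mul (g1.trans k1) (g1.trans k1)
  · have : (P₀ : ℝ) ≤ P := by linarith
    exact_mod_cast this
  · have : (P : ℝ) ≤ P₀ + 5 * a := by linarith
    exact_mod_cast this
  · have b1 : ((P : ℝ) + 7 / 10) ^ 2 ≤ (u * β) ^ 2 := by gcongr
    have : 5 * ((P : ℝ) * (P + 1)) + 2 * P ≤ 5 * (u * u * (a * (a + 1))) := by nlinarith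
    exact_mod_cast this
  · have b1 : ((u : ℝ) * β) ^ 2 ≤ (P + 13 / 10) ^ 2 := by gcongr
    have : 5 * ((u : ℝ) * u * (a * (a + 1))) + 2 * P ≤ 5 * ((P + 1) * (P + 1 + 1)) := by
      nlinarith
    exact_mod_cast this

theorem param2 {a P₀ : ℕ} (ha : 1 ≤ a) (hP : 200000 * a ≤ P₀) :
    ∃ n P : ℕ, 10 ^ 10 ≤ n ∧ P₀ ≤ P ∧ P ≤ P₀ + 5 * a ∧
      5 * tri P + P ≤ 5 * (n * tri a) ∧ 5 * (n * tri a) + P ≤ 5 * tri (P + 1) := by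
  obtain ⟨n, P, h1, h2, h3, h4, h5⟩ := param2_nat ha hP
  have e1 := two_tri P
  have e2 := two_tri (P + 1)
  have e3 : 2 * (n * tri a) = n * (a * (a + 1)) := by rw [← two_tri a]; ring
  refine ⟨n, P, h1, h2, h3, ?_, ?_⟩ <;> omega

end Pool.Agent.Lib.MP_6e81d8_ag.H22
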