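import Pool.Agent.Lib.MP_6e81d8_ag.H22.Select

set_option autoImplicit false

namespace Pool.Agent.Lib.MP_6e81d8_ag.H22

open Polynomial Finset Module H36
open Multiset (replicate)

theorem mm_eq_sum (T : Multiset ℕ) : mm T = ∑ a ∈ T.toFinset, T.count a * tri a := by
  rw [mm, Finset.sum_multiset_map_count]
  simp

theorem exists_heavy {D : ℕ} {T : Multiset ℕ} (h0 : T ≠ 0) (h : D * #T.toFinset ≤ mm T) :
    ∃ a ∈ T, D ≤ T.count a * tri a := by
  obtain ⟨a, ha, hle⟩ := Finset.exists_le_of_sum_le (s := T.toFinset) (f := fun _ => D)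
    (g := fun a => T.count a * tri a) (Multiset.toFinset_nonempty.2 h0)
    (by rw [sum_const, smul_eq_mul, mul_comm, ← mm_eq_sum]; exact h)
  exact ⟨a, Multiset.mem_toFinset.1 ha, hle⟩

theorem s2_min {X t c : ℕ} (h : X ≤ c * t) : ∃ j ≤ c, X ≤ j * t ∧ j * t ≤ X + t := by
  induction c with
  | zero => exact ⟨0, le_rfl, h, by simp⟩
  | succ c ih =>
    by_cases hc : X ≤ c * t
    · obtain ⟨j, h1, h2⟩ := ih hc
      exact ⟨j, by omega, h2⟩
    · exact ⟨c + 1, le_rfl, h, by rw [Nat.succ_mul]; omega⟩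

theorem s2_light {D : ℕ} {T : Multiset ℕ} (h0 : T ≠ 0) (h : D * #T.toFinset ≤ mm T) :
    ∃ (w c : ℕ) (T₁ : Multiset ℕ), w ∈ T ∧ T = replicate c w + T₁ ∧
      #T₁.toFinset + 1 = #T.toFinset ∧ D * #T₁.toFinset ≤ mm T₁ := by
  obtain ⟨w, hw, hmin⟩ := Finset.exists_min_image T.toFinset (fun a => T.count a * tri a)
    (Multiset.toFinset_nonempty.2 h0)
  have he : (T.filter (fun x => ¬ x = w)).toFinset = T.toFinset.erase w := by
    ext x
    simp [and_comm]
  have hc : T = replicate (T.count w) w + T.filter (fun x => ¬ x = w) := by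
    rw [← Multiset.filter_eq' T w, Multiset.filter_add_not]
  have hcard : #(T.filter (fun x => ¬ x = w)).toFinset + 1 = #T.toFinset := by
    rw [he]
    exact card_erase_add_one hw
  refine ⟨w, _, _, Multiset.mem_toFinset.1 hw, hc, hcard, ?_⟩
  have h1 : mm T = T.count w * tri w + mm (T.filter (fun x => ¬ x = w)) := by
    rw [← mm_replicate, ← mm_add, ← hc]
  have h2 : #T.toFinset * (T.count w * tri w) ≤ mm T := by
    rw [mm_eq_sum]
    exact Finset.card_nsmul_le_sum _ _ _ hmin
  rw [← hcard] at h h2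
  generalize #(T.filter (fun x => ¬ x = w)).toFinset = n at h h2 ⊢
  generalize T.count w * tri w = x at h1 h2
  rw [Nat.mul_succ] at h
  rw [Nat.succ_mul] at h2
  rcases le_total x D with hx | hx
  · omega
  · have := Nat.mul_le_mul_left n hx
    rw [mul_comm D n]
    omega

theorem select2 {μ D : ℕ} (hD : tri μ ≤ D) (K : ℕ) :
    ∀ (T : Multiset ℕ) (X : ℕ), (∀ w ∈ T, 0 < w ∧ w ≤ μ) → T ≠ 0 →
      3 * D * #T.toFinset ≤ mm T → X ≤ mm T → X ≤ K * D →
      ∃ (J T' : Multiset ℕ) (j w : ℕ), w ∈ T ∧ T = J + T' + replicate j w ∧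
        #J.toFinset ≤ 2 * K ∧ X ≤ mm J ∧ mm J ≤ X + tri μ ∧ 3 * D * #T'.toFinset ≤ mm T' := by
  induction K with
  | zero =>
    intro T X _ h0 h3 _ hK
    obtain ⟨w, hw⟩ := Multiset.exists_mem_of_ne_zero h0
    exact ⟨0, T, 0, w, hw, by simp, by simp, by simpa using hK, by simp, h3⟩
  | succ K ih =>
    intro T X hT h0 h3 hX hK
    obtain ⟨w, c, T₁, hw, hc, hcard, h31⟩ := s2_light h0 h3
    have hsub : ∀ a ∈ T₁, a ∈ T := fun a ha => hc ▸ Multiset.mem_add.2 (Or.inr ha)
    have hmT : mm T = c * tri w + mm T₁ := by rw [hc, mm_add, mm_replicate]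
    have htw : tri w ≤ tri μ := tri_mono (hT w hw).2
    rw [Nat.succ_mul] at hK
    by_cases ha : X ≤ c * tri w
    · obtain ⟨j, hj, h1, h2⟩ := s2_min ha
      have h4 := card_toFinset_replicate_le j w
      refine ⟨replicate j w, T₁, c - j, w, hw, ?_, by omega, by rwa [mm_replicate],
        by rw [mm_replicate]; omega, h31⟩
      rw [add_right_comm, ← Multiset.replicate_add, Nat.add_sub_cancel' hj]
      exact hc
    have h01 : T₁ ≠ 0 := by
      rintro rfl
      rw [mm_zero] at hmT
      omega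
    have h4 := card_toFinset_replicate_le c w
    by_cases hb : D ≤ c * tri w
    · obtain ⟨J, T', j, w', hw', e, k1, k2, k3, k4⟩ := ih T₁ (X - c * tri w)
        (fun a ha => hT a (hsub a ha)) h01 h31 (by omega) (by omega)
      have h5 := card_toFinset_add_le (replicate c w) J
      refine ⟨replicate c w + J, T', j, w', hsub _ hw', ?_, by omega, ?_, ?_, k4⟩
      · rw [add_assoc, add_assoc, ← add_assoc J, ← e]
        exact hc
      · rw [mm_add, mm_replicate]
        omega
      · rw [mm_add, mm_replicate]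
        omega
    obtain ⟨g, hg, hgm⟩ := exists_heavy h01 h31
    have htg : tri g ≤ tri μ := tri_mono (hT g (hsub g hg)).2
    obtain ⟨i, hi, h1, h2⟩ := s2_min (X := min (X - c * tri w) D) (t := tri g) (c := T₁.count g)
      (by omega)
    obtain ⟨T₂, e₂⟩ := Multiset.le_iff_exists_add.1 (Multiset.le_count_iff_replicate_le.1 hi)
    have hsub₂ : ∀ a ∈ T₂, a ∈ T₁ := fun a ha => e₂ ▸ Multiset.mem_add.2 (Or.inr ha)
    have hm₁ : mm T₁ = i * tri g + mm T₂ := by rw [e₂, mm_add, mm_replicate]
    have hc₂ : #T₂.toFinset ≤ #T₁.toFinset := card_le_card fun a ha =>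
      Multiset.mem_toFinset.2 (hsub₂ a (Multiset.mem_toFinset.1 ha))
    have h32 : 3 * D * #T₂.toFinset ≤ mm T₂ := by
      have := Nat.mul_le_mul_left (3 * D) hc₂
      rw [← hcard, Nat.mul_succ] at h3
      omega
    have h5 := card_toFinset_replicate_le i g
    have h6 := card_toFinset_add_le (replicate c w) (replicate i g)
    have hm : mm (replicate c w + replicate i g) = c * tri w + i * tri g := by
      rw [mm_add, mm_replicate, mm_replicate]
    by_cases hd : X ≤ c * tri w + i * tri g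
    · refine ⟨replicate c w + replicate i g, T₂, 0, w, hw, ?_, by omega, by omega, by omega, h32⟩
      rw [Multiset.replicate_zero, add_zero, add_assoc, ← e₂]
      exact hc
    have h02 : T₂ ≠ 0 := by
      rintro rfl
      rw [mm_zero] at hm₁
      omega
    obtain ⟨J, T', j, w', hw', e, k1, k2, k3, k4⟩ := ih T₂ (X - c * tri w - i * tri g)
      (fun a ha => hT a (hsub a (hsub₂ a ha))) h02 h32 (by omega) (by omega)
    have h7 := card_toFinset_add_le (replicate c w + replicate i g) J
    refine ⟨replicate c w + replicate i g + J, T', j, w', hsub _ (hsub₂ _ hw'), ?_, by omega,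
      ?_, ?_, k4⟩
    · rw [add_assoc, add_assoc, ← add_assoc J, ← e, add_assoc, ← e₂]
      exact hc
    · rw [mm_add, hm]
      omega
    · rw [mm_add, hm]
      omega

end Pool.Agent.Lib.MP_6e81d8_ag.H22
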