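import Pool.Agent.Lib.MP_6e81d8_ag.H22.Collide
import Pool.Agent.Lib.MP_6e81d8_ag.H22.Param2
import Pool.Agent.Lib.MP_6e81d8_ag.H22.Select2

set_option autoImplicit false

namespace Pool.Agent.Lib.MP_6e81d8_ag.H22

open Polynomial Finset Module H36
open Multiset (replicate)

namespace PrepAux

theorem card_rep (n w : ℕ) : #(replicate n w).toFinset ≤ 1 := by
  refine (card_le_card fun x hx => ?_).trans (card_singleton w).le
  rw [Multiset.mem_toFinset] at hx
  exact mem_singleton.2 (Multiset.eq_of_mem_replicate hx)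

theorem card_add (S T : Multiset ℕ) : #(S + T).toFinset ≤ #S.toFinset + #T.toFinset := by
  rw [Multiset.toFinset_add]
  exact card_union_le _ _

/-- The majority value gives 171 equal points. -/
theorem major {r₁ r₂ : ℕ} (h : r₁ + r₂ = 3000) (Q : ℕ) :
    ∃ (s : ℕ) (Lf : Multiset ℕ), Q ≤ s ∧ s ≤ Q + 1 ∧ (∀ w ∈ Lf, Q ≤ w ∧ w ≤ Q + 1) ∧
      #Lf.toFinset ≤ 2 ∧ replicate r₁ Q + replicate r₂ (Q + 1) = 57 • replicate 3 s + Lf := by
  have key : ∀ a b : ℕ, (∀ w ∈ replicate a Q + replicate b (Q + 1), Q ≤ w ∧ w ≤ Q + 1) ∧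
      #(replicate a Q + replicate b (Q + 1)).toFinset ≤ 2 := by
    intro a b
    refine ⟨fun w hw => ?_, ?_⟩
    · rcases Multiset.mem_add.1 hw with hw | hw <;>
        have := Multiset.eq_of_mem_replicate hw <;> omega
    · have h1 := card_add (replicate a Q) (replicate b (Q + 1))
      have h2 := card_rep a Q
      have h3 := card_rep b (Q + 1)
      omega
  by_cases h1 : 171 ≤ r₁
  · obtain ⟨a, rfl⟩ := Nat.exists_eq_add_of_le h1
    refine ⟨Q, _, le_rfl, Nat.le_succ _, (key a r₂).1, (key a r₂).2, ?_⟩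
    rw [Multiset.nsmul_replicate, Multiset.replicate_add, add_assoc]
  · obtain ⟨b, rfl⟩ := Nat.exists_eq_add_of_le (show 171 ≤ r₂ by omega)
    refine ⟨Q + 1, _, Nat.le_succ _, le_rfl, (key r₁ b).1, (key r₁ b).2, ?_⟩
    rw [Multiset.nsmul_replicate, Multiset.replicate_add, add_left_comm]

theorem tri_bound {μ P Q : ℕ} (hμ : 1 ≤ μ) (hP : 200000 * μ ≤ P) (hQ : Q ≤ P + 5 * μ) :
    3000 * tri (Q + 1) ≤ 1503 * (P * P) := by
  have h1 := two_tri (Q + 1)
  have h2 : (Q + 1) * (Q + 1 + 1) ≤ (P + 7 * μ) * (P + 7 * μ) :=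
    Nat.mul_le_mul (by omega) (by omega)
  have h3 : 200000 * μ * P ≤ P * P := Nat.mul_le_mul_right _ hP
  have h4 : 200000 * μ * μ ≤ P * μ := Nat.mul_le_mul_right _ hP
  nlinarith

end PrepAux

open PrepAux in
theorem prep {E μ P G : ℕ} (hμ : 1 ≤ μ) (hP : 200000 * μ ≤ P) (hE : 2 * P ≤ E) (R : ℕ) :
    ∀ J I : Multiset ℕ, (∀ w ∈ J, 0 < w ∧ w ≤ μ) → #J.toFinset ≤ G →
      (R + G) * (1503 * (P * P)) ≤ mm J →
      (∀ (U J' : Multiset ℕ) (b c : ℕ), U.card = 3 * R → (∀ s ∈ U, P ≤ s ∧ s ≤ P + 6 * μ) →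
        (∀ w ∈ J', 0 < w ∧ w ≤ P + 6 * μ) → #J'.toFinset ≤ G + 2 * R →
        mm (57 • U + J') + c = mm J + b → 600 * (R * P) ≤ b + c → b + c ≤ 3001 * (R * P) →
        BM (Dsp E E) (I + replicate c 1 + (57 • U + J')) 0) →
      BM (Dsp E E) (I + J) 0 := by
  induction R with
  | zero =>
    intro J I hJ hG _ g
    have := g 0 J 0 0 (by simp) (by simp)
      (fun w hw => ⟨(hJ w hw).1, by have := (hJ w hw).2; omega⟩) (by omega) (by simp) (by simp)
      (by simp)
    simpa using this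
  | succ R ih =>
    intro J I hJ hG hm g
    have hP0 : 0 < P := by omega
    have hD : 0 < 1503 * (P * P) := by positivity
    have hm' : (R + G) * (1503 * (P * P)) + 1503 * (P * P) ≤ mm J := by
      refine le_of_eq_of_le ?_ hm
      ring
    have h0 : J ≠ 0 := by
      rintro rfl
      rw [mm_zero] at hm'
      omega
    have hh : 1503 * (P * P) * #J.toFinset ≤ mm J := by
      have h1 : 1503 * (P * P) * #J.toFinset ≤ (R + G) * (1503 * (P * P)) := by
        rw [mul_comm]
        exact Nat.mul_le_mul_right _ (by omega)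
      omega
    obtain ⟨v, hv, hcv⟩ := exists_heavy h0 hh
    obtain ⟨hv0, hvμ⟩ := hJ v hv
    obtain ⟨n, Q, hn, hPQ, hQP, k1, k2⟩ := param2 (a := v) (P₀ := P) hv0 (by omega)
    have tb := tri_bound hμ hP (show Q ≤ P + 5 * μ by omega)
    have tq := collide_tri Q
    have htv : 0 < tri v := by
      have := tri_mono (show 1 ≤ v from hv0)
      rw [tri_one] at this
      omega
    have hX : 3000 * n * tri v ≤ 1503 * (P * P) := by
      rw [mul_assoc]
      omega
    have hc : 3000 * n ≤ J.count v := Nat.le_of_mul_le_mul_right (hX.trans hcv) htv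
    obtain ⟨J₁, hJ₁⟩ := Multiset.le_iff_exists_add.1 (Multiset.le_count_iff_replicate_le.1 hc)
    have hsub : ∀ w ∈ J₁, w ∈ J := fun w hw => hJ₁ ▸ Multiset.mem_add.2 (Or.inr hw)
    have hmm : mm J = 3000 * (n * tri v) + mm J₁ := by
      rw [hJ₁, mm_add, mm_replicate, mul_assoc]
    have hG₁ : #J₁.toFinset ≤ G :=
      (card_le_card fun x hx => Multiset.mem_toFinset.2
        (hsub x (Multiset.mem_toFinset.1 hx))).trans hG
    have hm₁ : (R + G) * (1503 * (P * P)) ≤ mm J₁ := by
      rw [mul_assoc] at hX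
      omega
    rw [hJ₁, add_comm (replicate _ v), ← add_assoc]
    refine collide_many (P := Q) hn hv0 (by omega) (by omega) (by omega) 3000 _ fun r₁ r₂ hr => ?_
    obtain ⟨s, Lf, hs1, hs2, hLf, hcL, hsp⟩ := major hr Q
    obtain ⟨ρ₁, e₁⟩ : ∃ ρ₁, n * tri v = tri Q + ρ₁ := ⟨n * tri v - tri Q, by omega⟩
    obtain ⟨ρ₂, e₂⟩ : ∃ ρ₂, tri (Q + 1) = n * tri v + ρ₂ := ⟨tri (Q + 1) - n * tri v, by omega⟩
    have e₃ : n * tri v - tri Q = ρ₁ := by omega
    rw [e₃]
    have hmsp : mm (57 • replicate 3 s + Lf) = r₁ * tri Q + r₂ * tri (Q + 1) := by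
      rw [← hsp, mm_add, mm_replicate, mm_replicate]
    have hsum : r₁ * tri Q + r₂ * tri (Q + 1) + r₁ * ρ₁ = 3000 * (n * tri v) + r₂ * ρ₂ := by
      rw [← hr, e₂, add_mul, mul_add, add_right_comm (r₁ * tri Q), ← mul_add, ← e₁, add_assoc]
    have l1 : r₁ * P ≤ r₁ * (5 * ρ₁) := Nat.mul_le_mul_left _ (by omega)
    have l2 : r₂ * P ≤ r₂ * (5 * ρ₂) := Nat.mul_le_mul_left _ (by omega)
    have u1 : r₁ * ρ₁ ≤ r₁ * (P + 6 * μ) := Nat.mul_le_mul_left _ (by omega)
    have u2 : r₂ * ρ₂ ≤ r₂ * (P + 6 * μ) := Nat.mul_le_mul_left _ (by omega)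
    have l3 : r₁ * P + r₂ * P = 3000 * P := by rw [← add_mul, hr]
    have u3 : r₁ * (P + 6 * μ) + r₂ * (P + 6 * μ) = 3000 * (P + 6 * μ) := by rw [← add_mul, hr]
    have l4 : r₁ * (5 * ρ₁) = 5 * (r₁ * ρ₁) := by ring
    have l5 : r₂ * (5 * ρ₂) = 5 * (r₂ * ρ₂) := by ring
    have hRP : (R + 1) * P = R * P + P := by ring
    have key := ih J₁ (I + (57 • replicate 3 s + Lf) + replicate (r₁ * ρ₁) 1)
      (fun w hw => hJ w (hsub w hw)) hG₁ hm₁ fun U₁ J' b c a1 a2 a3 a4 a5 a6 a7 => by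
        have := g (U₁ + replicate 3 s) (J' + Lf) (b + r₂ * ρ₂) (c + r₁ * ρ₁)
          (by rw [Multiset.card_add, Multiset.card_replicate, a1]; ring)
          (fun x hx => by
            rcases Multiset.mem_add.1 hx with hx | hx
            · exact a2 x hx
            · have := Multiset.eq_of_mem_replicate hx
              omega)
          (fun x hx => by
            rcases Multiset.mem_add.1 hx with hx | hx
            · exact a3 x hx
            · have := hLf x hx
              omega)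
          (by have := card_add J' Lf; omega)
          (by
            have e : 57 • (U₁ + replicate 3 s) + (J' + Lf) =
                57 • U₁ + J' + (57 • replicate 3 s + Lf) := by
              rw [smul_add]
              abel
            rw [e, mm_add, hmsp, hmm]
            omega)
          (by omega) (by omega)
        rw [Multiset.replicate_add, smul_add] at this
        convert this using 1
        generalize 57 • replicate 3 s = A
        generalize 57 • U₁ = B
        abel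
    rw [← hsp] at key
    convert key using 1
    abel

end Pool.Agent.Lib.MP_6e81d8_ag.H22
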