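import Pool.Agent.Lib.MP_6e81d8_ag.H22.Step2
import Pool.Agent.Lib.MP_6e81d8_ag.H22.Prep

set_option autoImplicit false

namespace Pool.Agent.Lib.MP_6e81d8_ag.H22

open Polynomial Finset Module H36
open Multiset (replicate)

theorem bs2_add (A D : ℕ) : tri A + A * D ≤ tri (A + D) := by
  have h1 := two_tri A
  have h2 := two_tri (A + D)
  nlinarith [Nat.zero_le (D * D)]

theorem bs2_mass {E P G : ℕ} (hE : 10000 * ((G + 3) * P) + 10000 * P ≤ E) :
    tri (E - 5 * P / 2) + (G + 3 + G) * (1503 * (P * P)) ≤ tri E := by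
  have a1 := bs2_add (E - 5 * P / 2) (5 * P / 2)
  rw [show E - 5 * P / 2 + 5 * P / 2 = E by omega] at a1
  have a2 : 10000 * ((G + 3) * P) * (2 * P) ≤ (E - 5 * P / 2) * (5 * P / 2) :=
    Nat.mul_le_mul (by omega) (by omega)
  nlinarith [Nat.zero_le (G * (P * P)), Nat.zero_le (P * P)]

theorem bs2_gap {E P X K : ℕ} (hP : 200000 ≤ P) (hE : 10000 * X + 10000 * P ≤ E)
    (hK : K = 259 * P / 100) : tri (E - K) + P * P + 3141 * X < tri (E - 5 * P / 2) := by
  have a1 := bs2_add (E - K) (K - 5 * P / 2)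
  rw [show E - K + (K - 5 * P / 2) = E - 5 * P / 2 by omega] at a1
  have a2 : (10000 * X + 9000 * P) * (8 * P) ≤ (E - K) * (100 * (K - 5 * P / 2)) :=
    Nat.mul_le_mul (by omega) (by omega)
  have a3 : X * 200000 ≤ X * P := Nat.mul_le_mul_left _ hP
  have a4 : 0 < P * P := Nat.mul_pos (by omega) (by omega)
  nlinarith

theorem big_step2 {E μ P G : ℕ} {J I : Multiset ℕ} (hμ : 1 ≤ μ) (hP : 200000 * μ ≤ P)
    (hJ : ∀ w ∈ J, 0 < w ∧ w ≤ μ) (hG : #J.toFinset ≤ G) (hE : 10000 * (G + 4) * P ≤ E)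
    (lo : tri E ≤ tri (E - 5 * P / 2) + mm J) (hi : tri (E - 5 * P / 2) + mm J ≤ tri E + P * P)
    (ih : ∀ k, 1 ≤ k → ∀ c', tri (E - k) ≤ mm I + c' →
      BM (Dsp (E - k) (E - k)) (I + replicate c' 1) 0)
    (tot : tri E ≤ mm I + mm J) : BM (Dsp E E) (I + J) 0 := by
  have hE' : 10000 * ((G + 3) * P) + 10000 * P ≤ E := le_of_eq_of_le (by ring) hE
  have m0 := bs2_mass hE'
  refine prep hμ hP (by omega) (G + 3) J I hJ hG (by omega)
    fun U J' b c hU hs hJ' hc hm b1 b2 => ?_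
  obtain ⟨K, hK⟩ : ∃ K, K = 259 * P / 100 := ⟨_, rfl⟩
  have hK1 : K - 1 + 1 = K := by omega
  have hL : 18 * U.card * K ≤ 140 * ((G + 3) * P) := by
    have : (G + 3) * (54 * K) ≤ (G + 3) * (140 * P) := Nat.mul_le_mul_left _ (by omega)
    rw [hU]
    linarith
  generalize (G + 3) * P = X at *
  have gap := bs2_gap (by omega) hE' hK
  have s2 : tri (E - 5 * P / 2) + (E - 5 * P / 2) ≤ tri (E - (5 * P / 2 - 1)) := by
    have := bs2_add (E - 5 * P / 2) 1
    rwa [mul_one, show E - 5 * P / 2 + 1 = E - (5 * P / 2 - 1) by omega] at this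
  refine strip_step2 (k₁ := 5 * P / 2 - 1) (k₂ := K - 1) (L := 140 * X)
    (fun s h => by have := hs s h; omega) (by omega) (fun w h => by have := hJ' w h; omega)
    (by omega) (by rwa [hK1]) (by omega) (by omega) (by rw [hK1]; omega) ih ?_
  rcases le_or_gt (140 * X) b with h | h
  · exact Or.inl (by omega)
  · exact Or.inr ⟨by omega, by omega⟩

end Pool.Agent.Lib.MP_6e81d8_ag.H22
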