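import Pool.Agent.Lib.MP_6e81d8_ag.H22.Step3
import Pool.Agent.Lib.MP_6e81d8_ag.H22.Prep

set_option autoImplicit false

namespace Pool.Agent.Lib.MP_6e81d8_ag.H22

open Polynomial Finset Module H36
open Multiset (replicate)

theorem bs3_sum {l : ℕ → ℕ} {W V K : ℕ} (h : ∀ k, W ≤ l k + k) (hV : V + K ≤ W) {a b : ℕ}
    (hab : a ≤ b) (hb : b ≤ K) : ∑ t ∈ range a, l t + (b - a) * V ≤ ∑ t ∈ range b, l t := by
  induction b, hab using Nat.le_induction with
  | base => simp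
  | succ b hab ih =>
    have h1 := ih (by omega)
    have h2 := h b
    rw [sum_range_succ, Nat.succ_sub hab, Nat.succ_mul]
    omega

theorem bs3_gap {P X D : ℕ} (hP : 200000 ≤ P) (hD : 8 * P ≤ 100 * D) :
    P * P + 3141 * X < D * (10000 * X + 9000 * P) := by
  have a2 : 8 * P * (10000 * X + 9000 * P) ≤ 100 * D * (10000 * X + 9000 * P) :=
    Nat.mul_le_mul_right _ hD
  have a3 : X * 200000 ≤ X * P := Nat.mul_le_mul_left _ hP
  have a4 : 0 < P * P := Nat.mul_pos (by omega) (by omega)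
  nlinarith

theorem big_step3 {E W μ P G : ℕ} {Pl : ℕ → Multiset ℕ} {St : ℕ → Submodule ℂ R}
    {l : ℕ → ℕ} (sys : CutSys E W (3 * P) Pl St l) {J I : Multiset ℕ} (hμ : 1 ≤ μ)
    (hP : 200000 * μ ≤ P) (hJ : ∀ w ∈ J, 0 < w ∧ w ≤ μ) (hG : #J.toFinset ≤ G)
    (hW : 10000 * (G + 4) * P ≤ W) (hE : 2 * P ≤ E)
    (lo : ∑ t ∈ range (5 * P / 2), l t ≤ mm J) (hi : mm J ≤ ∑ t ∈ range (5 * P / 2), l t + P * P)
    (ih : ∀ k, 1 ≤ k → k ≤ 3 * P → ∀ c', tri (E - k) ≤ mm (Pl k) + mm I + c' →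
      BM (Dsp (E - k) (E - k)) (Pl k + I + replicate c' 1) 0)
    (tot : tri E ≤ mm (Pl 0) + mm I + mm J) : BM (Dsp E E) (Pl 0 + I + J) 0 := by
  have hW' : 10000 * ((G + 3) * P) + 9000 * P + 3 * P ≤ W := by
    have : 10000 * ((G + 3) * P) + 10000 * P ≤ W := le_of_eq_of_le (by ring) hW
    omega
  have m0 : (G + 3 + G) * (1503 * (P * P)) ≤ mm J := by
    have a1 := bs3_sum sys.lo hW' (Nat.zero_le (5 * P / 2)) (by omega)
    have a2 : 2 * P * (10000 * ((G + 3) * P)) ≤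
        (5 * P / 2 - 0) * (10000 * ((G + 3) * P) + 9000 * P) := Nat.mul_le_mul (by omega) (by omega)
    nlinarith [Nat.zero_le (G * (P * P)), Nat.zero_le (P * P), Nat.zero_le (∑ t ∈ range 0, l t)]
  rw [add_assoc] at tot
  refine prep hμ hP hE (G + 3) J (Pl 0 + I) hJ hG m0 fun U J' b c hU hs hJ' hc hm b1 b2 => ?_
  obtain ⟨K, hK⟩ : ∃ K, K = 259 * P / 100 := ⟨_, rfl⟩
  have hK1 : K - 1 + 1 = K := by omega
  have hL : 18 * U.card * K ≤ 140 * ((G + 3) * P) := by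
    have : (G + 3) * (54 * K) ≤ (G + 3) * (140 * P) := Nat.mul_le_mul_left _ (by omega)
    rw [hU]
    linarith
  generalize (G + 3) * P = X at *
  have gap := bs3_gap (P := P) (X := X) (D := K - 5 * P / 2) (by omega) (by omega)
  have s1 := bs3_sum sys.lo hW' (show 5 * P / 2 ≤ K by omega) (by omega)
  have s2 := bs3_sum sys.lo hW' (Nat.sub_le (5 * P / 2) 1) (by omega)
  rw [show 5 * P / 2 - (5 * P / 2 - 1) = 1 by omega, one_mul] at s2
  refine strip_step3 (k₁ := 5 * P / 2 - 1) (k₂ := K - 1) (L := 140 * X) sys (by omega)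
    (fun s h => by have := hs s h; omega) (by omega) (fun w h => by have := hJ' w h; omega)
    (by omega) (by rwa [hK1]) (by omega) (by omega) (by rw [hK1]; omega) ih ?_
  rcases le_or_gt (140 * X) b with h | h
  · exact Or.inl (by omega)
  · exact Or.inr ⟨by omega, by omega⟩

end Pool.Agent.Lib.MP_6e81d8_ag.H22
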