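import Pool.Agent.Lib.MP_6e81d8_ag.H22.GMl

set_option autoImplicit false

namespace Pool.Agent.Lib.MP_6e81d8_ag.H22

open Polynomial Finset Module H36
open Multiset (replicate)

theorem gm_five {D : ℕ → ℕ → Prop} {J A B g e : ℕ} {φ₀ φ₁ ψ : ℕ → ℕ}
    (h : GE D (fun x : Σ τ : Fin 5, Fin (![J, A, B, g, e] τ) => ![φ₀, φ₁, φ₁, φ₁, ψ] x.1)
      (fun x => ![false, true, true, true, false] x.1)) :
    GM D (replicate J (φ₀, false) + replicate (A + B + g) (φ₁, true) + replicate e (ψ, false)) := by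
  refine ⟨_, inferInstance, _, _, ?_, h⟩
  rw [Fintype.sum_sigma, Fin.sum_univ_five]
  simp only [Matrix.cons_val, Multiset.replicate_add, add_assoc]
  exact congrArg₂ (· + ·) (sum_replicate J _) (congrArg₂ (· + ·) (sum_replicate A _)
    (congrArg₂ (· + ·) (sum_replicate B _)
      (congrArg₂ (· + ·) (sum_replicate g _) (sum_replicate e _))))

theorem bubE_plus (H P : ℕ) : BubE H P (fun k => P - k) (P * (P + 1) / (2 * H)) := by
  intro Q hQ J A B g e κ σ a z ψ hc D hD hD' hψ ha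
  subst hQ
  push_cast at ha
  exact gm_five (bubble_plus hc hD hD' hψ ha)

theorem bubE_minus (H P : ℕ) :
    BubE H P (fun k => min P (H - 1 - k)) (P - P * (P + 1) / (2 * H)) := by
  intro Q hQ J A B g e κ σ a z ψ hc D hD hD' hψ ha
  subst hQ
  push_cast at ha
  exact gm_five (bubble_minus hc hD hD' hψ ha)

theorem pack_of {H E : ℕ} (hH : 0 < H) {κ z : ℝ} (hκ : κ * H = E)
    {t : Multiset ((ℕ → ℕ) × Bool)}
    (h : ∀ (a : ℝ) (D : ℕ → ℕ → Prop), a < z → H88.Bdd D →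
      (∀ s k, D s k → k < H ∧ (s : ℝ) + κ * k ≤ a) → GM D t) : Pack H κ z t := by
  have hH' : (0 : ℝ) < H := by exact_mod_cast hH
  obtain ⟨θ, hθ⟩ : ∃ θ : ℕ, θ = ⌈(H : ℝ) * z⌉₊ := ⟨_, rfl⟩
  obtain ⟨ψ, hψ⟩ := trap_node hH E θ
  refine ⟨ψ, ⟨H, E, θ, hψ⟩, fun k => ?_, ?_⟩
  · have h1 : θ ≤ H * ψ k + E * k := not_lt.1 fun h => lt_irrefl _ ((hψ _ k).2 h)
    have h2 : (θ : ℝ) ≤ H * ψ k + E * k := by exact_mod_cast h1
    have h3 : (H : ℝ) * z ≤ θ := by rw [hθ]; exact Nat.le_ceil _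
    rw [← hκ] at h2
    refine le_of_mul_le_mul_left ?_ hH'
    linarith
  · rcases θ with _ | θ
    · exact h (z - 1) _ (by linarith) (bdd_node H ψ) fun s k hk =>
        absurd ((hψ s k).1 hk.2) (Nat.not_lt_zero _)
    · have h1 : (θ : ℝ) < H * z := Nat.lt_ceil.1 (by rw [← hθ]; exact Nat.lt_succ_self θ)
      refine h (θ / H) _ (by rw [div_lt_iff₀ hH']; linarith) (bdd_node H ψ) fun s k hk =>
        ⟨hk.1, ?_⟩
      have h2 : H * s + E * k ≤ θ := Nat.lt_succ_iff.1 ((hψ s k).1 hk.2)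
      have h3 : (H * s + E * k : ℝ) ≤ θ := by exact_mod_cast h2
      rw [← hκ] at h3
      rw [le_div_iff₀ hH']
      linarith

theorem pack_sup {H P J A B g : ℕ} {φ₀ : ℕ → ℕ} {M : ℝ} (hb : BubE H P φ₀ M) (hP : 2000 ≤ P)
    (w1 : 248 * P ≤ 100 * H) (w2 : 100 * H ≤ 259 * P) (hBA : B ≤ A) (hg : 4 ≤ g)
    (h1 : 436 * g ≤ 100 * J) (h2 : 35 * J ≤ 114 * A + 141 * g)
    (h4 : (J : ℝ) * ((P + 1) / H) ≤ 2 * B + 1.62 * g) :
    Pack H (A - B + J * ((P + 1) / H))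
      ((A - B + J * ((P + 1) / H)) * (H - 1) / 2 + J * M + (A + B + g) * (H - 1) / 2 - 3 * g / 2)
      (replicate J (φ₀, false) + replicate (A + B + g) (fun k => H - 1 - k, true)) := by
  obtain ⟨Q, hQ⟩ : ∃ Q, P + Q = H := ⟨H - P, by omega⟩
  have hQ' : (P : ℝ) + Q = H := by exact_mod_cast hQ
  have hH : 0 < H := by omega
  have hH' : (0 : ℝ) < H := by exact_mod_cast hH
  have hP' : (0 : ℝ) < P := by exact_mod_cast (show 0 < P by omega)
  have hc := trap_cap (P := P) (Q := Q) (J := J) (A := A) (B := B) (g := g) hP (by omega)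
    (by omega) hg h1 h2 (by rw [hQ']; exact h4)
  rw [hQ'] at hc
  refine pack_of (E := (A - B) * H + J * (P + 1)) hH ?_ fun a D ha hD hD' => ?_
  · push_cast [Nat.cast_sub hBA]
    field_simp
  · have h5 : (g : ℝ) * H / (2 * P) ≤ 3 * g / 2 := by
      rw [div_le_div_iff₀ (by positivity) (by positivity)]
      have a1 : (H : ℝ) ≤ 3 * P := by exact_mod_cast (show H ≤ 3 * P by omega)
      have := mul_le_mul_of_nonneg_left a1 (Nat.cast_nonneg (α := ℝ) g)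
      linarith
    have := hb Q hQ J A B g 0 _ 0 a 0 (fun _ => 0) hc D hD hD' (fun _ _ => by simp)
      (by push_cast; linarith)
    rwa [Multiset.replicate_zero, add_zero] at this

theorem pack_val {H w J E₁ : ℕ} (hw : 0 < w) (hwH : w < H) {φ₀ : ℕ → ℕ} {M σ z₁ : ℝ}
    (hb : BubE H w φ₀ M) (hσ : σ * H = E₁) (hfr : ∀ y : ℤ, 1 ≤ 3 * |(y : ℝ) - σ|)
    {t₁ : Multiset ((ℕ → ℕ) × Bool)} (hp : Pack H σ z₁ t₁) :
    ∃ (B : ℕ) (κ : ℝ), J + B + 3 * σ - 2 ≤ κ ∧ κ ≤ J + B + 3 * σ ∧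
      Pack H κ (κ * (H - 1) / 2 + J * M + (J + B) * (H - 1) / 2 + 3 * (z₁ - σ * (H - 1) / 2))
        (replicate J (φ₀, false) + replicate (J + B) (fun k => H - 1 - k, true) + 3 • t₁) := by
  obtain ⟨Q, hQ⟩ : ∃ Q, w + Q = H := ⟨H - w, by omega⟩
  have hQ' : (w : ℝ) + Q = H := by exact_mod_cast hQ
  have hH : 0 < H := by omega
  have hH' : (0 : ℝ) < H := by exact_mod_cast hH
  have hQ1 : (1 : ℝ) ≤ Q := by exact_mod_cast (show 1 ≤ Q by omega)
  have hw0 : (0 : ℝ) ≤ w := Nat.cast_nonneg w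
  have hJ0 : (0 : ℝ) ≤ J := Nat.cast_nonneg J
  obtain ⟨x, hx⟩ : ∃ x : ℝ, x = J * (w + 1) / H := ⟨_, rfl⟩
  have hx0 : 0 ≤ x := by rw [hx]; positivity
  have hx1 : x ≤ J := by
    rw [hx, div_le_iff₀ hH']
    exact mul_le_mul_of_nonneg_left (by linarith) hJ0
  have hxH : x * H = J * (w + 1) := by rw [hx]; field_simp
  have B1 : x / 2 ≤ (⌈x / 2⌉₊ : ℝ) := Nat.le_ceil _
  have B2 : (⌈x / 2⌉₊ : ℝ) < x / 2 + 1 := Nat.ceil_lt_add_one (by linarith)
  have B3 : ⌈x / 2⌉₊ ≤ J := Nat.ceil_le.2 (by linarith)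
  generalize ⌈x / 2⌉₊ = B at B1 B2 B3
  obtain ⟨ψ, hN, hψ, hG⟩ := hp
  have e1 : (J : ℝ) * (Q - 1) / (w + Q) = J - x := by
    rw [hQ', div_eq_iff hH'.ne', sub_mul, hxH, ← hQ']; ring
  have hc : Cap w Q J J B 0 3 (J - B + x + 3 * σ) σ := by
    refine ⟨hw, by omega, ?_, ?_, ?_, ?_, ?_, Or.inr (by exact_mod_cast hfr)⟩
    · rw [hQ', ← hx]; push_cast; ring
    · rw [e1]; simp only [Nat.cast_zero, zero_mul, zero_div]; linarith
    · rw [e1]; simp only [Nat.cast_zero, zero_mul, zero_div]; linarith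
    · rw [hQ', ← hx]; simp only [Nat.cast_zero, zero_mul, zero_div]; linarith
    · rw [hQ', ← hx]; simp only [Nat.cast_zero, zero_mul, zero_div]; linarith
  refine ⟨B, J - B + x + 3 * σ, by linarith, by linarith, ?_⟩
  refine pack_of (E := (J - B) * H + J * (w + 1) + 3 * E₁) hH ?_ fun a D ha hD hD' => ?_
  · push_cast [Nat.cast_sub B3]
    rw [← hσ, ← hxH]
    ring
  · refine GM.split_rep hD (fun i k h => (hD' i k h).1) hN 3 ?_ hG
    exact hb Q hQ J J B 0 3 _ σ a z₁ ψ hc D hD hD' (fun k _ => hψ k) (by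
      simp only [Nat.cast_zero, zero_mul, zero_div, add_zero, Nat.cast_ofNat]; linarith)

end Pool.Agent.Lib.MP_6e81d8_ag.H22
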