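import Pool.Agent.Lib.MP_6e81d8_ag.H22.Defs

set_option autoImplicit false

namespace Pool.Agent.Lib.MP_6e81d8_ag.H22

open Polynomial Finset Module H36
open Multiset (replicate)

theorem mem_Dsp_iff {E : ℕ} {G : R} :
    G ∈ Dsp E E ↔ ∀ a b, E ≤ a + b → (G.coeff b).coeff a = 0 := by
  rw [Dsp, mem_rows]
  refine forall_comm.trans ?_ |>.symm
  refine forall_congr' fun b => ?_
  rw [mem_lt]
  exact forall_congr' fun a => ⟨fun h h' => h (by omega), fun h h' => h (by omega)⟩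

theorem sw_mem_Dsp {E : ℕ} {G : R} (h : G ∈ Dsp E E) : sw G ∈ Dsp E E :=
  mem_Dsp_iff.2 fun a b hab => by rw [coeff_sw]; exact mem_Dsp_iff.1 h b a (by omega)

theorem trX_mem_Dsp {E : ℕ} {G : R} (h : G ∈ Dsp E E) (β : ℂ) : trX β G ∈ Dsp E E :=
  mem_rows.mpr fun b => by
    rw [coeff_trX, mem_lt_degree, degree_taylor, ← mem_lt_degree]
    exact mem_rows.mp h b

theorem unfirst {ι : Type} [DecidableEq ι] {μ : ι → ℕ} {E : ℕ} {S : Finset ι} {i : ι}
    (hi : i ∉ S) {ρ : ℕ} (h : Bd μ (Dsp E E) (insert i S) ρ) :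
    Bd μ (Sp (E - μ i) E) S ρ := by
  obtain ⟨Δ, hΔ, Ψ, h⟩ := h.generic
  obtain ⟨q, hq⟩ := exists_eval_ne
    (Δ * ∏ j ∈ S, (MvPolynomial.X (j, 0) - MvPolynomial.X (i, 0)))
    (mul_ne_zero hΔ (Finset.prod_ne_zero_iff.mpr fun j hj => sub_ne_zero.mpr fun k =>
      hi ((show j = i from congrArg Prod.fst (MvPolynomial.X_injective k)) ▸ hj)))
  rw [map_mul, map_prod] at hq
  have h1 := left_ne_zero_of_mul hq
  have h2 := Finset.prod_ne_zero_iff.mp (right_ne_zero_of_mul hq)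
  let g : R →ₗ[ℂ] R := (trX (-q (i, 0))).toLinearMap ∘ₗ sw.toLinearMap ∘ₗ
    (trX (-q (i, 1))).toLinearMap ∘ₗ sw.toLinearMap ∘ₗ inv 1 (E - 1) ∘ₗ sw.toLinearMap
  have hg : ∀ F, g F = trX (-q (i, 0)) (sw (trX (-q (i, 1)) (sw (inv 1 (E - 1) (sw F))))) :=
    fun F => rfl
  refine ⟨fun j => ((q (j, 1) + -q (i, 1)) * (q (j, 0) + -q (i, 0))⁻¹ ^ 1,
    (q (j, 0) + -q (i, 0))⁻¹), Ψ ∘ₗ g, fun F hF hV hΨ => ?_⟩
  have hF' : ∀ a b, E - μ i ≤ b ∨ E ≤ a + b → (F.coeff b).coeff a = 0 := by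
    intro a b hab
    refine mem_lt.mp (mem_rows.mp hF b) a ?_
    unfold tr
    beta_reduce
    split_ifs <;> omega
  have hc : ∀ a c, E ≤ c + a ∨ c + a < μ i →
      ((inv 1 (E - 1) (sw F)).coeff a).coeff c = 0 := by
    intro a c hac
    rw [coeff_inv, coeff_reflect, coeff_sw]
    refine hF' _ _ ?_
    by_cases h3 : c ≤ E - 1 - 1 * a
    · rw [revAt_le h3]; omega
    · rw [revAt_eq_self_of_lt (by omega)]; omega
  have htr : ∀ (ν : ℕ) (p : ℂ × ℂ), Van ν (p.1 + -q (i, 0), p.2 + -q (i, 1))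
      (inv 1 (E - 1) (sw F)) → Van ν p (g F) := fun ν p hp =>
    van_trX (van_sw (van_trX (van_sw hp)))
  have h0 := h q h1 (g F) (trX_mem_Dsp (sw_mem_Dsp (trX_mem_Dsp (sw_mem_Dsp
    (mem_Dsp_iff.2 fun a b hab => hc b a (Or.inl hab))) _)) _) (fun j hj => htr _ _ (by
      rcases mem_insert.mp hj with rfl | hj
      · simp only [add_neg_cancel]
        exact (van_zero_iff _ _).mpr fun a b hab => hc b a (Or.inr hab)
      · refine van_inv (by simpa [sub_eq_add_neg] using h2 j hj) (fun b hb => ?_)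
          (van_sw (hV j hj))
        have h3 := leadingCoeff_ne_zero.mpr hb
        rw [leadingCoeff, coeff_sw] at h3
        by_contra h4
        exact h3 (hF' _ _ (by omega)))) hΨ
  rw [hg] at h0
  exact sw_inj _ (inv_inj _ _ _ (sw_inj _ (trX_inj _ _ (sw_inj _ (trX_inj _ _ h0)))))

theorem unfirstM {E P ρ : ℕ} {J : Multiset ℕ} (h : BM (Dsp E E) (J + {P}) ρ) :
    BM (Sp (E - P) E) J ρ := by
  classical
  obtain ⟨ι, _, m, hm⟩ := exists_index J
  have h1 := h.use (ι := Option ι) (fun o => o.elim P m) (by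
    rw [Fintype.sum_option, add_comm]
    exact congrArg (· + {P}) hm)
  rw [← insert_erase (mem_univ (none : Option ι))] at h1
  obtain ⟨p, Ψ, h2⟩ := unfirst (notMem_erase none univ) h1
  refine ⟨ι, inferInstance, m, hm, fun j => p (some j), Ψ, fun F hF hV hΨ =>
    h2 F hF (fun j hj => ?_) hΨ⟩
  rcases j with _ | j
  · exact absurd hj (notMem_erase none univ)
  · exact hV j (mem_univ j)

end Pool.Agent.Lib.MP_6e81d8_ag.H22
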