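import Pool.Agent.Lib.MP_6e81d8_ag.H22.BMl
import Pool.Agent.Lib.MP_6e81d8_ag.H22.Unfirst

set_option autoImplicit false

namespace Pool.Agent.Lib.MP_6e81d8_ag.H22

open Polynomial Finset Module H36
open Multiset (replicate)

theorem collide_tri (P : ℕ) : tri (P + 1) = tri P + (P + 1) := rfl

theorem collide {E n a P : ℕ} {J : Multiset ℕ} (hn : 10 ^ 10 ≤ n) (ha : 1 ≤ a) (hE : P + 1 ≤ E)
    (h1 : tri P ≤ n * tri a) (h2 : n * tri a ≤ tri (P + 1))
    (g1 : BM (Dsp E E) (J + {P + 1}) 0)
    (g2 : BM (Dsp E E) (J + {P} + replicate (n * tri a - tri P) 1) 0) :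
    BM (Dsp E E) (J + replicate n a) 0 := by
  have e1 : E - (E - (P + 1) + 1) = P := by omega
  have e2 : E - (E - (P + 1)) = P + 1 := by omega
  have e3 : E - (P + 1) + 1 = E - P := by omega
  have t := collide_tri P
  have b0 := base_exact hn ha P
  rw [Nat.sub_eq_zero_of_le h1] at b0
  rw [add_comm]
  refine linecut (k := E - (P + 1)) (ρ := tri (P + 1) - n * tri a) (ρ' := n * tri a - tri P)
    (by omega) (by omega) ?_ ?_ (unfirstM g1) ?_
  · rwa [e1]
  · rw [e2]
    exact base_exact hn ha (P + 1)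
  · rw [e3]
    exact unfirstM g2.of_extra

theorem collide_many {E n a P : ℕ} (hn : 10 ^ 10 ≤ n) (ha : 1 ≤ a) (hE : P + 1 ≤ E)
    (h1 : tri P ≤ n * tri a) (h2 : n * tri a ≤ tri (P + 1)) (r : ℕ) (J : Multiset ℕ)
    (g : ∀ r₁ r₂ : ℕ, r₁ + r₂ = r → BM (Dsp E E) (J + replicate r₁ P + replicate r₂ (P + 1) +
      replicate (r₁ * (n * tri a - tri P)) 1) 0) :
    BM (Dsp E E) (J + replicate (r * n) a) 0 := by
  induction r generalizing J with
  | zero => simpa using g 0 0 rfl
  | succ r ih =>
    rw [add_mul, one_mul, Multiset.replicate_add, ← add_assoc]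
    refine collide hn ha hE h1 h2 ?_ ?_
    · rw [add_right_comm]
      refine ih _ fun r₁ r₂ h => ?_
      have := g r₁ (r₂ + 1) (by omega)
      rw [Multiset.replicate_add, Multiset.replicate_one] at this
      convert this using 1
      abel
    · rw [add_right_comm J, add_right_comm]
      refine ih _ fun r₁ r₂ h => ?_
      have := g (r₁ + 1) r₂ (by omega)
      rw [add_mul, one_mul, Multiset.replicate_add, Multiset.replicate_add,
        Multiset.replicate_one] at this
      convert this using 1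
      abel

end Pool.Agent.Lib.MP_6e81d8_ag.H22
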