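import Pool.Agent.Lib.MP_6e81d8_ag.H22.Defs8
import Pool.Agent.Lib.MP_6e81d8_ag.H22.Unfirst

set_option autoImplicit false

namespace Pool.Agent.Lib.MP_6e81d8_ag.H22

open Polynomial Finset Module H36
open Multiset (replicate)

/-- Polynomials whose monomials lie in `D`. -/
def crMon (D : ℕ → ℕ → Prop) : Submodule ℂ R where
  carrier := {F | ∀ i j, ¬D i j → (F.coeff j).coeff i = 0}
  add_mem' hF hG i j h := by rw [coeff_add, coeff_add, hF i j h, hG i j h, add_zero]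
  zero_mem' _ _ _ := by rw [coeff_zero, coeff_zero]
  smul_mem' c F hF i j h := by rw [coeff_smul, coeff_smul, hF i j h, smul_zero]

section
variable {D D' : ℕ → ℕ → Prop} {T : Multiset ℕ} {ρ m : ℕ}

theorem cr_mem {F : R} : F ∈ crMon D ↔ ∀ i j, ¬D i j → (F.coeff j).coeff i = 0 := Iff.rfl

theorem cr_Dsp (d : ℕ) : Dsp (d + 1) (d + 1) = crMon fun i j => i + j ≤ d := by
  ext F
  rw [mem_Dsp_iff, cr_mem]
  exact ⟨fun h i j h1 => h i j (by omega), fun h i j h1 => h i j (by omega)⟩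

theorem cr_finite (B : ℕ) (hB : ∀ i j, D i j → i + j ≤ B) : FiniteDimensional ℂ (crMon D) :=
  Submodule.finiteDimensional_of_le (S₂ := Dsp (B + 1) (B + 1)) fun _ hF =>
    mem_Dsp_iff.2 fun i j h => hF i j fun h1 => by have := hB i j h1; omega

theorem cr_sw_mem (h : ∀ i j, D i j → D' j i) {F : R} (hF : F ∈ crMon D) : sw F ∈ crMon D' :=
  fun i j h1 => by rw [coeff_sw]; exact hF j i fun h2 => h1 (h j i h2)

theorem cr_trX_mem (h : ∀ i i' j, i ≤ i' → D i' j → D i j) {F : R} (hF : F ∈ crMon D) (β : ℂ) :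
    trX β F ∈ crMon D := fun i j h1 => by
  have h2 : F.coeff j ∈ lt i := mem_lt.2 fun i' hi => hF i' j fun h3 => h1 (h i i' j hi h3)
  rw [mem_lt_degree, ← degree_taylor _ β, ← mem_lt_degree, ← coeff_trX] at h2
  exact mem_lt.1 h2 i le_rfl

/-- A point is moved to the origin. -/
theorem cr_off (h1 : ∀ i i' j, i ≤ i' → D i' j → D i j) (h2 : ∀ i j j', j ≤ j' → D i j' → D i j)
    (h : BM (crMon D) ({m} + T) ρ) : BM (crMon fun i j => D i j ∧ m ≤ i + j) T ρ := by
  obtain ⟨ι, _, μ, hμ⟩ := exists_index T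
  obtain ⟨p, Ψ, h⟩ := h.use (ι := Option ι) (fun o => o.elim m μ) (by
    rw [Fintype.sum_option]
    exact congrArg ({m} + ·) hμ)
  let g : R →ₗ[ℂ] R := (trX (-(p none).1)).toLinearMap ∘ₗ sw.toLinearMap ∘ₗ
    (trX (-(p none).2)).toLinearMap ∘ₗ sw.toLinearMap
  have hg : ∀ F, g F = trX (-(p none).1) (sw (trX (-(p none).2) (sw F))) := fun F => rfl
  have htr : ∀ (ν : ℕ) (q : ℂ × ℂ) (F : R), Van ν (q.1 + -(p none).1, q.2 + -(p none).2) F →
      Van ν q (g F) := fun ν q F hq => van_trX (van_sw (van_trX (van_sw hq)))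
  refine ⟨ι, inferInstance, μ, hμ,
    fun j => ((p (some j)).1 + -(p none).1, (p (some j)).2 + -(p none).2), Ψ ∘ₗ g,
    fun F hF hV hΨ => ?_⟩
  have h0 := h (g F) (cr_trX_mem h1 (cr_sw_mem (D := fun j i => D i j) (fun _ _ => id)
    (cr_trX_mem (fun j j' i => h2 i j j') (cr_sw_mem (fun _ _ h => h.1) hF) _)) _)
    (fun o _ => htr _ _ _ (by
      rcases o with _ | j
      · simp only [add_neg_cancel]
        exact (van_zero_iff _ _).2 fun a b hab => hF a b fun h => absurd h.2 (not_le.2 hab)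
      · exact hV j (mem_univ j))) hΨ
  rw [hg] at h0
  exact sw_inj _ (trX_inj _ _ (sw_inj _ (trX_inj _ _ h0)))

/-- A new point is put at the origin. -/
theorem cr_on (h : BM (crMon fun i j => D i j ∧ m ≤ i + j) T ρ) : BM (crMon D) ({m} + T) ρ := by
  obtain ⟨ι, _, μ, hμ, p, Ψ, h⟩ := h
  refine ⟨Option ι, inferInstance, fun o => o.elim m μ, by
    rw [Fintype.sum_option]
    exact congrArg ({m} + ·) hμ, fun o => o.elim (0, 0) p, Ψ, fun F hF hV hΨ =>
      h F (fun i j h1 => ?_) (fun j _ => hV (some j) (mem_univ _)) hΨ⟩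
  by_cases h2 : D i j
  · exact (van_zero_iff m F).1 (hV none (mem_univ _)) i j (not_le.1 fun h3 => h1 ⟨h2, h3⟩)
  · exact hF i j h2

theorem cr_sw (hD : ∀ i j, D i j → D' j i) (h : BM (crMon D') T ρ) : BM (crMon D) T ρ := by
  obtain ⟨ι, _, μ, hμ, h⟩ := h
  exact ⟨ι, inferInstance, μ, hμ, Bd.of_map sw.toLinearMap (fun p => (p.2, p.1))
    (fun F hF => cr_sw_mem hD hF) (fun F _ => sw_inj F) (fun _ _ _ _ => van_sw) h⟩

theorem cr_inv (σ N B : ℕ) (hB : ∀ i j, D' i j → i + j ≤ B)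
    (hD : ∀ i j, D i j → i + σ * j ≤ N ∧ D' (N - σ * j - i) j) (h : BM (crMon D') T ρ) :
    BM (crMon D) T ρ := by
  obtain ⟨ι, _, μ, hμ, h⟩ := h
  have := cr_finite B hB
  refine ⟨ι, inferInstance, μ, hμ, Bd.of_map_ne (E' := crMon D') (inv σ N)
    (fun p => (p.1⁻¹, p.2 * p.1⁻¹ ^ σ))
    (fun F hF i j h1 => ?_) (fun F _ => inv_inj σ N F)
    (fun ν p hp F hF hV => van_inv hp (fun b hb => ?_) hV) h⟩
  · rw [coeff_inv, coeff_reflect]
    refine hF _ _ fun h2 => ?_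
    obtain ⟨h3, h4⟩ := hD _ _ h2
    by_cases h5 : i ≤ N - σ * j
    · rw [revAt_le h5, Nat.sub_sub_self h5] at h4
      exact h1 h4
    · rw [revAt_eq_self_of_lt (not_le.1 h5)] at h3
      omega
  · by_contra h1
    exact leadingCoeff_ne_zero.2 hb (hF _ _ fun h2 => h1 (hD _ _ h2).1)

theorem cr_inv' (σ N B : ℕ) (hB : ∀ i j, D' i j → i + j ≤ B)
    (hD : ∀ i j, D i j → j + σ * i ≤ N ∧ D' i (N - σ * i - j)) (h : BM (crMon D') T ρ) :
    BM (crMon D) T ρ :=
  cr_sw (D' := fun j i => D i j) (fun _ _ => id)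
    (cr_inv (D' := fun j i => D' i j) σ N B (fun j i h => add_comm i j ▸ hB i j h)
      (fun j i => hD i j) (cr_sw (fun _ _ => id) h))

/-- The hexagon of three points. -/
def crHex (d a b c i j : ℕ) : Prop := (i + b ≤ d ∧ j + c ≤ d ∧ i + j ≤ d) ∧ a ≤ i + j

theorem cr_to {d a b c : ℕ} (h : BM (Dsp (d + 1) (d + 1)) ({a} + {b} + {c} + T) ρ) :
    BM (crMon (crHex d a b c)) T ρ := by
  rw [cr_Dsp, show ({a} + {b} + {c} + T : Multiset ℕ) = {b} + ({c} + ({a} + T)) by ac_rfl] at h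
  have h1 := cr_off (by omega) (by omega) h
  have h2 := cr_inv (D := fun i j => i + b ≤ d ∧ i + j ≤ d) 1 d d (by omega) (by omega) h1
  have h3 := cr_off (by omega) (by omega) h2
  have h4 := cr_inv' (D := fun i j => i + b ≤ d ∧ j + c ≤ d ∧ i + j ≤ d) 1 d d (by omega)
    (by omega) h3
  exact cr_off (by omega) (by omega) h4

theorem cr_from {d a b c : ℕ} (h : BM (crMon (crHex d a b c)) T ρ) :
    BM (Dsp (d + 1) (d + 1)) ({a} + {b} + {c} + T) ρ := by
  rw [cr_Dsp, show ({a} + {b} + {c} + T : Multiset ℕ) = {b} + ({c} + ({a} + T)) by ac_rfl]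
  have h1 := cr_on (D := fun i j => i + b ≤ d ∧ j + c ≤ d ∧ i + j ≤ d) h
  have h2 := cr_inv' (D := fun i j => (i + b ≤ d ∧ i + j ≤ d) ∧ c ≤ i + j) 1 d d (by omega)
    (by omega) h1
  have h3 := cr_inv (D := fun i j => i + j ≤ d ∧ b ≤ i + j) 1 d d (by omega) (by omega) (cr_on h2)
  exact cr_on h3

end

theorem cremonaM {d d' a b c a' b' c' ρ : ℕ} {T : Multiset ℕ} (hd : d' + a + b + c = 2 * d)
    (ha : a' + b + c = d) (hb : b' + a + c = d) (hc : c' + a + b = d)
    (h : BM (Dsp (d + 1) (d + 1)) ({a} + {b} + {c} + T) ρ) :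
    BM (Dsp (d' + 1) (d' + 1)) ({a'} + {b'} + {c'} + T) ρ := by
  have h1 := cr_inv (D := fun i j => i ≤ d - b ∧ crHex d a b c (d - b - i) j) 0 (d - b) d
    (fun _ _ h => h.1.2.2) (fun i j h => by simpa using h) (cr_to h)
  refine cr_from (cr_inv' 0 (d - c) (2 * d) ?_ ?_ h1) <;> unfold crHex <;> omega

theorem Eqv.crem {d d' a b c a' b' c' : ℕ} (U : Multiset ℕ) (hd : d' + a + b + c = 2 * d)
    (ha : a' + b + c = d) (hb : b' + a + c = d) (hc : c' + a + b = d) :
    Eqv d ({a} + {b} + {c} + U) d' ({a'} + {b'} + {c'} + U) := by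
  refine ⟨fun T ρ => ?_, ?_⟩
  · rw [add_assoc _ U, add_assoc _ U]
    exact ⟨cremonaM hd ha hb hc, cremonaM (by omega) (by omega) (by omega) (by omega)⟩
  · simp only [mm_add, mm_singleton]
    have h1 := two_tri (d + 1)
    have h2 := two_tri (d' + 1)
    have h3 := two_tri a
    have h4 := two_tri b
    have h5 := two_tri c
    have h6 := two_tri a'
    have h7 := two_tri b'
    have h8 := two_tri c'
    zify at *
    have e0 : (d' : ℤ) = 2 * d - a - b - c := by linarith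
    have e1 : (a' : ℤ) = d - b - c := by linarith
    have e2 : (b' : ℤ) = d - a - c := by linarith
    have e3 : (c' : ℤ) = d - a - b := by linarith
    rw [e0] at h2
    rw [e1] at h6
    rw [e2] at h7
    rw [e3] at h8
    linarith

end Pool.Agent.Lib.MP_6e81d8_ag.H22
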