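import Pool.Agent.Lib.MP_6e81d8_ag.H36.Final

/-!
Systems of points described by the multiset of their multiplicities or loads.
-/

set_option autoImplicit false

namespace Pool.Agent.Lib.MP_6e81d8_ag.H22

open Polynomial Finset Module H36
open Multiset (replicate)

/-- The number of conditions imposed by points with the multiplicities `T`. -/
def mm (T : Multiset ℕ) : ℕ := (T.map tri).sum

@[simp] theorem mm_zero : mm 0 = 0 := rfl
@[simp] theorem mm_add (S T : Multiset ℕ) : mm (S + T) = mm S + mm T := by simp [mm]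
@[simp] theorem mm_singleton (a : ℕ) : mm {a} = tri a := by simp [mm]
@[simp] theorem mm_replicate (n a : ℕ) : mm (replicate n a) = n * tri a := by simp [mm]
theorem tri_one : tri 1 = 1 := rfl

theorem mm_sum {ι : Type} [Fintype ι] (m : ι → ℕ) :
    mm (∑ i, ({m i} : Multiset ℕ)) = mass m univ := by
  classical
  unfold mass
  induction (univ : Finset ι) using Finset.induction_on with
  | empty => simp
  | insert i s hi ih => rw [sum_insert hi, sum_insert hi, mm_add, ih, mm_singleton]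

/-- The statement `Bd` for points with the multiplicities `T`. -/
def BM (E : Submodule ℂ R) (T : Multiset ℕ) (ρ : ℕ) : Prop :=
  ∃ (ι : Type) (_ : Fintype ι) (m : ι → ℕ), ∑ i, ({m i} : Multiset ℕ) = T ∧ Bd m E univ ρ

/-- The first `k` rows of the triangle of side `E`. -/
noncomputable def Sp (k E : ℕ) : Submodule ℂ R := rows fun b => lt (tr k (fun t => E - t) b)

/-- The statement `GE` for places with the loads and flags `s`. -/
def GM (D : ℕ → ℕ → Prop) (s : Multiset ((ℕ → ℕ) × Bool)) : Prop :=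
  ∃ (ι : Type) (_ : Fintype ι) (φ : ι → ℕ → ℕ) (J : ι → Bool),
    ∑ i, ({(φ i, J i)} : Multiset ((ℕ → ℕ) × Bool)) = s ∧ GE D φ J

/-- A load cut out by one line. -/
def Node (ψ : ℕ → ℕ) : Prop := ∃ A E θ : ℕ, ∀ s k, s < ψ k ↔ A * s + E * k < θ

/-- The places `t` can be moved to one node of slope `κ` and size `z`. -/
def Pack (H : ℕ) (κ z : ℝ) (t : Multiset ((ℕ → ℕ) × Bool)) : Prop :=
  ∃ ψ : ℕ → ℕ, Node ψ ∧ (∀ k : ℕ, z - κ * k ≤ ψ k) ∧ GM (fun s k => k < H ∧ s < ψ k) t

/-- The bubble theorem for the load `φ₀` of average `M`, with nodes. -/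
def BubE (H P : ℕ) (φ₀ : ℕ → ℕ) (M : ℝ) : Prop :=
  ∀ Q : ℕ, P + Q = H → ∀ (J A B g e : ℕ) (κ σ a z : ℝ) (ψ : ℕ → ℕ), Cap P Q J A B g e κ σ →
    ∀ D : ℕ → ℕ → Prop, H88.Bdd D → (∀ s k, D s k → k < H ∧ (s : ℝ) + κ * k ≤ a) →
    (∀ k < H, z - σ * k ≤ ψ k) →
    a + g * H / (2 * P) < κ * (H - 1) / 2 + J * M + (A + B + g) * (H - 1) / 2 +
      e * (z - σ * (H - 1) / 2) →
    GM D (replicate J (φ₀, false) + replicate (A + B + g) (fun k => H - 1 - k, true) +
      replicate e (ψ, false))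

theorem exists_equiv {α ι κ : Type} [Fintype ι] [Fintype κ] (f : ι → α) (g : κ → α)
    (h : ∑ i, ({f i} : Multiset α) = ∑ j, ({g j} : Multiset α)) :
    ∃ e : ι ≃ κ, ∀ i, g (e i) = f i := by
  classical
  have hc : ∀ c, Fintype.card {i // f i = c} = Fintype.card {j // g j = c} := fun c => by
    have := congrArg (Multiset.count c) h
    simp only [Multiset.count_sum', Multiset.count_singleton, eq_comm (a := c)] at this
    rw [Fintype.card_subtype, Fintype.card_subtype, card_filter, card_filter, this]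
  exact ⟨Equiv.ofFiberEquiv fun c => Fintype.equivOfCardEq (hc c),
    fun i => Equiv.ofFiberEquiv_map _ i⟩

theorem exists_index {α : Type} (T : Multiset α) :
    ∃ (ι : Type) (_ : Fintype ι) (m : ι → α), ∑ i, ({m i} : Multiset α) = T := by
  induction T using Multiset.induction_on with
  | empty => exact ⟨Empty, inferInstance, Empty.elim, by simp⟩
  | cons a T ih =>
    obtain ⟨ι, _, m, hm⟩ := ih
    exact ⟨Unit ⊕ ι, inferInstance, Sum.elim (fun _ => a) m, by
      simp [Fintype.sum_sum_type, hm]⟩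

theorem sum_replicate {α : Type} (n : ℕ) (a : α) :
    ∑ _i : Fin n, ({a} : Multiset α) = replicate n a := by
  simp [Multiset.nsmul_singleton]

theorem BM.use {E : Submodule ℂ R} {T : Multiset ℕ} {ρ : ℕ} (h : BM E T ρ) {ι : Type} [Fintype ι]
    (m : ι → ℕ) (hm : ∑ i, ({m i} : Multiset ℕ) = T) : Bd m E univ ρ := by
  obtain ⟨κ, _, m', hm', p, Ψ, h⟩ := h
  obtain ⟨e, he⟩ := exists_equiv m m' (hm.trans hm'.symm)
  refine ⟨fun i => p (e i), Ψ, fun F hF hV hΨ => h F hF (fun j _ => ?_) hΨ⟩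
  have := hV (e.symm j) (mem_univ _)
  rw [← he] at this
  simpa only [e.apply_symm_apply] using this

theorem GM.use {D : ℕ → ℕ → Prop} {s : Multiset ((ℕ → ℕ) × Bool)} (h : GM D s) {ι : Type}
    [Fintype ι] (φ : ι → ℕ → ℕ) (J : ι → Bool)
    (hs : ∑ i, ({(φ i, J i)} : Multiset ((ℕ → ℕ) × Bool)) = s) : GE D φ J := by
  obtain ⟨κ, _, φ', J', hs', a, b, hb, h⟩ := h
  obtain ⟨e, he⟩ := exists_equiv (fun i => (φ i, J i)) (fun j => (φ' j, J' j)) (hs.trans hs'.symm)
  refine ⟨fun i => a (e i), fun i => b (e i), fun i hi => hb _ ?_, fun f hf hc => h f hf fun j => ?_⟩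
  · rw [← hi]; exact congrArg Prod.snd (he i)
  · have := hc (e.symm j)
    have h1 : φ' (e (e.symm j)) = φ (e.symm j) := congrArg Prod.fst (he (e.symm j))
    rw [← h1] at this
    simpa only [e.apply_symm_apply] using this

end Pool.Agent.Lib.MP_6e81d8_ag.H22
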