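import Pool.Agent.Lib.MP_6e81d8_ag.H22.Defs

set_option autoImplicit false

namespace Pool.Agent.Lib.MP_6e81d8_ag.H22

open Polynomial Finset Module H36
open Multiset (replicate)

/-- The rectangle with `k` rows of length `W`. -/
noncomputable def Rc (k W : ℕ) : Submodule ℂ R := rows fun b => lt (tr k (fun _ => W) b)

/-- A way to cut up to `K` rows of lengths `l` off the plane system of degree `E - 1`; the special
points `Pl 0` become `Pl k` after `k` rows. -/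
structure CutSys (E W K : ℕ) (Pl : ℕ → Multiset ℕ) (St : ℕ → Submodule ℂ R) (l : ℕ → ℕ) :
    Prop where
  lo : ∀ k, W ≤ l k + k
  hi : ∀ k, l k ≤ W
  area : ∀ k ≤ K, tri E + mm (Pl k) = ∑ t ∈ range k, l t + tri (E - k) + mm (Pl 0)
  cut : ∀ (k ρ ρ' : ℕ) (I J : Multiset ℕ), k + 1 ≤ K → ρ + ρ' ≤ l k →
    BM (Dsp (E - (k + 1)) (E - (k + 1))) (Pl (k + 1) + I) 0 →
    BM (Dsp (E - k) (E - k)) (Pl k + I) ρ → BM (St k) J 0 → BM (St (k + 1)) J ρ' →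
    BM (Dsp E E) (Pl 0 + I + J) 0
  plus : ∀ H ≤ K, ∀ U T : Multiset ℕ,
    (∀ s ∈ U, 2000 ≤ s ∧ 248 * s ≤ 100 * H ∧ 100 * H ≤ 259 * s) → (∀ w ∈ T, 0 < w ∧ w < H) →
    #T.toFinset + 2 ≤ U.card → ∑ t ∈ range H, l t + 18 * U.card * H ≤ mm (57 • U + T) →
    BM (St H) (57 • U + T) 0
  minus : ∀ H ≤ K, ∀ U T : Multiset ℕ,
    (∀ s ∈ U, 2000 ≤ s ∧ 248 * s ≤ 100 * H ∧ 100 * H ≤ 259 * s) → (∀ w ∈ T, 0 < w ∧ w < H) →
    #T.toFinset + 2 ≤ U.card → mm (57 • U + T) + 18 * U.card * H ≤ ∑ t ∈ range H, l t →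
    BM (St H) (57 • U + T) (∑ t ∈ range H, l t - mm (57 • U + T))

end Pool.Agent.Lib.MP_6e81d8_ag.H22
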