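import Pool.Agent.Lib.MP_6e81d8_ag.H22.Defs3

set_option autoImplicit false

namespace Pool.Agent.Lib.MP_6e81d8_ag.H22

open Polynomial Finset Module H36
open Multiset (replicate)

/-- The classes `(d; B)` and `(d'; B')` behave alike with any further points. -/
def Eqv (d : ℕ) (B : Multiset ℕ) (d' : ℕ) (B' : Multiset ℕ) : Prop :=
  (∀ (T : Multiset ℕ) (ρ : ℕ),
    BM (Dsp (d + 1) (d + 1)) (B + T) ρ ↔ BM (Dsp (d' + 1) (d' + 1)) (B' + T) ρ) ∧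
  tri (d + 1) + mm B' = tri (d' + 1) + mm B

theorem Eqv.refl (d : ℕ) (B : Multiset ℕ) : Eqv d B d B := ⟨fun _ _ => Iff.rfl, rfl⟩

theorem Eqv.symm {d d' : ℕ} {B B' : Multiset ℕ} (h : Eqv d B d' B') : Eqv d' B' d B :=
  ⟨fun T ρ => (h.1 T ρ).symm, h.2.symm⟩

theorem Eqv.trans {d d' d'' : ℕ} {B B' B'' : Multiset ℕ} (h : Eqv d B d' B')
    (h' : Eqv d' B' d'' B'') : Eqv d B d'' B'' :=
  ⟨fun T ρ => (h.1 T ρ).trans (h'.1 T ρ), by have := h.2; have := h'.2; omega⟩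

/-- The degree of the standard class with coefficients `a0, …, a8`. -/
def dg (a0 a1 a2 a3 a4 a5 a6 a7 a8 : ℕ) : ℕ := a0 + a1 + 2 * a2 + 3 * (a3 + a4 + a5 + a6 + a7 + a8)

/-- The multiplicities of the standard class with coefficients `a1, …, a8`. -/
def Bg (a1 a2 a3 a4 a5 a6 a7 a8 : ℕ) : Multiset ℕ :=
  {a1 + a2 + a3 + a4 + a5 + a6 + a7 + a8} + {a2 + a3 + a4 + a5 + a6 + a7 + a8} +
    {a3 + a4 + a5 + a6 + a7 + a8} + {a4 + a5 + a6 + a7 + a8} + {a5 + a6 + a7 + a8} +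
    {a6 + a7 + a8} + {a7 + a8} + {a8}

/-- The classes `(D k; B k)`, `k ≤ K`, arise from the first one by removing `k` times a pencil of
rational curves of degree at least `s` on it. -/
def Move (K s : ℕ) (D : ℕ → ℕ) (B : ℕ → Multiset ℕ) : Prop :=
  ∃ (d m : ℕ) (B' : Multiset ℕ), K ≤ m ∧ m + s ≤ d ∧
    ∀ k ≤ K, Eqv (D k) (B k) (d - k) ({m - k} + B')

end Pool.Agent.Lib.MP_6e81d8_ag.H22
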