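import Pool.Agent.Lib.MP_6e81d8_ag.H22.Defs3
import Pool.Agent.Lib.MP_6e81d8_ag.H22.BMl
import Pool.Agent.Lib.MP_6e81d8_ag.H22.Unfirst

set_option autoImplicit false

namespace Pool.Agent.Lib.MP_6e81d8_ag.H22

open Polynomial Finset Module H36
open Multiset (replicate)

theorem fb_dsp {W E ρ : ℕ} {T : Multiset ℕ} (h : BM (Sp W E) T ρ) : BM (Dsp W E) T ρ := by
  obtain ⟨ι, _, μ, hμ, h⟩ := h
  refine ⟨ι, inferInstance, μ, hμ, Bd.of_map sw.toLinearMap (fun p => (p.2, p.1))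
    (fun F hF => mem_rows.mpr fun b => mem_lt.mpr fun a ha => ?_) (fun F _ => sw_inj F)
    (fun ν p F _ => van_sw) h⟩
  refine (coeff_sw F b a).trans (mem_lt.mp (mem_rows.mp hF a) b ?_)
  unfold tr at ha
  beta_reduce at ha
  split_ifs at ha <;> omega

theorem fb_first {E m ρ : ℕ} {J : Multiset ℕ} (h : BM (Dsp (E - m) E) J ρ) :
    BM (Dsp E E) ({m} + J) ρ := by
  classical
  rcases E with _ | d
  · rw [Nat.zero_sub] at h
    exact h.mono le_rfl (Multiset.le_add_left _ _)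
  obtain ⟨ι, _, μ, hμ, p, Ψ, h⟩ := h
  refine ⟨Option ι, inferInstance, fun o => o.elim m μ, by
    rw [Fintype.sum_option]
    exact congrArg ({m} + ·) hμ, ?_⟩
  rw [← insert_erase (mem_univ (none : Option ι))]
  exact bd_first (notMem_erase none univ) ⟨fun o => o.elim 0 p, Ψ, fun F hF hV hΨ =>
    h F hF (fun i _ => hV (some i) (by simp)) hΨ⟩

theorem firstM {E m ρ : ℕ} {J : Multiset ℕ} (h : BM (Sp (E - m) E) J ρ) :
    BM (Dsp E E) ({m} + J) ρ :=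
  fb_first (fb_dsp h)

theorem fb_div {W E : ℕ} {F : R} (hF : F ∈ Dsp W E) (j : ℕ) (h0 : ∀ c < j, F.coeff c = 0) :
    ∃ G ∈ Dsp W (E - j), F = X ^ j * G := by
  obtain ⟨G, rfl⟩ := X_pow_dvd_iff.mpr h0
  refine ⟨G, mem_rows.mpr fun b => ?_, rfl⟩
  have := mem_rows.mp hF (b + j)
  rwa [coeff_X_pow_mul, add_comm b j, ← Nat.sub_sub] at this

theorem fb_cut {ι : Type} [DecidableEq ι] {μ : ι → ℕ} {W E k : ℕ} {I J : Finset ι}
    (hIJ : Disjoint I J) {ρ ρ' : ℕ} (hρ : ρ + ρ' ≤ W)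
    (hI0 : Bd μ (Dsp W (E - (k + 1))) I 0) (hI1 : Bd μ (Dsp W (E - k)) I ρ)
    (hJ0 : Good μ (tr k fun _ => W) J 0) (hJ1 : Good μ (tr (k + 1) fun _ => W) J ρ') :
    Bd μ (Dsp W E) (I ∪ J) 0 := by
  have hJ := transversal (σ := 0) (lam := W) (fun b _ => by simp) hρ hJ0 hJ1
  obtain ⟨Δ₀, hΔ₀, Ψ₀, h0⟩ := hI0.generic
  obtain ⟨Δ₁, hΔ₁, Ψ₁, h1⟩ := hI1.generic
  obtain ⟨q, hq⟩ := exists_eval_ne (Δ₀ * Δ₁ * ∏ i ∈ I, MvPolynomial.X (i, 1))
    (mul_ne_zero (mul_ne_zero hΔ₀ hΔ₁)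
      (Finset.prod_ne_zero_iff.mpr fun i _ => MvPolynomial.X_ne_zero _))
  rw [map_mul, map_mul, map_prod] at hq
  replace h0 := h0 q (left_ne_zero_of_mul (left_ne_zero_of_mul hq))
  replace h1 := h1 q (right_ne_zero_of_mul (left_ne_zero_of_mul hq))
  have h2 := Finset.prod_ne_zero_iff.mp (right_ne_zero_of_mul hq)
  obtain ⟨p, hp⟩ : ∃ p : ι → ℂ × ℂ, ∀ i, (q (i, 0), q (i, 1)) = p i := ⟨_, fun _ => rfl⟩
  simp only [hp] at h0 h1
  have hvan : ∀ j (G : R), (∀ i ∈ I, Van (μ i) (p i) (X ^ j * G)) →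
      ∀ i ∈ I, Van (μ i) (p i) G := by
    intro j G h i hi
    refine van_cancel ?_ (h i hi)
    rw [map_pow]
    refine pow_ne_zero _ ?_
    rw [← hp i]
    simpa using h2 i hi
  let V : Submodule ℂ R := Dsp W (E - k) ⊓ sol μ I p
  have hV : finrank ℂ V ≤ ρ := by
    have : Function.Injective (Ψ₁ ∘ₗ V.subtype) := by
      rw [injective_iff_map_eq_zero]
      intro F hF
      exact Subtype.ext (h1 F F.2.1 (mem_sol.mp F.2.2) hF)
    simpa using LinearMap.finrank_le_finrank_of_injective this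
  let U : ℕ → Submodule ℂ ℂ[X] := fun b =>
    if b = k then V.map (cf 0) else lt (tr k (fun _ => W) b)
  have hUk : U k = V.map (cf 0) := if_pos rfl
  have hU' : ∀ b, b ≠ k → U b = lt (tr k (fun _ => W) b) := fun b hb => if_neg hb
  have hU : ∀ b, FiniteDimensional ℂ (U b) := fun b => by
    by_cases hb : b = k
    · rw [hb, hUk]; infer_instance
    · rw [hU' b hb]; infer_instance
  refine cut _ k hIJ p U (fun b hb F hF _ => ?_) (fun F hF h hv => ?_) (fun F hF h hv => ?_)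
    (hJ.rows U hU (fun b => ?_) (k + 1) fun b hb => ?_)
  · rw [hU' b (by omega), tr, if_pos hb]
    exact mem_lt.mpr fun a ha => mem_lt.mp (mem_rows.mp hF b) a ((min_le_left _ _).trans ha)
  · obtain ⟨G, hG, rfl⟩ := fb_div hF k h
    rw [hUk]
    refine ⟨G, ⟨hG, mem_sol.mpr (hvan k G hv)⟩, ?_⟩
    have := coeff_X_pow_mul G k 0
    rw [zero_add] at this
    exact this.symm
  · obtain ⟨G, hG, rfl⟩ := fb_div hF (k + 1) h
    rw [h0 G hG (hvan _ G hv) (Subsingleton.elim _ _), mul_zero]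
  · by_cases hb : b = k
    · rw [if_pos hb, hb, hUk]
      exact (Submodule.finrank_map_le _ _).trans hV
    · rw [if_neg hb, hU' b hb]
      exact (finrank_supp _).trans (card_range _).le
  · rw [if_neg (by omega), tr_of_le _ (by omega)]

theorem fibrecut {E m k ρ ρ' : ℕ} {I J : Multiset ℕ} (hk : k + 1 ≤ m) (hm : m ≤ E)
    (hρ : ρ + ρ' ≤ E - m)
    (hI0 : BM (Dsp (E - (k + 1)) (E - (k + 1))) ({m - (k + 1)} + I) 0)
    (hI1 : BM (Dsp (E - k) (E - k)) ({m - k} + I) ρ)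
    (hJ0 : BM (Rc k (E - m)) J 0) (hJ1 : BM (Rc (k + 1) (E - m)) J ρ') :
    BM (Dsp E E) ({m} + I + J) 0 := by
  classical
  rw [add_comm _ I] at hI0 hI1
  have g0 := fb_dsp (unfirstM hI0)
  have g1 := fb_dsp (unfirstM hI1)
  rw [show E - (k + 1) - (m - (k + 1)) = E - m by omega] at g0
  rw [show E - k - (m - k) = E - m by omega] at g1
  rw [add_assoc]
  refine fb_first ?_
  obtain ⟨ι, _, μ, hμ⟩ := exists_index I
  obtain ⟨κ, _, μ', hμ'⟩ := exists_index J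
  refine ⟨ι ⊕ κ, inferInstance, Sum.elim μ μ', by rw [sum_elim_index, hμ, hμ'], ?_⟩
  have h := fb_cut (μ := Sum.elim μ μ') (E := E) (k := k) (I := univ.disjSum ∅)
    (J := (∅ : Finset ι).disjSum univ)
    (by
      rw [Finset.disjoint_left]
      rintro (i | j) h1 h2
      · simp at h2
      · simp at h1)
    hρ (bd_inl μ' (g0.use μ hμ) ∅) (bd_inl μ' (g1.use μ hμ) ∅)
    (bd_inr μ (hJ0.use μ' hμ') ∅) (bd_inr μ (hJ1.use μ' hμ') ∅)
  exact Bd.mono le_rfl (subset_univ _) h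

end Pool.Agent.Lib.MP_6e81d8_ag.H22
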