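import Pool.Agent.Lib.MP_6e81d8_ag.H22.MixCore

set_option autoImplicit false

namespace Pool.Agent.Lib.MP_6e81d8_ag.H22

open Polynomial Finset Module H36
open Multiset (replicate)

theorem mix_tri {H E : ℕ} (hE : H ≤ E) :
    ∑ t ∈ range H, (E - t) + tri (E - H) = tri E := by
  induction H with
  | zero => simp
  | succ H ih =>
    have h1 := ih (by omega)
    have h2 : E - H = (E - (H + 1)) + 1 := by omega
    have h3 : tri (E - H) = tri (E - (H + 1)) + (E - H) := by
      rw [h2, tri]
    rw [sum_range_succ]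
    omega

theorem mix_tri_real {H E : ℕ} (hE : H ≤ E) :
    (2 * tri E : ℝ) = 2 * tri (E - H) + H * (2 * E - (H - 1)) := by
  have h1 : (2 * tri E : ℝ) = E * (E + 1) := by exact_mod_cast two_tri E
  have h2 : (2 * tri (E - H) : ℝ) = (E - H : ℕ) * ((E - H : ℕ) + 1) := by
    exact_mod_cast two_tri (E - H)
  rw [h1, h2, Nat.cast_sub hE]
  ring

theorem mix_avg (H w : ℕ) : (w : ℝ) * (w + 1) / (2 * H) = tri w / H := by
  have h1 : (2 * tri w : ℝ) = w * (w + 1) := by exact_mod_cast two_tri w
  rw [← h1, mul_div_mul_left _ _ (two_ne_zero)]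

theorem mix_sum_plus (H : ℕ) (T : Multiset ℕ) :
    (T.map fun w : ℕ => (w : ℝ) * (w + 1) / (2 * H)).sum = mm T / H := by
  induction T using Multiset.induction_on with
  | empty => simp
  | cons a T ih =>
    rw [Multiset.map_cons, Multiset.sum_cons, ih, ← Multiset.singleton_add, mm_add, mm_singleton,
      mix_avg]
    push_cast
    ring

theorem mix_sum_minus (H : ℕ) (T : Multiset ℕ) :
    (T.map fun w : ℕ => (w : ℝ) - (w : ℝ) * (w + 1) / (2 * H)).sum = T.sum - mm T / H := by
  induction T using Multiset.induction_on with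
  | empty => simp
  | cons a T ih =>
    rw [Multiset.map_cons, Multiset.sum_cons, ih, Multiset.sum_cons, ← Multiset.singleton_add,
      mm_add, mm_singleton, mix_avg]
    push_cast
    ring

theorem mix_total {ι : Type} [Fintype ι] (m : ι → ℕ) :
    (∑ i, ({m i} : Multiset ℕ)).sum = ∑ i, m i := by
  classical
  induction (univ : Finset ι) using Finset.induction_on with
  | empty => simp
  | insert i s hi ih => rw [sum_insert hi, sum_insert hi, Multiset.sum_add, ih]; simp

theorem mix_plus {P H E N : ℕ} (hP : 2000 ≤ P) (w1 : 248 * P ≤ 100 * H) (w2 : 100 * H ≤ 259 * P)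
    (hE : H ≤ E) (T : Multiset ℕ) (hT : ∀ w ∈ T, 0 < w ∧ w < H) (hN : 75 + 61 * #T.toFinset ≤ N)
    (h : tri E + (24 + 18 * #T.toFinset) * H ≤ tri (E - H) + N * tri P + mm T) :
    BM (Sp H E) (replicate N P + T) 0 := by
  obtain ⟨ι, _, m, hm⟩ := exists_index (replicate N P + T)
  have hH : (0 : ℝ) < H := by exact_mod_cast (show 0 < H by omega)
  obtain ⟨a, b, -, hab⟩ := mix_core (lam := E) (fun w k => w - k)
    (fun w => (w : ℝ) * (w + 1) / (2 * H)) hP w1 w2 (fun w => bubE_plus H w)
    (fun w k => by omega) T hT hN (by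
      have h1 := mix_tri_real hE
      have h3 : (tri E + (24 + 18 * #T.toFinset) * H : ℝ) ≤ tri (E - H) + N * tri P + mm T := by
        exact_mod_cast h
      rw [mix_sum_plus, mix_avg, ← mul_div_assoc, ← add_div, le_div_iff₀ hH]
      linarith) m hm
  exact ⟨ι, inferInstance, m, hm, good_emp _ _
    ((hab.complex ⟨H + E, fun i k h => by omega⟩).mono (H := H)
      (fun _ _ h => h.1) (fun i k h => ⟨h.1, by omega⟩) fun _ _ _ => le_rfl)⟩

theorem mix_minus {P H E N : ℕ} (hP : 2000 ≤ P) (w1 : 248 * P ≤ 100 * H) (w2 : 100 * H ≤ 259 * P)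
    (hE : H ≤ E) (T : Multiset ℕ) (hT : ∀ w ∈ T, 0 < w ∧ w < H) (hN : 75 + 61 * #T.toFinset ≤ N)
    (h : tri (E - H) + N * tri P + mm T + (24 + 18 * #T.toFinset) * H ≤ tri E) :
    BM (Sp H E) (replicate N P + T) (tri E - (tri (E - H) + N * tri P + mm T)) := by
  obtain ⟨ι, _, m, hm⟩ := exists_index (replicate N P + T)
  have hH : (0 : ℝ) < H := by exact_mod_cast (show 0 < H by omega)
  have hmass : mass m univ = N * tri P + mm T := by rw [← mm_sum, hm, mm_add, mm_replicate]
  have htot : ∑ i, m i = N * P + T.sum := by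
    rw [← mix_total, hm, Multiset.sum_add, Multiset.sum_replicate, smul_eq_mul]
  have hle : ∀ j, m j ≤ H := fun j => by
    have hj : m j ∈ replicate N P + T := by
      rw [← hm]
      exact Multiset.mem_sum.2 ⟨j, mem_univ _, Multiset.mem_singleton_self _⟩
    rcases Multiset.mem_add.1 hj with h1 | h1
    · rw [Multiset.eq_of_mem_replicate h1]; omega
    · exact (hT _ h1).2.le
  have hρ : tri E - (tri (E - H) + N * tri P + mm T) =
      ∑ t ∈ range H, (E - t) - mass m univ := by
    have := mix_tri hE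
    omega
  refine ⟨ι, inferInstance, m, hm, ?_⟩
  rw [hρ]
  by_cases hc : E + 1 ≤ ∑ i, m i + H
  · obtain ⟨c, hc'⟩ := Nat.exists_eq_add_of_le hc
    obtain ⟨a, b, ha, hab⟩ := mix_core (lam := c) (fun w k => min w (H - 1 - k))
      (fun w => (w : ℝ) - (w : ℝ) * (w + 1) / (2 * H)) hP w1 w2 (fun w => bubE_minus H w)
      (fun w k => by omega) T hT hN (by
        have h1 := mix_tri_real hE
        have h3 : (tri (E - H) + N * tri P + mm T + (24 + 18 * #T.toFinset) * H : ℝ) ≤ tri E := by
          exact_mod_cast h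
        have h4 : (N * P + T.sum + H : ℝ) = E + 1 + c := by
          rw [htot] at hc'
          exact_mod_cast hc'
        have h5 : (N : ℝ) * (tri P / H) + mm T / H ≤
            E - (H - 1) / 2 - (24 + 18 * #T.toFinset) := by
          rw [← mul_div_assoc, ← add_div, div_le_iff₀ hH]
          linarith
        rw [mix_sum_minus, mix_avg]
        linarith) m hm
    obtain ⟨h', rfl⟩ : ∃ h', H = h' + 1 := ⟨H - 1, by omega⟩
    exact good_dual _ _ hle (fun i j hij => ha (by exact_mod_cast hij))
      ((hab.complex ⟨h' + 1 + c, fun i k h => by omega⟩).mono (H := h' + 1)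
        (fun _ _ h => h.1) (fun i k h => ⟨h.1, by omega⟩) fun _ _ _ => by simp)
  · obtain ⟨h', rfl⟩ : ∃ h', H = h' + 1 := ⟨H - 1, by omega⟩
    refine good_dual (x := fun j => ((Fintype.equivFin ι j : ℕ) : ℂ)) (c := fun _ => 0) _ _ hle
      (fun i j hij => (Fintype.equivFin ι).injective (Fin.ext (Nat.cast_injective (R := ℂ) hij)))
      fun f hf _ => ?_
    by_contra h0
    obtain ⟨i, k, hik⟩ := H88.exists_cf_ne_zero h0
    have := hf i k hik
    omega

end Pool.Agent.Lib.MP_6e81d8_ag.H22
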