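import Pool.Agent.Lib.MP_6e81d8_ag.H22.MixCore2
import Pool.Agent.Lib.MP_6e81d8_ag.H22.Mix

set_option autoImplicit false

namespace Pool.Agent.Lib.MP_6e81d8_ag.H22

open Polynomial Finset Module H36
open Multiset (replicate)

theorem mix2_pos {H : ℕ} {U T : Multiset ℕ}
    (hU : ∀ s ∈ U, 2000 ≤ s ∧ 248 * s ≤ 100 * H ∧ 100 * H ≤ 259 * s)
    (hc : #T.toFinset + 2 ≤ U.card) : 0 < H := by
  obtain ⟨s, hs⟩ := Multiset.card_pos_iff_exists_mem.1 (show 0 < U.card by omega)
  have := hU s hs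
  omega

theorem mix_plus2 {H E : ℕ} (hE : H ≤ E) (U T : Multiset ℕ)
    (hU : ∀ s ∈ U, 2000 ≤ s ∧ 248 * s ≤ 100 * H ∧ 100 * H ≤ 259 * s)
    (hT : ∀ w ∈ T, 0 < w ∧ w < H) (hc : #T.toFinset + 2 ≤ U.card)
    (h : tri E + 18 * U.card * H ≤ tri (E - H) + mm (57 • U + T)) :
    BM (Sp H E) (57 • U + T) 0 := by
  obtain ⟨ι, _, m, hm⟩ := exists_index (57 • U + T)
  have hH : (0 : ℝ) < H := by exact_mod_cast mix2_pos hU hc
  obtain ⟨a, b, -, hab⟩ := mix_core2 (lam := E) (fun w k => w - k)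
    (fun w => (w : ℝ) * (w + 1) / (2 * H)) (fun w => bubE_plus H w)
    (fun w k => by omega) U T hU hT hc (by
      have h1 := mix_tri_real hE
      have h3 : (tri E + 18 * U.card * H : ℝ) ≤ tri (E - H) + mm (57 • U + T) := by
        exact_mod_cast h
      rw [mix_sum_plus, le_div_iff₀ hH]
      linarith) m hm
  exact ⟨ι, inferInstance, m, hm, good_emp _ _
    ((hab.complex ⟨H + E, fun i k h => by omega⟩).mono (H := H)
      (fun _ _ h => h.1) (fun i k h => ⟨h.1, by omega⟩) fun _ _ _ => le_rfl)⟩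

theorem mix_minus2 {H E : ℕ} (hE : H ≤ E) (U T : Multiset ℕ)
    (hU : ∀ s ∈ U, 2000 ≤ s ∧ 248 * s ≤ 100 * H ∧ 100 * H ≤ 259 * s)
    (hT : ∀ w ∈ T, 0 < w ∧ w < H) (hc : #T.toFinset + 2 ≤ U.card)
    (h : tri (E - H) + mm (57 • U + T) + 18 * U.card * H ≤ tri E) :
    BM (Sp H E) (57 • U + T) (tri E - (tri (E - H) + mm (57 • U + T))) := by
  obtain ⟨ι, _, m, hm⟩ := exists_index (57 • U + T)
  have hH0 := mix2_pos hU hc
  have hH : (0 : ℝ) < H := by exact_mod_cast hH0
  have hmass : mass m univ = mm (57 • U + T) := by rw [← mm_sum, hm]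
  have htot : ∑ i, m i = (57 • U + T).sum := by rw [← mix_total, hm]
  have hle : ∀ j, m j ≤ H := fun j => by
    have hj : m j ∈ 57 • U + T := by
      rw [← hm]
      exact Multiset.mem_sum.2 ⟨j, mem_univ _, Multiset.mem_singleton_self _⟩
    rcases Multiset.mem_add.1 hj with h1 | h1
    · have := hU _ (Multiset.mem_of_mem_nsmul h1)
      omega
    · exact (hT _ h1).2.le
  have hρ : tri E - (tri (E - H) + mm (57 • U + T)) = ∑ t ∈ range H, (E - t) - mass m univ := by
    have := mix_tri hE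
    omega
  refine ⟨ι, inferInstance, m, hm, ?_⟩
  rw [hρ]
  by_cases hE' : E + 1 ≤ ∑ i, m i + H
  · obtain ⟨c, hc'⟩ := Nat.exists_eq_add_of_le hE'
    obtain ⟨a, b, ha, hab⟩ := mix_core2 (lam := c) (fun w k => min w (H - 1 - k))
      (fun w => (w : ℝ) - (w : ℝ) * (w + 1) / (2 * H)) (fun w => bubE_minus H w)
      (fun w k => by omega) U T hU hT hc (by
        have h1 := mix_tri_real hE
        have h3 : (tri (E - H) + mm (57 • U + T) + 18 * U.card * H : ℝ) ≤ tri E := by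
          exact_mod_cast h
        have h4 : (((57 • U + T).sum : ℕ) + H : ℝ) = E + 1 + c := by
          rw [htot] at hc'
          exact_mod_cast hc'
        have h5 : (mm (57 • U + T) : ℝ) / H ≤ E - (H - 1) / 2 - 18 * U.card := by
          rw [div_le_iff₀ hH]
          linarith
        rw [mix_sum_minus]
        linarith) m hm
    obtain ⟨h', rfl⟩ : ∃ h', H = h' + 1 := ⟨H - 1, by omega⟩
    exact good_dual _ _ hle (fun i j hij => ha (by exact_mod_cast hij))
      ((hab.complex ⟨h' + 1 + c, fun i k h => by omega⟩).mono (H := h' + 1)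
        (fun _ _ h => h.1) (fun i k h => ⟨h.1, by omega⟩) fun _ _ _ => by simp)
  · obtain ⟨h', rfl⟩ : ∃ h', H = h' + 1 := ⟨H - 1, by omega⟩
    refine good_dual (x := fun j => ((Fintype.equivFin ι j : ℕ) : ℂ)) (c := fun _ => 0) _ _ hle
      (fun i j hij => (Fintype.equivFin ι).injective (Fin.ext (Nat.cast_injective (R := ℂ) hij)))
      fun f hf _ => ?_
    by_contra h0
    obtain ⟨i, k, hik⟩ := H88.exists_cf_ne_zero h0
    have := hf i k hik
    omega

end Pool.Agent.Lib.MP_6e81d8_ag.H22
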