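import Pool.Agent.Lib.MP_6e81d8_ag.H22.Mix
import Pool.Agent.Lib.MP_6e81d8_ag.H22.BMl

set_option autoImplicit false

namespace Pool.Agent.Lib.MP_6e81d8_ag.H22

open Polynomial Finset Module H36
open Multiset (replicate)

theorem card_add_simple (T : Multiset ℕ) (z : ℕ) :
    #(T + replicate z 1).toFinset ≤ #T.toFinset + 1 := by
  rw [Multiset.toFinset_add]
  refine (card_union_le _ _).trans (Nat.add_le_add_left ?_ _)
  refine card_le_one.mpr fun a ha b hb => ?_
  rw [Multiset.mem_toFinset] at ha hb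
  rw [Multiset.eq_of_mem_replicate ha, Multiset.eq_of_mem_replicate hb]

theorem mem_add_simple {T : Multiset ℕ} {k H : ℕ} (z : ℕ) (hT : ∀ w ∈ T, 0 < w ∧ w < k)
    (hk : k ≤ H) (hH : 1 < H) : ∀ w ∈ T + replicate z 1, 0 < w ∧ w < H := by
  intro w hw
  rcases Multiset.mem_add.mp hw with h | h
  · have := hT w h
    omega
  · have := Multiset.eq_of_mem_replicate h
    omega

theorem strip_step {E P N G k₁ k₂ c L : ℕ} {T I : Multiset ℕ} (hP : 2000 ≤ P)
    (w1 : 248 * P ≤ 100 * k₁) (w2 : 100 * (k₂ + 1) ≤ 259 * P) (hk : k₁ ≤ k₂)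
    (hT : ∀ w ∈ T, 0 < w ∧ w < k₁) (hG : #T.toFinset + 1 ≤ G) (hN : 75 + 61 * G ≤ N)
    (hL : (24 + 18 * G) * (k₂ + 1) ≤ L) (hE : k₂ + 1 + 2 * L ≤ E)
    (lo : tri E + L ≤ tri (E - k₁) + N * tri P + mm T)
    (hi : tri (E - (k₂ + 1)) + N * tri P + mm T + L < tri E)
    (ih : ∀ k, k₁ ≤ k → ∀ c', tri (E - k) ≤ mm I + c' →
      BM (Dsp (E - k) (E - k)) (I + replicate c' 1) 0)
    (res : tri E + L ≤ mm I + c + N * tri P + mm T ∨
      (tri E ≤ mm I + c + N * tri P + mm T ∧ 2 * L ≤ c)) :
    BM (Dsp E E) (I + replicate c 1 + (replicate N P + T)) 0 := by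
  have hc : ∀ z, #(T + replicate z 1).toFinset ≤ G := fun z => (card_add_simple T z).trans hG
  have hLz : ∀ z H, H ≤ k₂ + 1 → (24 + 18 * #(T + replicate z 1).toFinset) * H ≤ L :=
    fun z H hH => (Nat.mul_le_mul (by have := hc z; omega) hH).trans hL
  have hm : ∀ z, mm (T + replicate z 1) = mm T + z := fun z => by
    rw [mm_add, mm_replicate, tri_one, mul_one]
  have hp : ∀ z H, k₁ ≤ H → H ≤ k₂ + 1 → tri E + L ≤ tri (E - H) + N * tri P + mm T + z →
      BM (Sp H E) (replicate N P + (T + replicate z 1)) 0 := fun z H h1 h2 h3 =>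
    mix_plus hP (by omega) (by omega) (by omega) _ (mem_add_simple z hT h1 (by omega))
      (by have := hc z; omega) (by have := hLz z H h2; rw [hm]; omega)
  have hq : ∀ z H, k₁ ≤ H → H ≤ k₂ + 1 → tri (E - H) + N * tri P + mm T + z + L ≤ tri E →
      BM (Sp H E) (replicate N P + (T + replicate z 1))
        (tri E - (tri (E - H) + N * tri P + mm T + z)) := fun z H h1 h2 h3 => by
    have := mix_minus (N := N) (E := E) (H := H) hP (by omega) (by omega) (by omega) _
      (mem_add_simple z hT h1 (by omega)) (by have := hc z; omega)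
      (by have := hLz z H h2; rw [hm]; omega)
    rwa [hm, ← Nat.add_assoc] at this
  have ht : ∀ k, k + 1 ≤ E → tri (E - k) = tri (E - (k + 1)) + (E - k) := fun k h => by
    rw [show E - k = E - (k + 1) + 1 by omega]; rfl
  have hx : ∀ k, k₁ ≤ k → ∀ c' ρ, tri (E - k) ≤ mm I + c' + ρ →
      BM (Dsp (E - k) (E - k)) (I + replicate c' 1) ρ := fun k h1 c' ρ h2 => by
    refine BM.of_extra ?_
    rw [add_assoc, ← Multiset.replicate_add]
    exact ih k h1 _ (by omega)
  generalize N * tri P = X at lo hi res hp hq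
  rcases res with res | ⟨res, hc2⟩
  · obtain ⟨k, h1, h2, h3, h4⟩ := exists_step (f := fun k => tri (E - k) + X + mm T < tri E + L)
      (a := k₁) (b := k₂ + 1) (by omega) (by omega) (by omega)
    have h5 := ht k (by omega)
    have J0 := hp 0 k h1 (by omega) (by omega)
    rw [Multiset.replicate_zero, add_zero] at J0
    have J1 := hp (tri E + L - (tri (E - (k + 1)) + X + mm T)) (k + 1) (by omega) (by omega)
      (by omega)
    rw [← add_assoc] at J1
    exact linecut (k := k) (ρ := tri (E - k) + X + mm T - (tri E + L)) (by omega) (by omega)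
      (hx (k + 1) (by omega) c 0 (by omega)) (hx k h1 c _ (by omega)) J0 (BM.of_extra J1)
  · obtain ⟨k, h1, h2, h3, h4⟩ := exists_step (f := fun k => tri (E - k) + X + mm T + L < tri E)
      (a := k₁) (b := k₂ + 1) (by omega) (by omega) (by omega)
    have h5 := ht k (by omega)
    obtain ⟨z, hz⟩ : ∃ z, z = tri E + L - (tri (E - k) + X + mm T) := ⟨_, rfl⟩
    obtain ⟨u, rfl⟩ : ∃ u, c = u + z := ⟨c - z, by omega⟩
    have J0 := hp z k h1 (by omega) (by omega)
    have J1 := hq z (k + 1) (by omega) (by omega) (by omega)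
    have := linecut (k := k) (ρ := tri (E - k) + X + mm T + z - tri E) (by omega) (by omega)
      (hx (k + 1) (by omega) u 0 (by omega)) (hx k h1 u _ (by omega)) J0 J1
    rwa [show I + replicate u 1 + (replicate N P + (T + replicate z 1)) =
      I + replicate (u + z) 1 + (replicate N P + T) by rw [Multiset.replicate_add]; abel] at this

end Pool.Agent.Lib.MP_6e81d8_ag.H22
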