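import Pool.Agent.Lib.MP_6e81d8_ag.H22.Fibre
import Pool.Agent.Lib.MP_6e81d8_ag.H22.Prep
import Pool.Agent.Lib.MP_6e81d8_ag.H22.Mix2
import Pool.Agent.Lib.MP_6e81d8_ag.H22.Step

set_option autoImplicit false

namespace Pool.Agent.Lib.MP_6e81d8_ag.H22

open Polynomial Finset Module H36
open Multiset (replicate)

theorem fs18_tri (m H : ℕ) : tri (m + H) = tri m + m * H + tri H := by
  have h1 := two_tri m
  have h2 := two_tri H
  have h3 := two_tri (m + H)
  have h4 : (m + H) * (m + H + 1) = m * (m + 1) + 2 * (m * H) + H * (H + 1) := by ring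
  omega

theorem fs18_mm_le (J : Multiset ℕ) (H : ℕ) (h : ∀ w ∈ J, w ≤ H) : mm J ≤ J.card * tri H := by
  induction J using Multiset.induction_on with
  | empty => simp
  | cons a J ih =>
    have h1 := ih fun w hw => h w (Multiset.mem_cons_of_mem hw)
    have h2 := tri_mono (h a (Multiset.mem_cons_self _ _))
    rw [← Multiset.singleton_add, mm_add, mm_singleton, Multiset.card_add,
      Multiset.card_singleton, add_mul]
    omega

theorem fs18_mm_filter (J : Multiset ℕ) : mm (J.filter (0 < ·)) = mm J := by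
  induction J using Multiset.induction_on with
  | empty => simp
  | cons a J ih =>
    rcases Nat.eq_zero_or_pos a with rfl | ha
    · rw [Multiset.filter_cons_of_neg _ (lt_irrefl 0), ih, ← Multiset.singleton_add, mm_add,
        mm_singleton]
      exact (zero_add _).symm
    · rw [Multiset.filter_cons_of_pos (p := fun x => 0 < x) _ ha, ← Multiset.singleton_add,
        ← Multiset.singleton_add, mm_add, mm_add, ih]

theorem fs18_mass {m H P G X : ℕ} (hP : 2 * P ≤ H) (hE : 10000 * (G + 6) * H ≤ m + H)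
    (hX : m * H ≤ tri H + X) : (G + 5 + G) * (1503 * (P * P)) ≤ X := by
  have h1 := two_tri H
  have h2 : 10000 * (G + 6) * H * H ≤ (m + H) * H := Nat.mul_le_mul_right _ hE
  have h3 : 2 * P * (2 * P) ≤ H * H := Nat.mul_le_mul hP hP
  have h4 : G * (2 * P * (2 * P)) ≤ G * (H * H) := Nat.mul_le_mul_left _ h3
  have h5 : H ≤ H * H := Nat.le_mul_self H
  nlinarith [Nat.zero_le (G * (H * H)), Nat.zero_le (H * H)]

theorem fin_strip {E m μ G : ℕ} {J₁ J₂ : Multiset ℕ} (hμ : 1 ≤ μ) (hm : m ≤ E)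
    (hH : 600000 * μ ≤ E - m) (h1 : ∀ w ∈ J₁, 0 < w ∧ w ≤ μ) (h2 : ∀ w ∈ J₂, w < E - m)
    (hc : J₂.card ≤ 2) (hG : #J₁.toFinset ≤ G) (hE : 10000 * (G + 6) * (E - m) ≤ E)
    (tot : tri E ≤ tri m + mm J₂ + mm J₁) : BM (Dsp E E) ({m} + J₂ + J₁) 0 := by
  classical
  obtain ⟨H, hHd⟩ : ∃ H, H = E - m := ⟨_, rfl⟩
  obtain ⟨P, hPd⟩ : ∃ P, P = 100 * H / 253 := ⟨_, rfl⟩
  have hEe : E = m + H := by omega
  have hEH : E - H = m := by omega
  rw [← hHd] at hH h2 hE
  have hP : 200000 * μ ≤ P := by omega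
  have ht : tri E = tri m + m * H + tri H := by rw [hEe, fs18_tri]
  have hJ2 : mm J₂ ≤ 2 * tri H :=
    (fs18_mm_le J₂ H fun w hw => (h2 w hw).le).trans (Nat.mul_le_mul_right _ hc)
  have hmass : (G + 5 + G) * (1503 * (P * P)) ≤ mm J₁ :=
    fs18_mass (m := m) (H := H) (by omega) (by rw [← hEe]; exact hE) (by omega)
  refine prep hμ hP (by omega) (G + 5) J₁ _ h1 hG hmass
    fun U J' b c hU hs hJ' hc' hm' b1 b2 => ?_
  obtain ⟨T, hTd⟩ : ∃ T, T = J' + J₂.filter (0 < ·) := ⟨_, rfl⟩
  have hT : ∀ w ∈ T, 0 < w ∧ w < H := fun w hw => by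
    rw [hTd] at hw
    rcases Multiset.mem_add.1 hw with h | h
    · have := hJ' w h
      omega
    · rw [Multiset.mem_filter] at h
      exact ⟨h.2, h2 w h.1⟩
  have hTc : #T.toFinset ≤ G + 2 * (G + 5) + 2 := by
    have a1 := PrepAux.card_add J' (J₂.filter (0 < ·))
    have a2 := Multiset.toFinset_card_le (J₂.filter (0 < ·))
    have a3 := Multiset.card_le_card (Multiset.filter_le (0 < ·) J₂)
    rw [hTd]
    omega
  have hY : mm (57 • U + T) = mm (57 • U + J') + mm J₂ := by
    rw [hTd, ← add_assoc, mm_add, fs18_mm_filter]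
  have hUH : ∀ s ∈ U, 2000 ≤ s ∧ 248 * s ≤ 100 * H ∧ 100 * H ≤ 259 * s := fun s h => by
    have := hs s h
    omega
  have hL : 18 * U.card * H ≤ 140 * ((G + 5) * P) := by
    have : (G + 5) * (54 * H) ≤ (G + 5) * (140 * P) := Nat.mul_le_mul_left _ (by omega)
    rw [hU]
    linarith
  have key : BM (Sp H E) (57 • U + T + replicate c 1) 0 := by
    rcases le_or_gt (tri E + 18 * U.card * H) (tri m + mm (57 • U + T) + c) with h | h
    · rw [add_assoc]
      refine mix_plus2 (by omega) U _ hUH (mem_add_simple c hT le_rfl (by omega))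
        (by have := card_add_simple T c; omega) ?_
      rw [← add_assoc, mm_add, mm_replicate, tri_one, mul_one, hEH]
      omega
    · have : FiniteDimensional ℂ (Sp H E) := finite_good _ H fun b hb => tr_of_le _ hb
      refine BM.add_simple ((mix_minus2 (by omega) U T hUH hT (by omega) ?_).mono_rho ?_)
      · rw [hEH]
        omega
      · rw [hEH]
        omega
  rw [hHd] at key
  refine BM.mono le_rfl ?_ (firstM key)
  have e : ({m} : Multiset ℕ) + J₂ + replicate c 1 + (57 • U + J') =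
      {m} + (57 • U + (J' + J₂) + replicate c 1) := by abel
  rw [e, hTd]
  gcongr
  exact Multiset.filter_le _ _

end Pool.Agent.Lib.MP_6e81d8_ag.H22
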