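import Pool.Agent.Lib.MP_6e81d8_ag.H22.Main2

set_option autoImplicit false

namespace Pool.Agent.Lib.MP_6e81d8_ag.H22

open Polynomial Finset Module H36
open Multiset (replicate)

theorem fin2_map {ι : Type} (m : ι → ℕ) (s : Finset ι) :
    ∑ i ∈ s, ({m i} : Multiset ℕ) = s.val.map m := by
  classical
  induction s using Finset.induction_on with
  | empty => simp
  | insert i s hi ih => rw [sum_insert hi, ih, insert_val_of_notMem hi, Multiset.map_cons,
      Multiset.singleton_add]

theorem fin2_card (T : Multiset ℕ) (c : ℕ) : #(T + replicate c 1).toFinset ≤ #T.toFinset + 1 := by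
  refine (card_le_card fun x hx => ?_).trans (card_insert_le 1 T.toFinset)
  rw [Multiset.mem_toFinset, Multiset.mem_add] at hx
  rcases hx with hx | hx
  · exact mem_insert_of_mem (Multiset.mem_toFinset.2 hx)
  · exact mem_insert.2 (Or.inl (Multiset.eq_of_mem_replicate hx))

theorem fin2_sq {r : ℕ} (m : Fin r → ℕ) : ∑ i, m i ^ 2 ≤ 2 * mass m univ := by
  unfold mass
  rw [mul_sum]
  refine sum_le_sum fun i _ => ?_
  rw [two_tri]
  nlinarith

theorem few_values {r : ℕ} (hr : 0 < r) (d μ : ℕ) (m : Fin r → ℕ) (hm : ∀ i, 0 < m i ∧ m i ≤ μ)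
    (h : 10 ^ 22 * (univ.image m).card * μ ^ 2 ≤ max (d ^ 2) (∑ i, m i ^ 2)) :
    Bd m (Dsp (d + 1) (d + 1)) univ (tri (d + 1) - mass m univ) := by
  have hμ : 1 ≤ μ := by
    have := hm ⟨0, hr⟩
    omega
  have hg : 1 ≤ (univ.image m).card :=
    card_pos.2 ⟨m ⟨0, hr⟩, mem_image_of_mem m (mem_univ _)⟩
  have hT := mm_sum m
  have hmem : ∀ w ∈ ∑ i, ({m i} : Multiset ℕ), 0 < w ∧ w ≤ μ := by
    intro w hw
    rw [fin2_map] at hw
    obtain ⟨i, -, rfl⟩ := Multiset.mem_map.1 hw
    exact hm i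
  have hcard : #(∑ i, ({m i} : Multiset ℕ)).toFinset = #(univ.image m) := by
    rw [fin2_map]
    rfl
  have hsq := fin2_sq m
  have hd : d ^ 2 ≤ 2 * tri (d + 1) := by
    rw [two_tri]
    nlinarith
  refine BM.use (BM.of_extra ?_) m rfl
  generalize (∑ i, ({m i} : Multiset ℕ)) = T at *
  generalize #(univ.image m) = g at *
  generalize mass m univ = M at *
  generalize ∑ i, m i ^ 2 = Q at *
  have hmm : mm (T + replicate (tri (d + 1) - M) 1) = M + (tri (d + 1) - M) := by
    rw [mm_add, mm_replicate, tri_one, hT, mul_one]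
  have hc := fin2_card T (tri (d + 1) - M)
  have hne : T + replicate (tri (d + 1) - M) 1 ≠ 0 := by
    intro h0
    have h1 : T = 0 := le_zero_iff.1 (h0 ▸ Multiset.le_add_right T _)
    rw [h1] at hcard
    simp only [Multiset.toFinset_zero, card_empty] at hcard
    omega
  have hb : 3 * (10 ^ 10 * (200000 * μ * (200000 * μ))) *
      #(T + replicate (tri (d + 1) - M) 1).toFinset ≤ 24 * 10 ^ 20 * (g * μ ^ 2) :=
    calc _ ≤ 3 * (10 ^ 10 * (200000 * μ * (200000 * μ))) * (2 * g) :=
          Nat.mul_le_mul_left _ (by omega)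
      _ = _ := by ring
  rw [mul_assoc] at h
  have := main2 hμ le_rfl (d + 1) (T + replicate (tri (d + 1) - M) 1) 0 1 0
    (fun v hv => by
      rcases Multiset.mem_add.1 hv with hv | hv
      · exact hmem v hv
      · rw [Multiset.eq_of_mem_replicate hv]
        omega) one_pos hμ hne (by rw [hmm]; omega) (by rw [hmm]; omega)
  simpa using this

end Pool.Agent.Lib.MP_6e81d8_ag.H22
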