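import Pool.Agent.Lib.MP_6e81d8_ag.H22.Main3
import Pool.Agent.Lib.MP_6e81d8_ag.H22.Final2

set_option autoImplicit false

namespace Pool.Agent.Lib.MP_6e81d8_ag.H22

open Polynomial Finset Module H36
open Multiset (replicate)

theorem fin3_split {α : Type} [AddCommMonoid α] {r : ℕ} (f : Fin (r + 3) → α) :
    ∑ i, f i = f 0 + f 1 + f 2 + ∑ i : Fin r, f i.succ.succ.succ := by
  rw [Fin.sum_univ_succ, Fin.sum_univ_succ, Fin.sum_univ_succ, add_assoc (f 0 + f 1),
    add_assoc (f 0)]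
  rfl

theorem three_free {r : ℕ} (d μ : ℕ) (m : Fin (r + 3) → ℕ) (hanti : Antitone m)
    (hpos : ∀ i, 0 < m i) (hμ : 0 < μ) (hm : ∀ i : Fin (r + 3), 3 ≤ i.val → m i ≤ μ)
    (hstd : m 0 + m 1 + m 2 ≤ d) (hd : m 0 + 10 ^ 6 * μ ≤ d)
    (h : 10 ^ 46 * (univ.image m).card * μ ^ 2 + m 0 ^ 2 + m 1 ^ 2 + m 2 ^ 2 ≤
      max (d ^ 2) (∑ i, m i ^ 2)) :
    Bd m (Dsp (d + 1) (d + 1)) univ (tri (d + 1) - mass m univ) := by
  rcases le_total (m 0) (4 * 10 ^ 11 * μ) with h0 | h0
  · refine few_values (by omega) d (4 * 10 ^ 11 * μ) m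
      (fun i => ⟨hpos i, (hanti (Fin.zero_le i)).trans h0⟩) (le_trans ?_ h)
    have e : 10 ^ 22 * (univ.image m).card * (4 * 10 ^ 11 * μ) ^ 2 =
        16 * 10 ^ 44 * ((univ.image m).card * μ ^ 2) := by ring
    rw [e, mul_assoc (10 ^ 46)]
    omega
  have hg : 1 ≤ (univ.image m).card :=
    card_pos.2 ⟨m 0, mem_image_of_mem m (mem_univ _)⟩
  have hT := mm_sum fun i : Fin r => m i.succ.succ.succ
  have hmem : ∀ w ∈ ∑ i : Fin r, ({m i.succ.succ.succ} : Multiset ℕ), 0 < w ∧ w ≤ μ := by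
    intro w hw
    rw [fin2_map] at hw
    obtain ⟨i, -, rfl⟩ := Multiset.mem_map.1 hw
    exact ⟨hpos _, hm _ (by simp only [Fin.val_succ]; omega)⟩
  have hcard : #(∑ i : Fin r, ({m i.succ.succ.succ} : Multiset ℕ)).toFinset ≤ #(univ.image m) := by
    refine card_le_card fun w hw => ?_
    rw [Multiset.mem_toFinset, fin2_map] at hw
    obtain ⟨i, -, rfl⟩ := Multiset.mem_map.1 hw
    exact mem_image_of_mem m (mem_univ _)
  have hsq := fin2_sq fun i : Fin r => m i.succ.succ.succ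
  have hmass : mass m univ = tri (m 0) + tri (m 1) + tri (m 2) +
      mass (fun i : Fin r => m i.succ.succ.succ) univ := fin3_split fun i => tri (m i)
  have hQ : ∑ i, m i ^ 2 = m 0 ^ 2 + m 1 ^ 2 + m 2 ^ 2 + ∑ i : Fin r, m i.succ.succ.succ ^ 2 :=
    fin3_split fun i => m i ^ 2
  have hd2 : d ^ 2 + d ≤ 2 * tri (d + 1) := by
    rw [two_tri]
    nlinarith
  have ht : ∀ a, 2 * tri a = a ^ 2 + a := fun a => by
    rw [two_tri]
    ring
  have t0 := ht (m 0)
  have t1 := ht (m 1)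
  have t2 := ht (m 2)
  refine BM.use (BM.of_extra ?_) m (fin3_split fun i => ({m i} : Multiset ℕ))
  rw [hQ] at h
  generalize (∑ i : Fin r, ({m i.succ.succ.succ} : Multiset ℕ)) = T at *
  generalize #(univ.image m) = g at *
  generalize mass (fun i : Fin r => m i.succ.succ.succ) univ = M' at *
  generalize mass m univ = M at *
  generalize ∑ i : Fin r, m i.succ.succ.succ ^ 2 = Q at *
  have hmm : mm (T + replicate (tri (d + 1) - M) 1) = M' + (tri (d + 1) - M) := by
    rw [mm_add, mm_replicate, tri_one, hT, mul_one]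
  have hc := fin2_card T (tri (d + 1) - M)
  have hb : 3 * (10 ^ 10 * (200000 * μ * (200000 * μ))) *
      #(T + replicate (tri (d + 1) - M) 1).toFinset ≤ 24 * 10 ^ 20 * (g * μ ^ 2) :=
    calc _ ≤ 3 * (10 ^ 10 * (200000 * μ * (200000 * μ))) * (2 * g) :=
          Nat.mul_le_mul_left _ (by omega)
      _ = _ := by ring
  rw [mul_assoc] at h
  have := main3 (μ := μ) (P := 200000 * μ) (m₁ := m 0) hμ le_rfl (by omega) (d + 1) (m 1) (m 2)
    (T + replicate (tri (d + 1) - M) 1) 0 1 0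
    (fun v hv => by
      rcases Multiset.mem_add.1 hv with hv | hv
      · exact hmem v hv
      · rw [Multiset.eq_of_mem_replicate hv]
        omega) one_pos hμ (by rw [hmm]; omega) (by omega) (by omega) (by rw [hmm]; omega)
  simpa only [Multiset.replicate_zero, add_zero, add_assoc] using this

end Pool.Agent.Lib.MP_6e81d8_ag.H22
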