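import Pool.Agent.Lib.MP_6e81d8_ag.H22.Main8
import Pool.Agent.Lib.MP_6e81d8_ag.H22.Final3

set_option autoImplicit false

namespace Pool.Agent.Lib.MP_6e81d8_ag.H22

open Polynomial Finset Module H36
open Multiset (replicate)

theorem f8_head {M : Type} [AddCommMonoid M] {r : ℕ} (F : Fin (r + 8) → M) :
    ∑ i ∈ univ.filter (fun i : Fin (r + 8) => i.val < 8), F i =
      F ⟨0, by omega⟩ + F ⟨1, by omega⟩ + F ⟨2, by omega⟩ + F ⟨3, by omega⟩ + F ⟨4, by omega⟩ +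
        F ⟨5, by omega⟩ + F ⟨6, by omega⟩ + F ⟨7, by omega⟩ := by
  have e : univ.filter (fun i : Fin (r + 8) => i.val < 8) =
      univ.map (Fin.castLEEmb (Nat.le_add_left 8 r)) := by
    ext i
    simp only [mem_filter, mem_univ, true_and, mem_map]
    exact ⟨fun h => ⟨⟨i.val, h⟩, rfl⟩, fun ⟨j, hj⟩ => hj ▸ j.isLt⟩
  rw [e, sum_map, Fin.sum_univ_eight]
  rfl

theorem f8_mm {ι : Type} (m : ι → ℕ) (s : Finset ι) :
    mm (∑ i ∈ s, ({m i} : Multiset ℕ)) = ∑ i ∈ s, tri (m i) := by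
  rw [fin2_map, mm, Multiset.map_map]
  rfl

theorem f8_core (d μ g m0 m1 m2 m3 m4 m5 m6 m7 Q : ℕ) (T : Multiset ℕ) (hμ : 0 < μ) (hg : 1 ≤ g)
    (h1 : m1 ≤ m0) (h2 : m2 ≤ m1) (h3 : m3 ≤ m2) (h4 : m4 ≤ m3) (h5 : m5 ≤ m4) (h6 : m6 ≤ m5)
    (h7 : m7 ≤ m6) (hT : ∀ w ∈ T, 0 < w ∧ w ≤ μ) (hc : #T.toFinset ≤ g) (hQ : Q ≤ 2 * mm T)
    (hstd : m0 + m1 + m2 ≤ d) (hd : m0 + 10 ^ 6 * μ ≤ d) (big : 6 * 10 ^ 13 * μ ≤ m0)
    (h : 10 ^ 50 * g * μ ^ 2 +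
      (m0 ^ 2 + m1 ^ 2 + m2 ^ 2 + m3 ^ 2 + m4 ^ 2 + m5 ^ 2 + m6 ^ 2 + m7 ^ 2) ≤ max (d ^ 2)
        (m0 ^ 2 + m1 ^ 2 + m2 ^ 2 + m3 ^ 2 + m4 ^ 2 + m5 ^ 2 + m6 ^ 2 + m7 ^ 2 + Q)) :
    BM (Dsp (d + 1) (d + 1)) ({m0} + {m1} + {m2} + {m3} + {m4} + {m5} + {m6} + {m7} + T)
      (tri (d + 1) -
        (tri m0 + tri m1 + tri m2 + tri m3 + tri m4 + tri m5 + tri m6 + tri m7 + mm T)) := by
  have eB : Bg (m0 - m1) (m1 - m2) (m2 - m3) (m3 - m4) (m4 - m5) (m5 - m6) (m6 - m7) m7 =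
      {m0} + {m1} + {m2} + {m3} + {m4} + {m5} + {m6} + {m7} := by
    unfold Bg
    congr 8 <;> omega
  have hS : 2 * (tri m0 + tri m1 + tri m2 + tri m3 + tri m4 + tri m5 + tri m6 + tri m7) =
      m0 ^ 2 + m1 ^ 2 + m2 ^ 2 + m3 ^ 2 + m4 ^ 2 + m5 ^ 2 + m6 ^ 2 + m7 ^ 2 +
        (m0 + m1 + m2 + m3 + m4 + m5 + m6 + m7) := by
    simp only [mul_add, two_tri]
    ring
  have hD : 2 * tri (d + 1) = d ^ 2 + 3 * d + 2 := by
    rw [two_tri]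
    ring
  have hB : mm ({m0} + {m1} + {m2} + {m3} + {m4} + {m5} + {m6} + {m7}) =
      tri m0 + tri m1 + tri m2 + tri m3 + tri m4 + tri m5 + tri m6 + tri m7 := by
    simp only [mm_add, mm_singleton]
  refine BM.of_extra ?_
  generalize tri m0 + tri m1 + tri m2 + tri m3 + tri m4 + tri m5 + tri m6 + tri m7 = M at *
  generalize m0 ^ 2 + m1 ^ 2 + m2 ^ 2 + m3 ^ 2 + m4 ^ 2 + m5 ^ 2 + m6 ^ 2 + m7 ^ 2 = S at *
  generalize hce : tri (d + 1) - (M + mm T) = c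
  have hmm : mm (T + replicate c 1) = mm T + c := by
    rw [mm_add, mm_replicate, tri_one, mul_one]
  have hk := fin2_card T c
  have hb : 3 * (10 ^ 10 * (200000 * μ * (200000 * μ))) * #(T + replicate c 1).toFinset ≤
      24 * 10 ^ 20 * (g * μ ^ 2) :=
    calc _ ≤ 3 * (10 ^ 10 * (200000 * μ * (200000 * μ))) * (2 * g) :=
          Nat.mul_le_mul_left _ (by omega)
      _ = _ := by ring
  rw [mul_assoc] at h
  have := main8 hμ le_rfl d (d - m0 - m1 - m2) (m0 - m1) (m1 - m2) (m2 - m3) (m3 - m4) (m4 - m5)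
    (m5 - m6) (m6 - m7) m7 (T + replicate c 1) 0 1 0 (by unfold dg; omega)
    (fun v hv => by
      rcases Multiset.mem_add.1 hv with hv | hv
      · exact hT v hv
      · rw [Multiset.eq_of_mem_replicate hv]
        omega) one_pos hμ (by rw [hmm]; omega) (by omega) (by omega) (by rw [eB, hB, hmm]; omega)
  rw [eB] at this
  simpa only [Multiset.replicate_zero, add_zero, add_assoc] using this

theorem eight_free {r : ℕ} (d μ : ℕ) (m : Fin (r + 8) → ℕ) (hanti : Antitone m)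
    (hpos : ∀ i, 0 < m i) (hμ : 0 < μ) (hm : ∀ i : Fin (r + 8), 8 ≤ i.val → m i ≤ μ)
    (hstd : m 0 + m 1 + m 2 ≤ d) (hd : m 0 + 10 ^ 6 * μ ≤ d)
    (h : 10 ^ 50 * (univ.image m).card * μ ^ 2 +
      ∑ i ∈ univ.filter (fun i : Fin (r + 8) => i.val < 8), m i ^ 2 ≤ max (d ^ 2) (∑ i, m i ^ 2)) :
    Bd m (Dsp (d + 1) (d + 1)) univ (tri (d + 1) - mass m univ) := by
  rcases le_total (m 0) (6 * 10 ^ 13 * μ) with hs | big
  · refine few_values (by omega) d (6 * 10 ^ 13 * μ) m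
      (fun i => ⟨hpos i, (hanti (Fin.zero_le i)).trans hs⟩) (le_trans ?_ (le_of_add_le_left h))
    calc _ = 36 * 10 ^ 48 * (#(univ.image m) * μ ^ 2) := by ring
      _ ≤ 10 ^ 50 * (#(univ.image m) * μ ^ 2) := Nat.mul_le_mul_right _ (by norm_num)
      _ = _ := by ring
  have sp : ∀ {M : Type} [AddCommMonoid M] (F : Fin (r + 8) → M), ∑ i, F i = _ + _ :=
    fun F => by rw [← sum_filter_add_sum_filter_not univ (fun i : Fin (r + 8) => i.val < 8) F,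
      f8_head]
  rw [f8_head, sp fun i => m i ^ 2] at h
  have a : ∀ (i j : ℕ) (hi : i < r + 8) (hj : j < r + 8), i ≤ j → m ⟨j, hj⟩ ≤ m ⟨i, hi⟩ :=
    fun i j hi hj e => hanti e
  refine BM.use ?_ m (sp _)
  rw [mass, sp fun i => tri (m i), ← f8_mm]
  refine f8_core d μ #(univ.image m) _ _ _ _ _ _ _ _ _ _ hμ
    (card_pos.2 ⟨m 0, mem_image_of_mem m (mem_univ _)⟩) (a _ _ _ _ (by omega))
    (a _ _ _ _ (by omega)) (a _ _ _ _ (by omega)) (a _ _ _ _ (by omega)) (a _ _ _ _ (by omega))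
    (a _ _ _ _ (by omega)) (a _ _ _ _ (by omega)) (fun w hw => ?_) (card_le_card fun w hw => ?_)
    ?_ hstd hd big h
  · rw [fin2_map] at hw
    obtain ⟨i, hi, rfl⟩ := Multiset.mem_map.1 hw
    exact ⟨hpos i, hm i (not_lt.1 (mem_filter.1 (mem_def.2 hi)).2)⟩
  · rw [Multiset.mem_toFinset, fin2_map] at hw
    obtain ⟨i, -, rfl⟩ := Multiset.mem_map.1 hw
    exact mem_image_of_mem m (mem_univ _)
  · rw [f8_mm, mul_sum]
    refine sum_le_sum fun i _ => ?_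
    rw [two_tri]
    nlinarith

end Pool.Agent.Lib.MP_6e81d8_ag.H22
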