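import Pool.Agent.Lib.MP_6e81d8_ag.H22.Defs

set_option autoImplicit false

namespace Pool.Agent.Lib.MP_6e81d8_ag.H22

open Polynomial Finset Module H36
open Multiset (replicate)

theorem bdd_node (H : ℕ) (ψ : ℕ → ℕ) : H88.Bdd fun s k => k < H ∧ s < ψ k := by
  refine ⟨H + ∑ k ∈ range H, ψ k, fun s k h => ⟨?_, by omega⟩⟩
  have h1 : ψ k ≤ ∑ k ∈ range H, ψ k :=
    single_le_sum (f := ψ) (fun _ _ => Nat.zero_le _) (mem_range.2 h.1)
  omega

theorem GM.split {D : ℕ → ℕ → Prop} (hD : H88.Bdd D) {H : ℕ} (hrow : ∀ i k, D i k → k < H)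
    {ψ : ℕ → ℕ} (hψ : Node ψ) {s t : Multiset ((ℕ → ℕ) × Bool)} (h₀ : GM D (s + {(ψ, false)}))
    (h₁ : GM (fun s k => k < H ∧ s < ψ k) t) : GM D (s + t) := by
  obtain ⟨A, E, θ, hn⟩ := hψ
  obtain ⟨ι, _, m, hm⟩ := exists_index s
  obtain ⟨κ, _, φ, J, ht, g₁⟩ := h₁
  have g₀ : GE D (Sum.elim (fun i => (m i).1) fun _ : Unit => ψ)
      (Sum.elim (fun i => (m i).2) fun _ : Unit => false) :=
    h₀.use _ _ (by simp [Fintype.sum_sum_type, hm])
  have all := vsplit (β := Unit) (κ := fun _ => κ) hD hrow (fun _ => A) (fun _ => E) (fun _ => θ)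
    (ψ := fun _ => ψ) (fun _ s k => (hn s k).2) (fun _ s k => (hn s k).1) (φ := fun _ => φ)
    (J := fun _ => J) g₀ fun _ => g₁
  exact ⟨_, inferInstance, _, _, by simp [Fintype.sum_sum_type, Fintype.sum_sigma, hm, ht], all⟩

theorem GM.split_sum {β : Type} {D : ℕ → ℕ → Prop} (hD : H88.Bdd D) {H : ℕ}
    (hrow : ∀ i k, D i k → k < H) (W : Finset β) {ψ : β → ℕ → ℕ}
    {t : β → Multiset ((ℕ → ℕ) × Bool)} (hψ : ∀ b ∈ W, Node (ψ b))
    (h₁ : ∀ b ∈ W, GM (fun s k => k < H ∧ s < ψ b k) (t b)) {s : Multiset ((ℕ → ℕ) × Bool)}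
    (h₀ : GM D (s + ∑ b ∈ W, {(ψ b, false)})) : GM D (s + ∑ b ∈ W, t b) := by
  classical
  induction W using Finset.induction_on generalizing s with
  | empty => simpa using h₀
  | insert b W hb ih =>
    rw [sum_insert hb] at h₀ ⊢
    have e₀ : s + ({(ψ b, false)} + ∑ c ∈ W, ({(ψ c, false)} : Multiset ((ℕ → ℕ) × Bool))) =
        (s + ∑ c ∈ W, {(ψ c, false)}) + {(ψ b, false)} := by abel
    rw [e₀] at h₀
    have g := GM.split hD hrow (hψ b (mem_insert_self _ _)) h₀ (h₁ b (mem_insert_self _ _))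
    have e₁ : s + ∑ c ∈ W, ({(ψ c, false)} : Multiset ((ℕ → ℕ) × Bool)) + t b =
        (s + t b) + ∑ c ∈ W, {(ψ c, false)} := by abel
    rw [e₁] at g
    rw [← add_assoc]
    exact ih (fun c hc => hψ c (mem_insert_of_mem hc)) (fun c hc => h₁ c (mem_insert_of_mem hc)) g

theorem GM.split_rep {D : ℕ → ℕ → Prop} (hD : H88.Bdd D) {H : ℕ} (hrow : ∀ i k, D i k → k < H)
    {ψ : ℕ → ℕ} (hψ : Node ψ) {s t : Multiset ((ℕ → ℕ) × Bool)} (n : ℕ)
    (h₀ : GM D (s + replicate n (ψ, false))) (h₁ : GM (fun s k => k < H ∧ s < ψ k) t) :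
    GM D (s + n • t) := by
  have g := GM.split_sum hD hrow (univ : Finset (Fin n)) (ψ := fun _ => ψ) (t := fun _ => t)
    (fun _ _ => hψ) (fun _ _ => h₁) (s := s) (by rw [sum_replicate]; exact h₀)
  simpa using g

theorem GM.elm {h S lam K : ℕ} {ι : Type} [Fintype ι] (φ : ι → ℕ → ℕ)
    (hφ : ∀ j k, φ j k ≤ φ j (k + 1) + 1)
    (H : GM (fun i k => k < h + 1 ∧ i + (S + K) * k < lam + K * h)
      (replicate K (fun k => h - k, true) + ∑ j, {(φ j, false)})) :
    ∃ a b : ι → ℚ, Function.Injective a ∧ EmpC (fun i k => k < h + 1 ∧ i + S * k < lam) φ a b := by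
  classical
  have g : GE (fun i k => k < h + 1 ∧ i + (S + K) * k < lam + K * h)
      (Sum.elim (fun (_ : Fin K) k => h - k) φ) (Sum.elim (fun _ => true) fun _ => false) :=
    H.use _ _ (by
      rw [Fintype.sum_sum_type]
      simp only [Sum.elim_inl, Sum.elim_inr, sum_replicate])
  have card : (univ.filter fun j : Fin K ⊕ ι =>
      Sum.elim (fun _ => true) (fun _ => false) j = true).card = K := by
    rw [card_filter, Fintype.sum_sum_type]
    simp
  obtain ⟨a, b, ha, hab⟩ := H36.elm (h := h) (S := S) (lam := lam) (ι := Fin K ⊕ ι)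
    (φ := Sum.elim (fun (_ : Fin K) k => h - k) φ)
    (J := Sum.elim (fun _ => true) fun _ => false)
    (by
      rintro (j | j)
      · simp
      · simp)
    (by
      rintro (j | j)
      · simp
      · exact fun _ k => hφ j k)
    (by rw [card]; exact g)
  refine ⟨fun j => a ⟨Sum.inr j, rfl⟩, fun j => b ⟨Sum.inr j, rfl⟩, fun i j hij => ?_,
    fun f hf hv => hab f hf ?_⟩
  · exact Sum.inr_injective (congrArg Subtype.val (ha hij))
  · rintro ⟨j | j, hj⟩
    · simp at hj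
    · exact hv j

end Pool.Agent.Lib.MP_6e81d8_ag.H22
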