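import Pool.Agent.Lib.MP_6e81d8_ag.H22.BigStep2

/-!
The induction on the degree: a core whose classes are heavy on average, one further class and
simple points.
-/

set_option autoImplicit false

namespace Pool.Agent.Lib.MP_6e81d8_ag.H22

open Polynomial Finset Module H36
open Multiset (replicate)

theorem main2_tri (E k : ℕ) : tri E ≤ tri (E - k) + k * E := by
  induction k with
  | zero => simp
  | succ k ih =>
    rcases le_or_gt E k with h | h
    · rw [show E - (k + 1) = E - k by omega, add_mul]; omega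
    · obtain ⟨z, hz⟩ : ∃ z, E - k = z + 1 := ⟨E - k - 1, by omega⟩
      rw [hz, tri] at ih
      rw [show E - (k + 1) = z by omega, add_mul]
      omega

theorem main2_card (j a : ℕ) : #(replicate j a).toFinset ≤ 1 := by
  rw [Multiset.toFinset_replicate]
  split_ifs <;> simp

theorem main2_fill {X t j : ℕ} (ht : 0 < t) (h : X ≤ j * t) :
    ∃ i, i ≤ j ∧ X ≤ i * t ∧ i * t ≤ X + t := by
  classical
  have hex : ∃ i, X ≤ i * t := ⟨j, h⟩
  refine ⟨Nat.find hex, Nat.find_min' hex h, Nat.find_spec hex, ?_⟩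
  rcases Nat.eq_zero_or_pos (Nat.find hex) with h0 | h0
  · rw [h0]; omega
  · obtain ⟨i, hi⟩ : ∃ i, Nat.find hex = i + 1 := ⟨Nat.find hex - 1, by omega⟩
    have := Nat.find_min hex (show i < Nat.find hex by omega)
    rw [hi, add_mul]
    omega

theorem main2 {μ P : ℕ} (hμ : 1 ≤ μ) (hP : 200000 * μ ≤ P) (E : ℕ) :
    ∀ (T : Multiset ℕ) (j w c : ℕ), (∀ v ∈ T, 0 < v ∧ v ≤ μ) → 0 < w → w ≤ μ → T ≠ 0 →
      3 * (10 ^ 10 * (P * P)) * #T.toFinset ≤ mm T → tri E ≤ mm T + j * tri w + c →
      BM (Dsp E E) (T + replicate j w + replicate c 1) 0 := by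
  classical
  induction E using Nat.strong_induction_on with
  | _ E ih =>
  intro T j w c hT w0 w1 T0 inv tot
  have hPP : 40000000000 * (μ * μ) ≤ P * P := by
    have := Nat.mul_le_mul hP hP
    linarith only [this]
  have htμ : tri μ ≤ μ * μ := by
    have := two_tri μ
    nlinarith only [this, hμ]
  have hμ1 : 1 ≤ μ * μ := Nat.mul_le_mul hμ hμ
  have hbig : ∀ N a, a ≤ μ → P * P ≤ N * tri a → 10 ^ 10 ≤ N := fun N a ha h => by
    have a1 : N * tri a ≤ N * (μ * μ) := Nat.mul_le_mul_left _ ((tri_mono ha).trans htμ)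
    exact Nat.le_of_mul_le_mul_right (c := μ * μ) (by omega) hμ1
  obtain ⟨a, ha, ha'⟩ := exists_heavy T0 inv
  by_cases h0 : tri E ≤ T.count a * tri a
  · refine BM.mono le_rfl ?_
      (base (c := 0) (hbig (T.count a) a (hT a ha).2 (by omega)) (hT a ha).1 (by omega))
    rw [Multiset.replicate_zero, add_zero, add_assoc]
    exact (Multiset.le_count_iff_replicate_le.1 le_rfl).trans (Multiset.le_add_right _ _)
  have hE : 200000 * P ≤ E := by
    by_contra hc
    have a1 := two_tri E
    have a2 : E * (E + 1) ≤ (200000 * P) * (200000 * P) := Nat.mul_le_mul (by omega) (by omega)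
    nlinarith only [a1, a2, ha', h0, Nat.zero_le (P * P)]
  have hPE : 200000 * (P * P) ≤ P * E := by
    have := Nat.mul_le_mul_left P hE
    linarith only [this]
  have hEE : 100000 * (P * E) ≤ tri E := by
    have a1 := two_tri E
    have a2 : E * (200000 * P) ≤ E * (E + 1) := Nat.mul_le_mul_left _ (by omega)
    linarith only [a1, a2]
  obtain ⟨X, hX⟩ : ∃ X, tri E = tri (E - 5 * P / 2) + X :=
    Nat.exists_eq_add_of_le (tri_mono (Nat.sub_le _ _))
  have hX' : 2 * X ≤ 5 * (P * E) := by
    have a1 := main2_tri E (5 * P / 2)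
    have a2 : 2 * (5 * P / 2) * E ≤ 5 * P * E := Nat.mul_le_mul_right E (by omega)
    linarith only [a1, a2, hX]
  have fin : ∀ (G : ℕ) (J T' : Multiset ℕ) (j' w' c' : ℕ),
      T + replicate j w + replicate c 1 = T' + replicate j' w' + replicate c' 1 + J →
      (∀ v ∈ J, 0 < v ∧ v ≤ μ) → #J.toFinset ≤ G → 10000 * (G + 4) * P ≤ E → X ≤ mm J →
      mm J ≤ X + tri μ → (∀ v ∈ T', 0 < v ∧ v ≤ μ) → 0 < w' → w' ≤ μ →
      3 * (10 ^ 10 * (P * P)) * #T'.toFinset ≤ mm T' → (T' = 0 → P * P ≤ j' * tri w') →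
      BM (Dsp E E) (T + replicate j w + replicate c 1) 0 := by
    intro G J T' j' w' c' e g1 g2 g3 g4 g5 g6 g7 g8 g9 g10
    have e' := congrArg mm e
    simp only [mm_add, mm_replicate, tri_one, mul_one] at e'
    rw [e]
    refine big_step2 hμ hP g1 g2 g3 (by omega) (by omega) (fun k hk c'' hc => ?_)
      (by simp only [mm_add, mm_replicate, tri_one, mul_one]; omega)
    simp only [mm_add, mm_replicate, tri_one, mul_one] at hc
    rw [add_assoc, ← Multiset.replicate_add]
    by_cases hz : T' = 0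
    · rw [hz, zero_add]
      rw [hz, mm_zero] at hc
      exact base (hbig _ _ g8 (g10 hz)) g7 (by omega)
    · exact ih (E - k) (by omega) T' j' w' (c' + c'') g6 g7 g8 hz g9 (by omega)
  have one : ∀ i v : ℕ, 0 < v → v ≤ μ → ∀ x ∈ replicate i v, 0 < x ∧ x ≤ μ :=
    fun i v h1 h2 x hx => by rw [Multiset.eq_of_mem_replicate hx]; exact ⟨h1, h2⟩
  by_cases hc : X ≤ c
  · obtain ⟨c', rfl⟩ := Nat.exists_eq_add_of_le hc
    exact fin 1 (replicate X 1) T j w c' (by rw [Multiset.replicate_add]; abel)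
      (one _ _ one_pos hμ) (main2_card _ _) (by omega) (by simp [tri_one]) (by simp [tri_one])
      hT w0 w1 inv fun h => absurd h T0
  by_cases hj : X ≤ j * tri w
  · obtain ⟨i, i1, i2, i3⟩ := main2_fill (tri_mono (a := 1) w0) hj
    obtain ⟨j', rfl⟩ := Nat.exists_eq_add_of_le i1
    have := tri_mono w1
    exact fin 1 (replicate i w) T j' w c (by rw [Multiset.replicate_add]; abel)
      (one _ _ w0 w1) (main2_card _ _) (by omega) (by simpa using i2)
      (by rw [mm_replicate]; omega) hT w0 w1 inv fun h => absurd h T0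
  obtain ⟨K, k1, k2⟩ : ∃ K, 1000000000 * K * P ≤ E ∧ E ≤ 1000000000 * (K + 1) * P := by
    have a1 := Nat.div_mul_le_self E (1000000000 * P)
    have a2 := Nat.lt_div_mul_add (a := E) (show 0 < 1000000000 * P by omega)
    exact ⟨E / (1000000000 * P), by linarith only [a1], by linarith only [a2]⟩
  have k2' : P * E ≤ 1000000000 * ((K + 1) * (P * P)) := by
    have := Nat.mul_le_mul_left P k2
    linarith only [this]
  obtain ⟨X', rfl⟩ : ∃ X', X = j * tri w + X' := Nat.exists_eq_add_of_le (by omega)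
  obtain ⟨J, T', j', w', m1, rfl, m3, m4, m5, m6⟩ :=
    select2 (μ := μ) (D := 10 ^ 10 * (P * P)) (by omega) (K + 1) T X' hT T0 inv (by omega)
      (by linarith only [k2', hX', Nat.zero_le (j * tri w), Nat.zero_le ((K + 1) * (P * P))])
  refine fin (1 + 2 * (K + 1)) (replicate j w + J) T' j' w' c (by abel) (fun v hv => ?_) ?_
    (by linarith only [k1, hE, Nat.zero_le (K * P), Nat.zero_le P]) (by simp; omega)
    (by simp; omega) (fun v hv => hT v (by simp [hv])) (hT w' m1).1 (hT w' m1).2 m6 fun hz => ?_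
  · rcases Multiset.mem_add.1 hv with h | h
    · exact one _ _ w0 w1 v h
    · exact hT v (by simp [h])
  · rw [Multiset.toFinset_add]
    exact (card_union_le _ _).trans (Nat.add_le_add (main2_card _ _) m3)
  · rw [hz] at tot
    simp only [mm_add, mm_replicate, mm_zero] at tot
    omega

end Pool.Agent.Lib.MP_6e81d8_ag.H22
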