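import Pool.Agent.Lib.MP_6e81d8_ag.H22.Select2

set_option autoImplicit false

namespace Pool.Agent.Lib.MP_6e81d8_ag.H22

open Polynomial Finset Module H36
open Multiset (replicate)

theorem pick {μ D K X j w c : ℕ} {T : Multiset ℕ} (hμ : 1 ≤ μ) (hD : tri μ ≤ D)
    (hT : ∀ v ∈ T, 0 < v ∧ v ≤ μ) (w0 : 0 < w) (w1 : w ≤ μ) (inv : 3 * D * #T.toFinset ≤ mm T)
    (hX : X ≤ mm T + j * tri w + c) (hK : X ≤ K * D) :
    ∃ (J T' : Multiset ℕ) (j' w' c' : ℕ),
      T + replicate j w + replicate c 1 = T' + replicate j' w' + replicate c' 1 + J ∧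
      (∀ v ∈ J, 0 < v ∧ v ≤ μ) ∧ #J.toFinset ≤ 2 * K + 2 ∧ X ≤ mm J ∧ mm J ≤ X + tri μ ∧
      (∀ v ∈ T', 0 < v ∧ v ≤ μ) ∧ 0 < w' ∧ w' ≤ μ ∧ 3 * D * #T'.toFinset ≤ mm T' := by
  have htw : tri w ≤ tri μ := tri_mono w1
  have r1 : ∀ n, ∀ v ∈ replicate n 1, 0 < v ∧ v ≤ μ := fun n v hv => by
    rw [Multiset.eq_of_mem_replicate hv]; exact ⟨one_pos, hμ⟩
  have rw' : ∀ n, ∀ v ∈ replicate n w, 0 < v ∧ v ≤ μ := fun n v hv => by
    rw [Multiset.eq_of_mem_replicate hv]; exact ⟨w0, w1⟩
  by_cases h1 : X ≤ c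
  · obtain ⟨e, rfl⟩ := Nat.exists_eq_add_of_le h1
    have := card_toFinset_replicate_le X 1
    refine ⟨replicate X 1, T, j, w, e, ?_, r1 X, by omega, by simp [tri_one], by simp [tri_one],
      hT, w0, w1, inv⟩
    rw [Multiset.replicate_add]; abel
  by_cases h2 : X ≤ c + j * tri w
  · obtain ⟨i, hi, k1, k2⟩ := s2_min (X := X - c) (t := tri w) (c := j) (by omega)
    obtain ⟨e, rfl⟩ := Nat.exists_eq_add_of_le hi
    have a1 := card_toFinset_replicate_le c 1
    have a2 := card_toFinset_replicate_le i w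
    have a3 := card_toFinset_add_le (replicate c 1) (replicate i w)
    refine ⟨replicate c 1 + replicate i w, T, e, w, 0, ?_, ?_, by omega, ?_, ?_, hT, w0, w1, inv⟩
    · rw [Multiset.replicate_add, Multiset.replicate_zero]; abel
    · intro v hv
      rcases Multiset.mem_add.1 hv with hv | hv
      exacts [r1 _ v hv, rw' _ v hv]
    · simp only [mm_add, mm_replicate, tri_one]; omega
    · simp only [mm_add, mm_replicate, tri_one]; omega
  have h0 : T ≠ 0 := by
    rintro rfl
    rw [mm_zero] at hX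
    omega
  obtain ⟨J, T', j', w', hw', e, k1, k2, k3, k4⟩ :=
    select2 hD K T (X - c - j * tri w) hT h0 inv (by omega) (by omega)
  have a1 := card_toFinset_replicate_le c 1
  have a2 := card_toFinset_replicate_le j w
  have a3 := card_toFinset_add_le (replicate c 1) (replicate j w)
  have a4 := card_toFinset_add_le (replicate c 1 + replicate j w) J
  refine ⟨replicate c 1 + replicate j w + J, T', j', w', 0, ?_, ?_, by omega, ?_, ?_, ?_,
    (hT w' hw').1, (hT w' hw').2, k4⟩
  · rw [Multiset.replicate_zero]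
    conv_lhs => rw [e]
    abel
  · intro v hv
    rcases Multiset.mem_add.1 hv with hv | hv
    · rcases Multiset.mem_add.1 hv with hv | hv
      exacts [r1 _ v hv, rw' _ v hv]
    · exact hT v (by rw [e]; simp [hv])
  · simp only [mm_add, mm_replicate, tri_one]; omega
  · simp only [mm_add, mm_replicate, tri_one]; omega
  · intro v hv
    exact hT v (by rw [e]; simp [hv])

end Pool.Agent.Lib.MP_6e81d8_ag.H22
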