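import Pool.Agent.Lib.MP_6e81d8_ag.H22.Sys
import Pool.Agent.Lib.MP_6e81d8_ag.H22.BigStep3
import Pool.Agent.Lib.MP_6e81d8_ag.H22.FinStrip
import Pool.Agent.Lib.MP_6e81d8_ag.H22.Pick

/-!
The induction on the degree with three free points, the first of them large.
-/

set_option autoImplicit false

namespace Pool.Agent.Lib.MP_6e81d8_ag.H22

open Polynomial Finset Module H36
open Multiset (replicate)

theorem main3_tri (a b : ℕ) : tri (a + b) = tri a + tri b + a * b := by
  have h1 := two_tri (a + b)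
  have h2 := two_tri a
  have h3 := two_tri b
  nlinarith only [h1, h2, h3]

theorem main3 {μ P m₁ : ℕ} (hμ : 1 ≤ μ) (hP : 200000 * μ ≤ P) (hm : 2000000 * P ≤ m₁) (E : ℕ) :
    ∀ (m₂ m₃ : ℕ) (T : Multiset ℕ) (j w c : ℕ), (∀ v ∈ T, 0 < v ∧ v ≤ μ) → 0 < w → w ≤ μ →
      3 * (10 ^ 10 * (P * P)) * #T.toFinset ≤ mm T → m₁ + m₂ + m₃ + 1 ≤ E → m₁ + 5 * P ≤ E →
      tri E ≤ tri m₁ + tri m₂ + tri m₃ + (mm T + j * tri w + c) →
      BM (Dsp E E) ({m₁} + {m₂} + {m₃} + (T + replicate j w + replicate c 1)) 0 := by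
  classical
  induction E using Nat.strong_induction_on with
  | _ E ih =>
  intro m₂ m₃ T j w c hT w0 w1 inv std hH tot
  have hPP : 40000000000 * (μ * μ) ≤ P * P := by
    have := Nat.mul_le_mul hP hP
    linarith only [this]
  have htμ : tri μ ≤ μ * μ := by
    have := two_tri μ
    nlinarith only [this, hμ]
  obtain ⟨H, rfl⟩ : ∃ H, E = m₁ + H := ⟨E - m₁, by omega⟩
  obtain ⟨A, hA, hA1, hA2⟩ : ∃ A, tri (m₁ + H) = tri m₁ + tri m₂ + tri m₃ + A ∧ m₁ * H ≤ A ∧
      A ≤ H * (m₁ + H) := by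
    have a1 := main3_tri m₁ H
    have a2 := main3_tri m₂ m₃
    have a3 : tri (m₂ + m₃) ≤ tri H := tri_mono (by omega)
    have a4 := two_tri H
    have a5 : H ≤ H * H := Nat.le_mul_self H
    exact ⟨tri (m₁ + H) - (tri m₁ + tri m₂ + tri m₃), by omega, by omega,
      by rw [mul_add, mul_comm H m₁]; rw [mul_add] at a4; omega⟩
  have div : ∀ W q : ℕ, 0 < q → ∃ K, q * K * P ≤ W ∧ P * W ≤ q * ((K + 1) * (P * P)) :=
    fun W q hq => by
      have a1 := Nat.div_mul_le_self W (q * P)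
      have a2 := Nat.lt_div_mul_add (a := W) (show 0 < q * P from Nat.mul_pos hq (by omega))
      have a3 := Nat.mul_le_mul_left P a2.le
      exact ⟨W / (q * P), by linarith only [a1], by linarith only [a3]⟩
  by_cases hfin : H ≤ 14 * P
  · obtain ⟨K, k1, k2⟩ := div (m₁ + H) 100000000 (by norm_num)
    have a1 : H * (m₁ + H) ≤ 14 * P * (m₁ + H) := Nat.mul_le_mul_right _ hfin
    obtain ⟨J, T', j', w', c', e, g1, g2, g3, -⟩ := pick (D := 10 ^ 10 * (P * P)) (K := K + 1)
      (X := A) (j := j) (c := c) hμ (by omega) hT w0 w1 inv (by omega)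
      (by linarith only [a1, k2, hA2, Nat.zero_le ((K + 1) * (P * P))])
    have a2 : (2 * (K + 1) + 2 + 6) * H ≤ (2 * (K + 1) + 2 + 6) * (14 * P) :=
      Nat.mul_le_mul_left _ hfin
    have := fin_strip (E := m₁ + H) (m := m₁) (J₂ := {m₂} + {m₃}) hμ (by omega) (by omega) g1
      (fun v hv => by
        simp only [Multiset.mem_add, Multiset.mem_singleton] at hv
        omega) (by simp) g2
      (by
        rw [Nat.add_sub_cancel_left]
        linarith only [a2, k1, hm, Nat.zero_le H, Nat.zero_le (K * P), Nat.zero_le P])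
      (by simp only [mm_add, mm_singleton]; omega)
    refine BM.mono le_rfl (Multiset.le_iff_exists_add.2
      ⟨T' + replicate j' w' + replicate c' 1, ?_⟩) this
    rw [e]
    abel
  have hA3 : 6 * (P * (m₁ + H)) ≤ A := by
    have a1 : m₁ * (14 * P) ≤ m₁ * H := Nat.mul_le_mul_left _ (by omega)
    have a2 : (14 * P) * H ≤ m₁ * H := Nat.mul_le_mul_right _ (by omega)
    linarith only [a1, a2, hA1, Nat.zero_le (P * m₁), Nat.zero_le (P * H)]
  have step : ∀ (W : ℕ) (Pl : ℕ → Multiset ℕ) (St : ℕ → Submodule ℂ R) (l : ℕ → ℕ)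
      (B : Multiset ℕ), CutSys (m₁ + H) W (3 * P) Pl St l → m₁ ≤ W → W ≤ m₁ + H →
      {m₁} + {m₂} + {m₃} = Pl 0 + B →
      (∀ k ≤ 3 * P, ∃ n₂ n₃, Pl k + B = {m₁} + {n₂} + {n₃} ∧ m₁ + n₂ + n₃ + 1 + k ≤ m₁ + H) →
      BM (Dsp (m₁ + H) (m₁ + H))
        ({m₁} + {m₂} + {m₃} + (T + replicate j w + replicate c 1)) 0 := by
    intro W Pl St l B sys hW1 hW2 e0 ek
    obtain ⟨K, k1, k2⟩ := div W 1000000000 (by norm_num)
    have hX : 2 * ∑ t ∈ range (5 * P / 2), l t ≤ 5 * (P * W) := by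
      have a1 := Finset.sum_le_card_nsmul (range (5 * P / 2)) l W fun t _ => sys.hi t
      rw [card_range, smul_eq_mul] at a1
      have a2 : 2 * (5 * P / 2) * W ≤ 5 * P * W := Nat.mul_le_mul_right W (by omega)
      linarith only [a1, a2]
    have a3 : P * W ≤ P * (m₁ + H) := Nat.mul_le_mul_left _ hW2
    obtain ⟨J, T', j', w', c', e, g1, g2, g3, g4, g5, g6, g7, g8⟩ :=
      pick (D := 10 ^ 10 * (P * P)) (K := K + 1) (X := ∑ t ∈ range (5 * P / 2), l t) (j := j)
        (c := c) hμ (by omega) hT w0 w1 inv (by omega)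
        (by linarith only [hX, k2, Nat.zero_le ((K + 1) * (P * P))])
    have e' := congrArg mm e
    have e0' := congrArg mm e0
    simp only [mm_add, mm_replicate, mm_singleton, tri_one, mul_one] at e' e0'
    have := big_step3 sys (I := B + (T' + replicate j' w' + replicate c' 1)) hμ hP g1 g2
      (by linarith only [k1, hm, hW1, Nat.zero_le (K * P), Nat.zero_le P]) (by omega) g3
      (by omega) (fun k hk hk' c'' hc => by
        obtain ⟨n₂, n₃, e1, e2⟩ := ek k hk'
        have e1' := congrArg mm e1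
        simp only [mm_add, mm_replicate, mm_singleton, tri_one, mul_one] at e1' hc
        have := ih (m₁ + H - k) (by omega) n₂ n₃ T' j' w' (c' + c'') g5 g6 g7 g8 (by omega)
          (by omega) (by omega)
        convert this using 1
        rw [← e1, Multiset.replicate_add]
        abel)
      (by simp only [mm_add, mm_replicate, tri_one, mul_one]; omega)
    convert this using 1
    rw [e, e0]
    abel
  by_cases h2 : 3 * P ≤ m₂
  · exact step _ _ _ _ ({m₁} + {m₃}) (sys_fibre h2 (by omega)) (by omega) (by omega)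
      (by simp only [Nat.sub_zero]; abel) fun k hk => ⟨m₂ - k, m₃, by abel, by omega⟩
  by_cases h3 : 3 * P ≤ m₃
  · exact step _ _ _ _ ({m₁} + {m₂}) (sys_fibre h3 (by omega)) (by omega) (by omega)
      (by simp only [Nat.sub_zero]; abel) fun k hk => ⟨m₂, m₃ - k, by abel, by omega⟩
  · exact step _ _ _ _ ({m₁} + {m₂} + {m₃}) (sys_line (by omega)) (by omega) le_rfl
      (zero_add _).symm fun k hk => ⟨m₂, m₃, zero_add _, by omega⟩

end Pool.Agent.Lib.MP_6e81d8_ag.H22
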