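import Pool.Agent.Lib.MP_6e81d8_ag.H22.Cremona

set_option autoImplicit false

namespace Pool.Agent.Lib.MP_6e81d8_ag.H22

open Polynomial Finset Module H36
open Multiset (replicate)

theorem ma_Bg {a1 a2 a3 a4 a5 a6 a7 a8 : ℕ} (x1 x2 x3 x4 x5 : ℕ)
    (h1 : a1 + a2 + a3 + a4 + a5 + a6 + a7 + a8 = x1) (h2 : a2 + a3 + a4 + a5 + a6 + a7 + a8 = x2)
    (h3 : a3 + a4 + a5 + a6 + a7 + a8 = x3) (h4 : a4 + a5 + a6 + a7 + a8 = x4)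
    (h5 : a5 + a6 + a7 + a8 = x5) :
    Bg a1 a2 a3 a4 a5 a6 a7 a8 =
      {x1} + {x2} + {x3} + {x4} + {x5} + ({a6 + a7 + a8} + {a7 + a8} + {a8}) := by
  unfold Bg
  rw [h1, h2, h3, h4, h5]
  abel

theorem ma_cast {d d' e e' : ℕ} {B B' C C' : Multiset ℕ} (h : Eqv d B d' B') (h1 : e = d)
    (h2 : C = B) (h3 : e' = d') (h4 : C' = B') : Eqv e C e' C' := by
  subst h1 h2 h3 h4
  exact h

theorem move2 (a0 a1 a2 a3 a4 a5 a6 a7 a8 K : ℕ) (h : K ≤ a2) :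
    Move K (a0 + a1 + a2 + a3 + a4 + a5 + a6 + a7 + a8)
      (fun k => dg a0 (a1 + k) (a2 - k) a3 a4 a5 a6 a7 a8)
      (fun k => Bg (a1 + k) (a2 - k) a3 a4 a5 a6 a7 a8) := by
  obtain ⟨m5, h5⟩ : ∃ m, m = a5 + a6 + a7 + a8 := ⟨_, rfl⟩
  obtain ⟨m4, h4⟩ : ∃ m, m = a4 + m5 := ⟨_, rfl⟩
  obtain ⟨m3, h3⟩ : ∃ m, m = a3 + m4 := ⟨_, rfl⟩
  obtain ⟨m2, h2⟩ : ∃ m, m = a2 + m3 := ⟨_, rfl⟩
  obtain ⟨m1, h1⟩ : ∃ m, m = a1 + m2 := ⟨_, rfl⟩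
  refine ⟨a0 + m1 + m2 + m3, m2, {m1} + {m3} + {m4} + {m5} +
    ({a6 + a7 + a8} + {a7 + a8} + {a8}), by omega, by omega, fun k hk => ?_⟩
  refine ma_cast (Eqv.refl _ _) ?_ ?_ rfl rfl
  · simp only [dg]
    omega
  · simp only
    rw [ma_Bg m1 (m2 - k) m3 m4 m5
      (by omega) (by omega) (by omega) (by omega) (by omega)]
    abel

theorem move3 (a0 a1 a2 a3 a4 a5 a6 a7 a8 K : ℕ) (h : K ≤ a3) :
    Move K (a0 + a1 + a2 + a3 + a4 + a5 + a6 + a7 + a8)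
      (fun k => dg a0 a1 (a2 + k) (a3 - k) a4 a5 a6 a7 a8)
      (fun k => Bg a1 (a2 + k) (a3 - k) a4 a5 a6 a7 a8) := by
  obtain ⟨m5, h5⟩ : ∃ m, m = a5 + a6 + a7 + a8 := ⟨_, rfl⟩
  obtain ⟨m4, h4⟩ : ∃ m, m = a4 + m5 := ⟨_, rfl⟩
  obtain ⟨m3, h3⟩ : ∃ m, m = a3 + m4 := ⟨_, rfl⟩
  obtain ⟨m2, h2⟩ : ∃ m, m = a2 + m3 := ⟨_, rfl⟩
  obtain ⟨m1, h1⟩ : ∃ m, m = a1 + m2 := ⟨_, rfl⟩
  refine ⟨a0 + m1 + m2 + m3, m3, {m1} + {m2} + {m4} + {m5} +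
    ({a6 + a7 + a8} + {a7 + a8} + {a8}), by omega, by omega, fun k hk => ?_⟩
  refine ma_cast (Eqv.refl _ _) ?_ ?_ rfl rfl
  · simp only [dg]
    omega
  · simp only
    rw [ma_Bg m1 m2 (m3 - k) m4 m5
      (by omega) (by omega) (by omega) (by omega) (by omega)]
    abel

theorem move4' (a0 a1 a2 a3 a4 a5 a6 a7 a8 K : ℕ) (h : K ≤ a4) (h0 : K ≤ a0) :
    Move K (a0 + a1 + a2 + a3 + a4 + a5 + a6 + a7 + a8)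
      (fun k => dg (a0 - k) a1 a2 (a3 + k) (a4 - k) a5 a6 a7 a8)
      (fun k => Bg a1 a2 (a3 + k) (a4 - k) a5 a6 a7 a8) := by
  obtain ⟨m5, h5⟩ : ∃ m, m = a5 + a6 + a7 + a8 := ⟨_, rfl⟩
  obtain ⟨m4, h4⟩ : ∃ m, m = a4 + m5 := ⟨_, rfl⟩
  obtain ⟨m3, h3⟩ : ∃ m, m = a3 + m4 := ⟨_, rfl⟩
  obtain ⟨m2, h2⟩ : ∃ m, m = a2 + m3 := ⟨_, rfl⟩
  obtain ⟨m1, h1⟩ : ∃ m, m = a1 + m2 := ⟨_, rfl⟩
  refine ⟨a0 + m1 + m2 + m3, m4, {m1} + {m2} + {m3} + {m5} +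
    ({a6 + a7 + a8} + {a7 + a8} + {a8}), by omega, by omega, fun k hk => ?_⟩
  refine ma_cast (Eqv.refl _ _) ?_ ?_ rfl rfl
  · simp only [dg]
    omega
  · simp only
    rw [ma_Bg m1 m2 m3 (m4 - k) m5
      (by omega) (by omega) (by omega) (by omega) (by omega)]
    abel

theorem move4 (a0 a1 a2 a3 a4 a5 a6 a7 a8 K : ℕ) (h : K ≤ a4) :
    Move K (a0 + a1 + a2 + a3 + a4 + a5 + a6 + a7 + a8)
      (fun k => dg (a0 + k) a1 a2 a3 (a4 - k) a5 a6 a7 a8)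
      (fun k => Bg a1 a2 a3 (a4 - k) a5 a6 a7 a8) := by
  obtain ⟨m5, h5⟩ : ∃ m, m = a5 + a6 + a7 + a8 := ⟨_, rfl⟩
  obtain ⟨m4, h4⟩ : ∃ m, m = a4 + m5 := ⟨_, rfl⟩
  obtain ⟨m3, h3⟩ : ∃ m, m = a3 + m4 := ⟨_, rfl⟩
  obtain ⟨m2, h2⟩ : ∃ m, m = a2 + m3 := ⟨_, rfl⟩
  obtain ⟨m1, h1⟩ : ∃ m, m = a1 + m2 := ⟨_, rfl⟩
  refine ⟨a0 + m1 + m2 + m3 + a0, m4, {a0 + m1} + {a0 + m2} + {a0 + m3} + {m5} +
    ({a6 + a7 + a8} + {a7 + a8} + {a8}), by omega, by omega, fun k hk => ?_⟩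
  refine ma_cast (Eqv.crem (d := a0 + m1 + m2 + m3 - 2 * k) (d' := a0 + m1 + m2 + m3 + a0 - k)
    (a := m1 - k) (b := m2 - k) (c := m3 - k) (a' := a0 + m1) (b' := a0 + m2) (c' := a0 + m3)
    ({m4 - k} + {m5} + ({a6 + a7 + a8} + {a7 + a8} + {a8}))
    (by omega) (by omega) (by omega) (by omega)) ?_ ?_ rfl ?_
  · simp only [dg]
    omega
  · simp only
    rw [ma_Bg (m1 - k) (m2 - k) (m3 - k) (m4 - k) m5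
      (by omega) (by omega) (by omega) (by omega) (by omega)]
    abel
  · abel

theorem move5 (a0 a1 a2 a3 a4 a5 a6 a7 a8 K : ℕ) (h : K ≤ a5) :
    Move K (a0 + a1 + a2 + a3 + a4 + a5 + a6 + a7 + a8)
      (fun k => dg a0 (a1 + k) a2 a3 a4 (a5 - k) a6 a7 a8)
      (fun k => Bg (a1 + k) a2 a3 a4 (a5 - k) a6 a7 a8) := by
  obtain ⟨m5, h5⟩ : ∃ m, m = a5 + a6 + a7 + a8 := ⟨_, rfl⟩
  obtain ⟨m4, h4⟩ : ∃ m, m = a4 + m5 := ⟨_, rfl⟩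
  obtain ⟨m3, h3⟩ : ∃ m, m = a3 + m4 := ⟨_, rfl⟩
  obtain ⟨m2, h2⟩ : ∃ m, m = a2 + m3 := ⟨_, rfl⟩
  obtain ⟨m1, h1⟩ : ∃ m, m = a1 + m2 := ⟨_, rfl⟩
  obtain ⟨e, he⟩ : ∃ m, m = a0 + a1 + a2 + a3 := ⟨_, rfl⟩
  refine ⟨a0 + m1 + m2 + m3 + e, m5, {m1} + {e + m2} + {e + m3} + {e + m4} +
    ({a6 + a7 + a8} + {a7 + a8} + {a8}), by omega, by omega, fun k hk => ?_⟩
  refine ma_cast (Eqv.crem (d := a0 + m1 + m2 + m3 - 2 * k) (d' := a0 + m1 + m2 + m3 + e - k)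
    (a := m2 - k) (b := m3 - k) (c := m4 - k) (a' := e + m2) (b' := e + m3) (c' := e + m4)
    ({m1} + {m5 - k} + ({a6 + a7 + a8} + {a7 + a8} + {a8}))
    (by omega) (by omega) (by omega) (by omega)) ?_ ?_ rfl ?_
  · simp only [dg]
    omega
  · simp only
    rw [ma_Bg m1 (m2 - k) (m3 - k) (m4 - k) (m5 - k)
      (by omega) (by omega) (by omega) (by omega) (by omega)]
    abel
  · abel

end Pool.Agent.Lib.MP_6e81d8_ag.H22
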