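import Pool.Agent.Lib.MP_6e81d8_ag.H22.Cremona

set_option autoImplicit false

namespace Pool.Agent.Lib.MP_6e81d8_ag.H22

open Polynomial Finset Module H36
open Multiset (replicate)

/-- Eight multiplicities. -/
def mvB_M (m1 m2 m3 m4 m5 m6 m7 m8 : ℕ) : Multiset ℕ :=
  {m1} + {m2} + {m3} + {m4} + {m5} + {m6} + {m7} + {m8}

theorem mvB_cr123 {d d' m1 m2 m3 m4 m5 m6 m7 m8 x y z : ℕ} (hd : d' + m1 + m2 + m3 = 2 * d)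
    (ha : x + m2 + m3 = d) (hb : y + m1 + m3 = d) (hc : z + m1 + m2 = d) :
    Eqv d (mvB_M m1 m2 m3 m4 m5 m6 m7 m8) d' (mvB_M x y z m4 m5 m6 m7 m8) := by
  convert Eqv.crem ({m4} + {m5} + {m6} + {m7} + {m8}) hd ha hb hc using 1 <;> unfold mvB_M <;> abel

theorem mvB_cr156 {d d' m1 m2 m3 m4 m5 m6 m7 m8 x y z : ℕ} (hd : d' + m1 + m5 + m6 = 2 * d)
    (ha : x + m5 + m6 = d) (hb : y + m1 + m6 = d) (hc : z + m1 + m5 = d) :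
    Eqv d (mvB_M m1 m2 m3 m4 m5 m6 m7 m8) d' (mvB_M x m2 m3 m4 y z m7 m8) := by
  convert Eqv.crem ({m2} + {m3} + {m4} + {m7} + {m8}) hd ha hb hc using 1 <;> unfold mvB_M <;> abel

theorem mvB_cr234 {d d' m1 m2 m3 m4 m5 m6 m7 m8 x y z : ℕ} (hd : d' + m2 + m3 + m4 = 2 * d)
    (ha : x + m3 + m4 = d) (hb : y + m2 + m4 = d) (hc : z + m2 + m3 = d) :
    Eqv d (mvB_M m1 m2 m3 m4 m5 m6 m7 m8) d' (mvB_M m1 x y z m5 m6 m7 m8) := by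
  convert Eqv.crem ({m1} + {m5} + {m6} + {m7} + {m8}) hd ha hb hc using 1 <;> unfold mvB_M <;> abel

theorem mvB_cr278 {d d' m1 m2 m3 m4 m5 m6 m7 m8 x y z : ℕ} (hd : d' + m2 + m7 + m8 = 2 * d)
    (ha : x + m7 + m8 = d) (hb : y + m2 + m8 = d) (hc : z + m2 + m7 = d) :
    Eqv d (mvB_M m1 m2 m3 m4 m5 m6 m7 m8) d' (mvB_M m1 x m3 m4 m5 m6 y z) := by
  convert Eqv.crem ({m1} + {m3} + {m4} + {m5} + {m6}) hd ha hb hc using 1 <;> unfold mvB_M <;> abel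

theorem mvB_cr345 {d d' m1 m2 m3 m4 m5 m6 m7 m8 x y z : ℕ} (hd : d' + m3 + m4 + m5 = 2 * d)
    (ha : x + m4 + m5 = d) (hb : y + m3 + m5 = d) (hc : z + m3 + m4 = d) :
    Eqv d (mvB_M m1 m2 m3 m4 m5 m6 m7 m8) d' (mvB_M m1 m2 x y z m6 m7 m8) := by
  convert Eqv.crem ({m1} + {m2} + {m6} + {m7} + {m8}) hd ha hb hc using 1 <;> unfold mvB_M <;> abel

theorem mvB_cr456 {d d' m1 m2 m3 m4 m5 m6 m7 m8 x y z : ℕ} (hd : d' + m4 + m5 + m6 = 2 * d)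
    (ha : x + m5 + m6 = d) (hb : y + m4 + m6 = d) (hc : z + m4 + m5 = d) :
    Eqv d (mvB_M m1 m2 m3 m4 m5 m6 m7 m8) d' (mvB_M m1 m2 m3 x y z m7 m8) := by
  convert Eqv.crem ({m1} + {m2} + {m3} + {m7} + {m8}) hd ha hb hc using 1 <;> unfold mvB_M <;> abel

theorem mvB_cr567 {d d' m1 m2 m3 m4 m5 m6 m7 m8 x y z : ℕ} (hd : d' + m5 + m6 + m7 = 2 * d)
    (ha : x + m6 + m7 = d) (hb : y + m5 + m7 = d) (hc : z + m5 + m6 = d) :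
    Eqv d (mvB_M m1 m2 m3 m4 m5 m6 m7 m8) d' (mvB_M m1 m2 m3 m4 x y z m8) := by
  convert Eqv.crem ({m1} + {m2} + {m3} + {m4} + {m8}) hd ha hb hc using 1 <;> unfold mvB_M <;> abel

theorem mvB_cr678 {d d' m1 m2 m3 m4 m5 m6 m7 m8 x y z : ℕ} (hd : d' + m6 + m7 + m8 = 2 * d)
    (ha : x + m7 + m8 = d) (hb : y + m6 + m8 = d) (hc : z + m6 + m7 = d) :
    Eqv d (mvB_M m1 m2 m3 m4 m5 m6 m7 m8) d' (mvB_M m1 m2 m3 m4 m5 x y z) := by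
  convert Eqv.crem ({m1} + {m2} + {m3} + {m4} + {m5}) hd ha hb hc using 1 <;> unfold mvB_M <;> abel

theorem mvB_eqv6 (a0 a1 a2 a3 a4 a5 a6 a7 a8 d m b1 b2 b3 b4 b5 b6 b7 : ℕ)
    (hd : d = 4 * a0 + 3 * a1 + 6 * a2 + 9 * a3 + 7 * a4 + 5 * a5 + 3 * a6 + 3 * a7 + 3 * a8)
    (hm : m = a0 + a1 + 2 * a2 + 3 * a3 + 2 * a4 + a5 + a6 + a7 + a8)
    (h1 : b1 = 2 * a0 + 2 * a1 + 3 * a2 + 4 * a3 + 3 * a4 + 2 * a5 + a6 + a7 + a8)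
    (h2 : b2 = 2 * a0 + a1 + 3 * a2 + 4 * a3 + 3 * a4 + 2 * a5 + a6 + a7 + a8)
    (h3 : b3 = 2 * a0 + a1 + 2 * a2 + 4 * a3 + 3 * a4 + 2 * a5 + a6 + a7 + a8)
    (h4 : b4 = a0 + a1 + 2 * a2 + 3 * a3 + 3 * a4 + 2 * a5 + a6 + a7 + a8)
    (h5 : b5 = a0 + a1 + 2 * a2 + 3 * a3 + 2 * a4 + 2 * a5 + a6 + a7 + a8)
    (h6 : b6 = a7 + a8)
    (h7 : b7 = a8) :
    Eqv (dg a0 a1 a2 a3 a4 a5 a6 a7 a8) (Bg a1 a2 a3 a4 a5 a6 a7 a8) d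
      ({m} + ({b1} + {b2} + {b3} + {b4} + {b5} + {b6} + {b7})) := by
  have e0 : Eqv (dg a0 a1 a2 a3 a4 a5 a6 a7 a8) (Bg a1 a2 a3 a4 a5 a6 a7 a8) _ (mvB_M _ _ _ _ _ _ _ _) := Eqv.refl _ _
  have e1 := e0.trans (mvB_cr456 (d' := 2 * a0 + 2 * a1 + 4 * a2 + 6 * a3 + 5 * a4 + 4 * a5 + 3 * a6 + 3 * a7 + 3 * a8)
    (x := a0 + a1 + 2 * a2 + 3 * a3 + 3 * a4 + 2 * a5 + a6 + a7 + a8)
    (y := a0 + a1 + 2 * a2 + 3 * a3 + 2 * a4 + 2 * a5 + a6 + a7 + a8)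
    (z := a0 + a1 + 2 * a2 + 3 * a3 + 2 * a4 + a5 + a6 + a7 + a8)
    (by unfold dg; omega) (by unfold dg; omega) (by unfold dg; omega) (by unfold dg; omega))
  have e2 := e1.trans (mvB_cr123 (d' := 4 * a0 + 3 * a1 + 6 * a2 + 9 * a3 + 7 * a4 + 5 * a5 + 3 * a6 + 3 * a7 + 3 * a8)
    (x := 2 * a0 + 2 * a1 + 3 * a2 + 4 * a3 + 3 * a4 + 2 * a5 + a6 + a7 + a8)
    (y := 2 * a0 + a1 + 3 * a2 + 4 * a3 + 3 * a4 + 2 * a5 + a6 + a7 + a8)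
    (z := 2 * a0 + a1 + 2 * a2 + 4 * a3 + 3 * a4 + 2 * a5 + a6 + a7 + a8)
    (by omega) (by omega) (by omega) (by omega))
  subst hd hm h1 h2 h3 h4 h5 h6 h7
  convert e2 using 1
  unfold mvB_M
  abel

theorem mvB_eqv7 (a0 a1 a2 a3 a4 a5 a6 a7 a8 d m b1 b2 b3 b4 b5 b6 b7 : ℕ)
    (hd : d = 6 * a0 + 5 * a1 + 8 * a2 + 11 * a3 + 9 * a4 + 7 * a5 + 5 * a6 + 3 * a7 + 3 * a8)
    (hm : m = a0 + a1 + a2 + a3 + a4 + a5 + a6 + a7 + a8)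
    (h1 : b1 = 2 * a0 + 2 * a1 + 3 * a2 + 4 * a3 + 4 * a4 + 3 * a5 + 2 * a6 + a7 + a8)
    (h2 : b2 = 3 * a0 + 2 * a1 + 4 * a2 + 5 * a3 + 4 * a4 + 3 * a5 + 2 * a6 + a7 + a8)
    (h3 : b3 = 3 * a0 + 2 * a1 + 3 * a2 + 5 * a3 + 4 * a4 + 3 * a5 + 2 * a6 + a7 + a8)
    (h4 : b4 = 2 * a0 + 2 * a1 + 3 * a2 + 4 * a3 + 3 * a4 + 3 * a5 + 2 * a6 + a7 + a8)
    (h5 : b5 = 2 * a0 + 2 * a1 + 3 * a2 + 4 * a3 + 3 * a4 + 2 * a5 + 2 * a6 + a7 + a8)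
    (h6 : b6 = 2 * a0 + 2 * a1 + 3 * a2 + 4 * a3 + 3 * a4 + 2 * a5 + a6 + a7 + a8)
    (h7 : b7 = a8) :
    Eqv (dg a0 a1 a2 a3 a4 a5 a6 a7 a8) (Bg a1 a2 a3 a4 a5 a6 a7 a8) d
      ({m} + ({b1} + {b2} + {b3} + {b4} + {b5} + {b6} + {b7})) := by
  have e0 : Eqv (dg a0 a1 a2 a3 a4 a5 a6 a7 a8) (Bg a1 a2 a3 a4 a5 a6 a7 a8) _ (mvB_M _ _ _ _ _ _ _ _) := Eqv.refl _ _
  have e1 := e0.trans (mvB_cr234 (d' := 2 * a0 + 2 * a1 + 3 * a2 + 4 * a3 + 3 * a4 + 3 * a5 + 3 * a6 + 3 * a7 + 3 * a8)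
    (x := a0 + a1 + 2 * a2 + 2 * a3 + a4 + a5 + a6 + a7 + a8)
    (y := a0 + a1 + a2 + 2 * a3 + a4 + a5 + a6 + a7 + a8)
    (z := a0 + a1 + a2 + a3 + a4 + a5 + a6 + a7 + a8)
    (by unfold dg; omega) (by unfold dg; omega) (by unfold dg; omega) (by unfold dg; omega))
  have e2 := e1.trans (mvB_cr567 (d' := 4 * a0 + 4 * a1 + 6 * a2 + 8 * a3 + 6 * a4 + 5 * a5 + 4 * a6 + 3 * a7 + 3 * a8)
    (x := 2 * a0 + 2 * a1 + 3 * a2 + 4 * a3 + 3 * a4 + 3 * a5 + 2 * a6 + a7 + a8)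
    (y := 2 * a0 + 2 * a1 + 3 * a2 + 4 * a3 + 3 * a4 + 2 * a5 + 2 * a6 + a7 + a8)
    (z := 2 * a0 + 2 * a1 + 3 * a2 + 4 * a3 + 3 * a4 + 2 * a5 + a6 + a7 + a8)
    (by omega) (by omega) (by omega) (by omega))
  have e3 := e2.trans (mvB_cr123 (d' := 6 * a0 + 5 * a1 + 8 * a2 + 11 * a3 + 9 * a4 + 7 * a5 + 5 * a6 + 3 * a7 + 3 * a8)
    (x := 2 * a0 + 2 * a1 + 3 * a2 + 4 * a3 + 4 * a4 + 3 * a5 + 2 * a6 + a7 + a8)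
    (y := 3 * a0 + 2 * a1 + 4 * a2 + 5 * a3 + 4 * a4 + 3 * a5 + 2 * a6 + a7 + a8)
    (z := 3 * a0 + 2 * a1 + 3 * a2 + 5 * a3 + 4 * a4 + 3 * a5 + 2 * a6 + a7 + a8)
    (by omega) (by omega) (by omega) (by omega))
  subst hd hm h1 h2 h3 h4 h5 h6 h7
  convert e3 using 1
  unfold mvB_M
  abel

theorem mvB_eqv8 (a0 a1 a2 a3 a4 a5 a6 a7 a8 d m b1 b2 b3 b4 b5 b6 b7 : ℕ)
    (hd : d = 14 * a0 + 11 * a1 + 20 * a2 + 29 * a3 + 24 * a4 + 18 * a5 + 13 * a6 + 8 * a7 + 3 * a8)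
    (hm : m = 3 * a0 + 3 * a1 + 5 * a2 + 7 * a3 + 6 * a4 + 4 * a5 + 3 * a6 + 2 * a7 + a8)
    (h1 : b1 = 5 * a0 + 4 * a1 + 7 * a2 + 10 * a3 + 8 * a4 + 6 * a5 + 5 * a6 + 3 * a7 + a8)
    (h2 : b2 = 5 * a0 + 4 * a1 + 7 * a2 + 11 * a3 + 9 * a4 + 7 * a5 + 5 * a6 + 3 * a7 + a8)
    (h3 : b3 = 5 * a0 + 4 * a1 + 7 * a2 + 10 * a3 + 9 * a4 + 7 * a5 + 5 * a6 + 3 * a7 + a8)
    (h4 : b4 = 5 * a0 + 4 * a1 + 8 * a2 + 11 * a3 + 9 * a4 + 7 * a5 + 5 * a6 + 3 * a7 + a8)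
    (h5 : b5 = 6 * a0 + 4 * a1 + 8 * a2 + 12 * a3 + 10 * a4 + 7 * a5 + 5 * a6 + 3 * a7 + a8)
    (h6 : b6 = 5 * a0 + 4 * a1 + 7 * a2 + 10 * a3 + 8 * a4 + 6 * a5 + 4 * a6 + 3 * a7 + a8)
    (h7 : b7 = 5 * a0 + 4 * a1 + 7 * a2 + 10 * a3 + 8 * a4 + 6 * a5 + 4 * a6 + 2 * a7 + a8) :
    Eqv (dg a0 a1 a2 a3 a4 a5 a6 a7 a8) (Bg a1 a2 a3 a4 a5 a6 a7 a8) d
      ({m} + ({b1} + {b2} + {b3} + {b4} + {b5} + {b6} + {b7})) := by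
  have e0 : Eqv (dg a0 a1 a2 a3 a4 a5 a6 a7 a8) (Bg a1 a2 a3 a4 a5 a6 a7 a8) _ (mvB_M _ _ _ _ _ _ _ _) := Eqv.refl _ _
  have e1 := e0.trans (mvB_cr678 (d' := 2 * a0 + 2 * a1 + 4 * a2 + 6 * a3 + 6 * a4 + 6 * a5 + 5 * a6 + 4 * a7 + 3 * a8)
    (x := a0 + a1 + 2 * a2 + 3 * a3 + 3 * a4 + 3 * a5 + 3 * a6 + 2 * a7 + a8)
    (y := a0 + a1 + 2 * a2 + 3 * a3 + 3 * a4 + 3 * a5 + 2 * a6 + 2 * a7 + a8)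
    (z := a0 + a1 + 2 * a2 + 3 * a3 + 3 * a4 + 3 * a5 + 2 * a6 + a7 + a8)
    (by unfold dg; omega) (by unfold dg; omega) (by unfold dg; omega) (by unfold dg; omega))
  have e2 := e1.trans (mvB_cr345 (d' := 4 * a0 + 4 * a1 + 8 * a2 + 11 * a3 + 10 * a4 + 9 * a5 + 7 * a6 + 5 * a7 + 3 * a8)
    (x := 2 * a0 + 2 * a1 + 4 * a2 + 6 * a3 + 5 * a4 + 4 * a5 + 3 * a6 + 2 * a7 + a8)
    (y := 2 * a0 + 2 * a1 + 4 * a2 + 5 * a3 + 5 * a4 + 4 * a5 + 3 * a6 + 2 * a7 + a8)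
    (z := 2 * a0 + 2 * a1 + 4 * a2 + 5 * a3 + 4 * a4 + 4 * a5 + 3 * a6 + 2 * a7 + a8)
    (by omega) (by omega) (by omega) (by omega))
  have e3 := e2.trans (mvB_cr278 (d' := 6 * a0 + 6 * a1 + 11 * a2 + 15 * a3 + 13 * a4 + 11 * a5 + 9 * a6 + 6 * a7 + 3 * a8)
    (x := 2 * a0 + 2 * a1 + 4 * a2 + 5 * a3 + 4 * a4 + 3 * a5 + 3 * a6 + 2 * a7 + a8)
    (y := 3 * a0 + 3 * a1 + 5 * a2 + 7 * a3 + 6 * a4 + 5 * a5 + 4 * a6 + 3 * a7 + a8)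
    (z := 3 * a0 + 3 * a1 + 5 * a2 + 7 * a3 + 6 * a4 + 5 * a5 + 4 * a6 + 2 * a7 + a8)
    (by omega) (by omega) (by omega) (by omega))
  have e4 := e3.trans (mvB_cr156 (d' := 9 * a0 + 8 * a1 + 15 * a2 + 21 * a3 + 18 * a4 + 14 * a5 + 11 * a6 + 7 * a7 + 3 * a8)
    (x := 3 * a0 + 3 * a1 + 5 * a2 + 7 * a3 + 6 * a4 + 4 * a5 + 3 * a6 + 2 * a7 + a8)
    (y := 5 * a0 + 4 * a1 + 8 * a2 + 11 * a3 + 9 * a4 + 7 * a5 + 5 * a6 + 3 * a7 + a8)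
    (z := 4 * a0 + 3 * a1 + 6 * a2 + 9 * a3 + 8 * a4 + 6 * a5 + 5 * a6 + 3 * a7 + a8)
    (by omega) (by omega) (by omega) (by omega))
  have e5 := e4.trans (mvB_cr234 (d' := 12 * a0 + 10 * a1 + 18 * a2 + 26 * a3 + 22 * a4 + 17 * a5 + 13 * a6 + 8 * a7 + 3 * a8)
    (x := 5 * a0 + 4 * a1 + 7 * a2 + 10 * a3 + 8 * a4 + 6 * a5 + 5 * a6 + 3 * a7 + a8)
    (y := 5 * a0 + 4 * a1 + 7 * a2 + 11 * a3 + 9 * a4 + 7 * a5 + 5 * a6 + 3 * a7 + a8)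
    (z := 5 * a0 + 4 * a1 + 7 * a2 + 10 * a3 + 9 * a4 + 7 * a5 + 5 * a6 + 3 * a7 + a8)
    (by omega) (by omega) (by omega) (by omega))
  have e6 := e5.trans (mvB_cr678 (d' := 14 * a0 + 11 * a1 + 20 * a2 + 29 * a3 + 24 * a4 + 18 * a5 + 13 * a6 + 8 * a7 + 3 * a8)
    (x := 6 * a0 + 4 * a1 + 8 * a2 + 12 * a3 + 10 * a4 + 7 * a5 + 5 * a6 + 3 * a7 + a8)
    (y := 5 * a0 + 4 * a1 + 7 * a2 + 10 * a3 + 8 * a4 + 6 * a5 + 4 * a6 + 3 * a7 + a8)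
    (z := 5 * a0 + 4 * a1 + 7 * a2 + 10 * a3 + 8 * a4 + 6 * a5 + 4 * a6 + 2 * a7 + a8)
    (by omega) (by omega) (by omega) (by omega))
  subst hd hm h1 h2 h3 h4 h5 h6 h7
  convert e6 using 1
  unfold mvB_M
  abel

theorem move6 (a0 a1 a2 a3 a4 a5 a6 a7 a8 K : ℕ) (h : 2 * K ≤ a6) :
    Move K (a0 + a1 + a2 + a3 + a4 + a5 + a6 + a7 + a8)
      (fun k => dg a0 a1 a2 a3 a4 (a5 + k) (a6 - 2 * k) a7 a8)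
      (fun k => Bg a1 a2 a3 a4 (a5 + k) (a6 - 2 * k) a7 a8) := by
  refine ⟨4 * a0 + 3 * a1 + 6 * a2 + 9 * a3 + 7 * a4 + 5 * a5 + 3 * a6 + 3 * a7 + 3 * a8,
    a0 + a1 + 2 * a2 + 3 * a3 + 2 * a4 + a5 + a6 + a7 + a8,
    {2 * a0 + 2 * a1 + 3 * a2 + 4 * a3 + 3 * a4 + 2 * a5 + a6 + a7 + a8} +
    {2 * a0 + a1 + 3 * a2 + 4 * a3 + 3 * a4 + 2 * a5 + a6 + a7 + a8} +
    {2 * a0 + a1 + 2 * a2 + 4 * a3 + 3 * a4 + 2 * a5 + a6 + a7 + a8} +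
    {a0 + a1 + 2 * a2 + 3 * a3 + 3 * a4 + 2 * a5 + a6 + a7 + a8} +
    {a0 + a1 + 2 * a2 + 3 * a3 + 2 * a4 + 2 * a5 + a6 + a7 + a8} +
    {a7 + a8} +
    {a8},
    by omega, by omega, fun k hk => ?_⟩
  apply mvB_eqv6 <;> omega

theorem move7 (a0 a1 a2 a3 a4 a5 a6 a7 a8 K : ℕ) (h : 2 * K ≤ a7) :
    Move K (a0 + a1 + a2 + a3 + a4 + a5 + a6 + a7 + a8)
      (fun k => dg a0 (a1 + k) a2 a3 a4 a5 a6 (a7 - 2 * k) a8)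
      (fun k => Bg (a1 + k) a2 a3 a4 a5 a6 (a7 - 2 * k) a8) := by
  refine ⟨6 * a0 + 5 * a1 + 8 * a2 + 11 * a3 + 9 * a4 + 7 * a5 + 5 * a6 + 3 * a7 + 3 * a8,
    a0 + a1 + a2 + a3 + a4 + a5 + a6 + a7 + a8,
    {2 * a0 + 2 * a1 + 3 * a2 + 4 * a3 + 4 * a4 + 3 * a5 + 2 * a6 + a7 + a8} +
    {3 * a0 + 2 * a1 + 4 * a2 + 5 * a3 + 4 * a4 + 3 * a5 + 2 * a6 + a7 + a8} +
    {3 * a0 + 2 * a1 + 3 * a2 + 5 * a3 + 4 * a4 + 3 * a5 + 2 * a6 + a7 + a8} +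
    {2 * a0 + 2 * a1 + 3 * a2 + 4 * a3 + 3 * a4 + 3 * a5 + 2 * a6 + a7 + a8} +
    {2 * a0 + 2 * a1 + 3 * a2 + 4 * a3 + 3 * a4 + 2 * a5 + 2 * a6 + a7 + a8} +
    {2 * a0 + 2 * a1 + 3 * a2 + 4 * a3 + 3 * a4 + 2 * a5 + a6 + a7 + a8} +
    {a8},
    by omega, by omega, fun k hk => ?_⟩
  apply mvB_eqv7 <;> omega

theorem move8 (a0 a1 a2 a3 a4 a5 a6 a7 a8 K : ℕ) (h : 4 * K ≤ a8) :
    Move K (a0 + a1 + a2 + a3 + a4 + a5 + a6 + a7 + a8)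
      (fun k => dg a0 (a1 + k) a2 a3 a4 a5 a6 a7 (a8 - 4 * k))
      (fun k => Bg (a1 + k) a2 a3 a4 a5 a6 a7 (a8 - 4 * k)) := by
  refine ⟨14 * a0 + 11 * a1 + 20 * a2 + 29 * a3 + 24 * a4 + 18 * a5 + 13 * a6 + 8 * a7 + 3 * a8,
    3 * a0 + 3 * a1 + 5 * a2 + 7 * a3 + 6 * a4 + 4 * a5 + 3 * a6 + 2 * a7 + a8,
    {5 * a0 + 4 * a1 + 7 * a2 + 10 * a3 + 8 * a4 + 6 * a5 + 5 * a6 + 3 * a7 + a8} +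
    {5 * a0 + 4 * a1 + 7 * a2 + 11 * a3 + 9 * a4 + 7 * a5 + 5 * a6 + 3 * a7 + a8} +
    {5 * a0 + 4 * a1 + 7 * a2 + 10 * a3 + 9 * a4 + 7 * a5 + 5 * a6 + 3 * a7 + a8} +
    {5 * a0 + 4 * a1 + 8 * a2 + 11 * a3 + 9 * a4 + 7 * a5 + 5 * a6 + 3 * a7 + a8} +
    {6 * a0 + 4 * a1 + 8 * a2 + 12 * a3 + 10 * a4 + 7 * a5 + 5 * a6 + 3 * a7 + a8} +
    {5 * a0 + 4 * a1 + 7 * a2 + 10 * a3 + 8 * a4 + 6 * a5 + 4 * a6 + 3 * a7 + a8} +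
    {5 * a0 + 4 * a1 + 7 * a2 + 10 * a3 + 8 * a4 + 6 * a5 + 4 * a6 + 2 * a7 + a8},
    by omega, by omega, fun k hk => ?_⟩
  apply mvB_eqv8 <;> omega

end Pool.Agent.Lib.MP_6e81d8_ag.H22
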