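import Pool.Agent.Lib.MP_6e81d8_ag.H22.Sys
import Pool.Agent.Lib.MP_6e81d8_ag.H22.BigStep3
import Pool.Agent.Lib.MP_6e81d8_ag.H22.FinStrip8
import Pool.Agent.Lib.MP_6e81d8_ag.H22.Pick
import Pool.Agent.Lib.MP_6e81d8_ag.H22.MoveA
import Pool.Agent.Lib.MP_6e81d8_ag.H22.MoveB

/-!
The induction on the degree with eight free points.
-/

set_option autoImplicit false

namespace Pool.Agent.Lib.MP_6e81d8_ag.H22

open Polynomial Finset Module H36
open Multiset (replicate)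

theorem main8_tri (a b : ℕ) : tri (a + b) = tri a + tri b + a * b := by
  have h1 := two_tri (a + b)
  have h2 := two_tri a
  have h3 := two_tri b
  nlinarith only [h1, h2, h3]

theorem main8_div {P : ℕ} (hP : 0 < P) (W q : ℕ) (hq : 0 < q) :
    ∃ K, q * K * P ≤ W ∧ P * W ≤ q * ((K + 1) * (P * P)) := by
  have a1 := Nat.div_mul_le_self W (q * P)
  have a2 := Nat.lt_div_mul_add (a := W) (show 0 < q * P from Nat.mul_pos hq hP)
  have a3 := Nat.mul_le_mul_left P a2.le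
  exact ⟨W / (q * P), by linarith only [a1], by linarith only [a3]⟩

theorem main8_mu {μ P : ℕ} (hμ : 1 ≤ μ) (hP : 200000 * μ ≤ P) : tri μ ≤ P * P := by
  have h1 := Nat.mul_le_mul hP hP
  have h2 := two_tri μ
  nlinarith only [h1, h2, hμ]

/-- The statement that is proved by induction. -/
def Goal (μ P d : ℕ) (B : Multiset ℕ) : Prop :=
  ∀ (T : Multiset ℕ) (j w c : ℕ), (∀ v ∈ T, 0 < v ∧ v ≤ μ) → 0 < w → w ≤ μ →
    3 * (10 ^ 10 * (P * P)) * #T.toFinset ≤ mm T →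
    tri (d + 1) ≤ mm B + (mm T + j * tri w + c) →
    BM (Dsp (d + 1) (d + 1)) (B + (T + replicate j w + replicate c 1)) 0

theorem main8_cut {μ P d W : ℕ} (hμ : 1 ≤ μ) (hP : 200000 * μ ≤ P) {Pl : ℕ → Multiset ℕ}
    {St : ℕ → Submodule ℂ R} {l : ℕ → ℕ} (sys : CutSys (d + 1) W (3 * P) Pl St l)
    (hW : 1000000 * P ≤ W) (hd : 3 * P ≤ d) {D : ℕ → ℕ} {B : ℕ → Multiset ℕ} {B' : Multiset ℕ}
    (eqv : ∀ k ≤ 3 * P, Eqv (D k) (B k) (d - k) (Pl k + B'))
    (ar : mm (B (5 * P / 2)) ≤ tri (D (5 * P / 2) + 1))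
    (ih : ∀ k, 1 ≤ k → k ≤ 3 * P → Goal μ P (D k) (B k)) : Goal μ P (D 0) (B 0) := by
  intro T j w c hT w0 w1 inv tot
  have htμ := main8_mu hμ hP
  obtain ⟨K, k1, k2⟩ := main8_div (P := P) (by omega) W 1000000000 (by norm_num)
  have hX : 2 * ∑ t ∈ range (5 * P / 2), l t ≤ 5 * (P * W) := by
    have a1 := Finset.sum_le_card_nsmul (range (5 * P / 2)) l W fun t _ => sys.hi t
    rw [card_range, smul_eq_mul] at a1
    have a2 : 2 * (5 * P / 2) * W ≤ 5 * P * W := Nat.mul_le_mul_right W (by omega)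
    linarith only [a1, a2]
  have e0 := eqv 0 (Nat.zero_le _)
  have r0 := e0.2
  have r1 := (eqv (5 * P / 2) (by omega)).2
  have r2 := sys.area (5 * P / 2) (by omega)
  rw [show d + 1 - 5 * P / 2 = d - 5 * P / 2 + 1 by omega] at r2
  rw [Nat.sub_zero] at e0 r0
  rw [mm_add] at r0 r1
  obtain ⟨J, T', j', w', c', e, g1, g2, g3, g4, g5, g6, g7, g8⟩ :=
    pick (D := 10 ^ 10 * (P * P)) (K := K + 1) (X := ∑ t ∈ range (5 * P / 2), l t) (j := j)
      (c := c) hμ (by omega) hT w0 w1 inv (by omega)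
      (by linarith only [hX, k2, Nat.zero_le ((K + 1) * (P * P))])
  have e' := congrArg mm e
  simp only [mm_add, mm_replicate, tri_one, mul_one] at e'
  have := big_step3 sys (I := B' + (T' + replicate j' w' + replicate c' 1)) hμ hP g1 g2
    (by linarith only [k1, hW, Nat.zero_le (K * P), Nat.zero_le P]) (by omega) g3
    (by omega) (fun k hk hk' c'' hc => by
      have ek := eqv k hk'
      have rk := ek.2
      rw [show d + 1 - k = d - k + 1 by omega] at hc ⊢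
      simp only [mm_add, mm_replicate, tri_one, mul_one] at rk hc
      have := (ek.1 _ _).1 (ih k hk hk' T' j' w' (c' + c'') g5 g6 g7 g8 (by omega))
      convert this using 1
      rw [Multiset.replicate_add]
      abel)
    (by simp only [mm_add, mm_replicate, tri_one, mul_one]; omega)
  refine (e0.1 _ _).2 ?_
  convert this using 1
  rw [e]
  abel

theorem main8_move {μ P s : ℕ} (hμ : 1 ≤ μ) (hP : 200000 * μ ≤ P) (hs : 1000000 * P ≤ s)
    {D : ℕ → ℕ} {B : ℕ → Multiset ℕ} (h : Move (3 * P) s D B)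
    (ar : mm (B (5 * P / 2)) ≤ tri (D (5 * P / 2) + 1))
    (ih : ∀ k, 1 ≤ k → k ≤ 3 * P → Goal μ P (D k) (B k)) : Goal μ P (D 0) (B 0) := by
  obtain ⟨d, m, B', h1, h2, h3⟩ := h
  exact main8_cut hμ hP (sys_fibre (E := d + 1) h1 (by omega)) (by omega) (by omega) h3 ar ih

theorem main8_fin {μ P m H : ℕ} (hμ : 1 ≤ μ) (hP : 200000 * μ ≤ P) (hm : 60000000 * P ≤ m)
    (h1 : 5 * P ≤ H + 1) (h2 : H ≤ 280 * P) {B : Multiset ℕ} (hB : ∀ v ∈ B, v ≤ H)
    (hc : B.card ≤ 8) : Goal μ P (m + H) ({m} + B) := by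
  intro T j w c hT w0 w1 inv tot
  have htμ := main8_mu hμ hP
  obtain ⟨K, k1, k2⟩ := main8_div (P := P) (by omega) (m + H + 1) 30000000 (by norm_num)
  rw [mm_add, mm_singleton] at tot
  have hA : tri (m + H + 1) - (tri m + mm B) ≤ (H + 1) * (m + H + 1) := by
    have a1 := main8_tri m (H + 1)
    have a4 := two_tri (H + 1)
    have a5 : H + 1 ≤ (H + 1) * (H + 1) := Nat.le_mul_self _
    rw [add_assoc m H 1, mul_add (H + 1) m, mul_comm (H + 1) m]
    rw [mul_add (H + 1) (H + 1) 1] at a4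
    omega
  have a1 : (H + 1) * (m + H + 1) ≤ 281 * P * (m + H + 1) := Nat.mul_le_mul_right _ (by omega)
  obtain ⟨J, T', j', w', c', e, g1, g2, g3, -⟩ := pick (D := 10 ^ 10 * (P * P)) (K := K + 1)
    (X := tri (m + H + 1) - (tri m + mm B)) (j := j) (c := c) hμ (by omega) hT w0 w1 inv
    (by omega) (by linarith only [a1, k2, hA, Nat.zero_le ((K + 1) * (P * P))])
  have a2 : (2 * (K + 1) + 2 + 12) * (H + 1) ≤ (2 * (K + 1) + 2 + 12) * (281 * P) :=
    Nat.mul_le_mul_left _ (by omega)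
  have := fin_strip8 (E := m + H + 1) (m := m) (J₂ := B) hμ (by omega) (by omega) g1
    (fun v hv => by have := hB v hv; omega) hc g2
    (by
      rw [show m + H + 1 - m = H + 1 by omega]
      linarith only [a2, k1, hm, Nat.zero_le H, Nat.zero_le (K * P), Nat.zero_le P])
    (by omega)
  refine BM.mono le_rfl (Multiset.le_iff_exists_add.2
    ⟨T' + replicate j' w' + replicate c' 1, ?_⟩) this
  rw [e]
  abel

theorem main8_goal {μ P : ℕ} (hμ : 1 ≤ μ) (hP : 200000 * μ ≤ P) (d : ℕ) :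
    ∀ a0 a1 a2 a3 a4 a5 a6 a7 a8 : ℕ, dg a0 a1 a2 a3 a4 a5 a6 a7 a8 = d →
      300000000 * P ≤ 4 * a1 + 4 * a2 + 4 * a3 + 2 * a4 + 4 * a5 + 2 * a6 + 2 * a7 + a8 +
        2 * min a0 (6 * P) →
      5 * P ≤ a0 + a2 + 2 * (a3 + a4 + a5 + a6 + a7 + a8) + 1 →
      Goal μ P (dg a0 a1 a2 a3 a4 a5 a6 a7 a8) (Bg a1 a2 a3 a4 a5 a6 a7 a8) := by
  induction d using Nat.strong_induction_on with
  | _ d ih =>
  intro a0 a1 a2 a3 a4 a5 a6 a7 a8 hd psi hH
  have hs : 1000000 * P ≤ a0 + a1 + a2 + a3 + a4 + a5 + a6 + a7 + a8 := by omega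
  unfold dg at hd
  by_cases h8 : 20 * P ≤ a8
  · exact main8_move hμ hP hs (move8 a0 a1 a2 a3 a4 a5 a6 a7 a8 _ (by omega)) (area_std ..)
      fun k _ _ => ih _ (by unfold dg; omega) _ _ _ _ _ _ _ _ _ rfl (by omega) (by omega)
  by_cases h7 : 20 * P ≤ a7
  · exact main8_move hμ hP hs (move7 a0 a1 a2 a3 a4 a5 a6 a7 a8 _ (by omega)) (area_std ..)
      fun k _ _ => ih _ (by unfold dg; omega) _ _ _ _ _ _ _ _ _ rfl (by omega) (by omega)
  by_cases h6 : 20 * P ≤ a6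
  · exact main8_move hμ hP hs (move6 a0 a1 a2 a3 a4 a5 a6 a7 a8 _ (by omega)) (area_std ..)
      fun k _ _ => ih _ (by unfold dg; omega) _ _ _ _ _ _ _ _ _ rfl (by omega) (by omega)
  by_cases h5 : 20 * P ≤ a5
  · exact main8_move hμ hP hs (move5 a0 a1 a2 a3 a4 a5 a6 a7 a8 _ (by omega)) (area_std ..)
      fun k _ _ => ih _ (by unfold dg; omega) _ _ _ _ _ _ _ _ _ rfl (by omega) (by omega)
  by_cases h4 : 20 * P ≤ a4
  · by_cases h0 : 3 * P ≤ a0
    · exact main8_move hμ hP hs (move4' a0 a1 a2 a3 a4 a5 a6 a7 a8 _ (by omega) h0) (area_std ..)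
        fun k _ _ => ih _ (by unfold dg; omega) _ _ _ _ _ _ _ _ _ rfl (by omega) (by omega)
    · exact main8_move hμ hP hs (move4 a0 a1 a2 a3 a4 a5 a6 a7 a8 _ (by omega)) (area_std ..)
        fun k _ _ => ih _ (by unfold dg; omega) _ _ _ _ _ _ _ _ _ rfl (by omega) (by omega)
  by_cases h3 : 20 * P ≤ a3
  · exact main8_move hμ hP hs (move3 a0 a1 a2 a3 a4 a5 a6 a7 a8 _ (by omega)) (area_std ..)
      fun k _ _ => ih _ (by unfold dg; omega) _ _ _ _ _ _ _ _ _ rfl (by omega) (by omega)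
  by_cases h2 : 20 * P ≤ a2
  · exact main8_move hμ hP hs (move2 a0 a1 a2 a3 a4 a5 a6 a7 a8 _ (by omega)) (area_std ..)
      fun k _ _ => ih _ (by unfold dg; omega) _ _ _ _ _ _ _ _ _ rfl (by omega) (by omega)
  by_cases h0 : 20 * P ≤ a0
  · refine main8_cut (d := d) hμ hP (sys_line (by omega)) (by omega) (by omega)
      (D := fun k => dg (a0 - k) a1 a2 a3 a4 a5 a6 a7 a8)
      (B := fun _ => Bg a1 a2 a3 a4 a5 a6 a7 a8) (B' := Bg a1 a2 a3 a4 a5 a6 a7 a8)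
      (fun k hk => ?_) (area_std ..)
      fun k _ _ => ih _ (by unfold dg; omega) _ _ _ _ _ _ _ _ _ rfl (by omega) (by omega)
    rw [show dg (a0 - k) a1 a2 a3 a4 a5 a6 a7 a8 = d - k by unfold dg; omega, zero_add]
    exact Eqv.refl _ _
  have := main8_fin (m := a1 + a2 + a3 + a4 + a5 + a6 + a7 + a8)
    (H := a0 + a2 + 2 * (a3 + a4 + a5 + a6 + a7 + a8)) hμ hP (by omega) hH (by omega)
    (B := {a2 + a3 + a4 + a5 + a6 + a7 + a8} + {a3 + a4 + a5 + a6 + a7 + a8} +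
      {a4 + a5 + a6 + a7 + a8} + {a5 + a6 + a7 + a8} + {a6 + a7 + a8} + {a7 + a8} + {a8})
    (fun v hv => by
      simp only [Multiset.mem_add, Multiset.mem_singleton] at hv
      omega) (by simp)
  convert this using 1
  · unfold dg; omega
  · unfold Bg; abel

theorem main8 {μ P : ℕ} (hμ : 1 ≤ μ) (hP : 200000 * μ ≤ P) (d : ℕ) :
    ∀ (a0 a1 a2 a3 a4 a5 a6 a7 a8 : ℕ) (T : Multiset ℕ) (j w c : ℕ),
      dg a0 a1 a2 a3 a4 a5 a6 a7 a8 = d → (∀ v ∈ T, 0 < v ∧ v ≤ μ) → 0 < w → w ≤ μ →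
      3 * (10 ^ 10 * (P * P)) * #T.toFinset ≤ mm T →
      300000000 * P ≤ 4 * a1 + 4 * a2 + 4 * a3 + 2 * a4 + 4 * a5 + 2 * a6 + 2 * a7 + a8 +
        2 * min a0 (6 * P) →
      5 * P ≤ a0 + a2 + 2 * (a3 + a4 + a5 + a6 + a7 + a8) + 1 →
      tri (d + 1) ≤ mm (Bg a1 a2 a3 a4 a5 a6 a7 a8) + (mm T + j * tri w + c) →
      BM (Dsp (d + 1) (d + 1))
        (Bg a1 a2 a3 a4 a5 a6 a7 a8 + (T + replicate j w + replicate c 1)) 0 := by
  intro a0 a1 a2 a3 a4 a5 a6 a7 a8 T j w c hd hT w0 w1 inv psi hH tot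
  subst hd
  exact main8_goal hμ hP _ a0 a1 a2 a3 a4 a5 a6 a7 a8 rfl psi hH T j w c hT w0 w1 inv tot

end Pool.Agent.Lib.MP_6e81d8_ag.H22
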