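import Pool.Agent.Lib.MP_6e81d8_ag.H22.Defs3
import Pool.Agent.Lib.MP_6e81d8_ag.H22.MixCore3
import Pool.Agent.Lib.MP_6e81d8_ag.H22.Mix2

set_option autoImplicit false

namespace Pool.Agent.Lib.MP_6e81d8_ag.H22

open Polynomial Finset Module H36
open Multiset (replicate)

theorem mix_plus0 {H W : ℕ} (U T : Multiset ℕ)
    (hU : ∀ s ∈ U, 2000 ≤ s ∧ 248 * s ≤ 100 * H ∧ 100 * H ≤ 259 * s)
    (hT : ∀ w ∈ T, 0 < w ∧ w < H) (hc : #T.toFinset + 2 ≤ U.card)
    (h : H * W + 18 * U.card * H ≤ mm (57 • U + T)) : BM (Rc H W) (57 • U + T) 0 := by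
  obtain ⟨ι, _, m, hm⟩ := exists_index (57 • U + T)
  have hH : (0 : ℝ) < H := by exact_mod_cast mix2_pos hU hc
  obtain ⟨a, b, -, hab⟩ := mix_core3 (lam := W) (S := 0) (Nat.zero_le 1) (fun w k => w - k)
    (fun w => (w : ℝ) * (w + 1) / (2 * H)) (fun w => bubE_plus H w)
    (fun w k => by omega) U T hU hT hc (by
      have h3 : (H * W + 18 * U.card * H : ℝ) ≤ mm (57 • U + T) := by
        exact_mod_cast h
      rw [mix_sum_plus, le_div_iff₀ hH]
      push_cast
      linarith) m hm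
  exact ⟨ι, inferInstance, m, hm, good_emp _ _
    ((hab.complex ⟨H + W, fun i k h => by omega⟩).mono (H := H)
      (fun _ _ h => h.1) (fun i k h => ⟨h.1, by omega⟩) fun _ _ _ => le_rfl)⟩

theorem mix_minus0 {H W : ℕ} (U T : Multiset ℕ)
    (hU : ∀ s ∈ U, 2000 ≤ s ∧ 248 * s ≤ 100 * H ∧ 100 * H ≤ 259 * s)
    (hT : ∀ w ∈ T, 0 < w ∧ w < H) (hc : #T.toFinset + 2 ≤ U.card)
    (h : mm (57 • U + T) + 18 * U.card * H ≤ H * W) :
    BM (Rc H W) (57 • U + T) (H * W - mm (57 • U + T)) := by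
  obtain ⟨ι, _, m, hm⟩ := exists_index (57 • U + T)
  have hH0 := mix2_pos hU hc
  have hH : (0 : ℝ) < H := by exact_mod_cast hH0
  have hmass : mass m univ = mm (57 • U + T) := by rw [← mm_sum, hm]
  have htot : ∑ i, m i = (57 • U + T).sum := by rw [← mix_total, hm]
  have hle : ∀ j, m j ≤ H := fun j => by
    have hj : m j ∈ 57 • U + T := by
      rw [← hm]
      exact Multiset.mem_sum.2 ⟨j, mem_univ _, Multiset.mem_singleton_self _⟩
    rcases Multiset.mem_add.1 hj with h1 | h1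
    · have := hU _ (Multiset.mem_of_mem_nsmul h1)
      omega
    · exact (hT _ h1).2.le
  have hρ : H * W - mm (57 • U + T) = ∑ _t ∈ range H, W - mass m univ := by
    rw [sum_const, card_range, smul_eq_mul, hmass]
  refine ⟨ι, inferInstance, m, hm, ?_⟩
  rw [hρ]
  by_cases hE' : W ≤ ∑ i, m i
  · obtain ⟨c, hc'⟩ := Nat.exists_eq_add_of_le hE'
    obtain ⟨a, b, ha, hab⟩ := mix_core3 (lam := c) (S := 0) (Nat.zero_le 1)
      (fun w k => min w (H - 1 - k))
      (fun w => (w : ℝ) - (w : ℝ) * (w + 1) / (2 * H)) (fun w => bubE_minus H w)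
      (fun w k => by omega) U T hU hT hc (by
        have h3 : (mm (57 • U + T) + 18 * U.card * H : ℝ) ≤ H * W := by
          exact_mod_cast h
        have h4 : (((57 • U + T).sum : ℕ) : ℝ) = W + c := by
          rw [htot] at hc'
          exact_mod_cast hc'
        have h5 : (mm (57 • U + T) : ℝ) / H ≤ W - 18 * U.card := by
          rw [div_le_iff₀ hH]
          linarith
        rw [mix_sum_minus, Nat.cast_zero]
        linarith) m hm
    obtain ⟨h', rfl⟩ : ∃ h', H = h' + 1 := ⟨H - 1, by omega⟩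
    exact good_dual (fun _ => W) _ hle (fun i j hij => ha (by exact_mod_cast hij))
      ((hab.complex ⟨h' + 1 + c, fun i k h => by omega⟩).mono (H := h' + 1)
        (fun _ _ h => h.1) (fun i k h => ⟨h.1, by omega⟩) fun _ _ _ => by simp)
  · obtain ⟨h', rfl⟩ : ∃ h', H = h' + 1 := ⟨H - 1, by omega⟩
    refine good_dual (x := fun j => ((Fintype.equivFin ι j : ℕ) : ℂ)) (c := fun _ => 0)
      (fun _ => W) _ hle
      (fun i j hij => (Fintype.equivFin ι).injective (Fin.ext (Nat.cast_injective (R := ℂ) hij)))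
      fun f hf _ => ?_
    by_contra h0
    obtain ⟨i, k, hik⟩ := H88.exists_cf_ne_zero h0
    have := hf i k hik
    omega

end Pool.Agent.Lib.MP_6e81d8_ag.H22
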