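import Pool.Agent.Lib.MP_6e81d8_ag.H22.Bub

/-!
A strip with suppliers of one value and arbitrary further points.
-/

set_option autoImplicit false

namespace Pool.Agent.Lib.MP_6e81d8_ag.H22

open Polynomial Finset Module H36
open Multiset (replicate)

theorem map_sum_singleton {α β ι : Type} [Fintype ι] (m : ι → α) (F : α → β) :
    ∑ i, ({F (m i)} : Multiset β) = (∑ i, ({m i} : Multiset α)).map F := by
  classical
  induction (univ : Finset ι) using Finset.induction_on with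
  | empty => simp
  | insert i s hi ih => rw [sum_insert hi, sum_insert hi, Multiset.map_add, ih, Multiset.map_singleton]

theorem map_eq_count {β : Type} (T : Multiset ℕ) (F : ℕ → β) :
    T.map F = ∑ w ∈ T.toFinset, T.count w • ({F w} : Multiset β) := by
  conv_lhs => rw [← Multiset.toFinset_sum_count_nsmul_eq T]
  rw [← Multiset.coe_mapAddMonoidHom, map_sum]
  exact sum_congr rfl fun w _ => by rw [map_nsmul]; rfl

theorem mix_core {P H lam N : ℕ} (φ : ℕ → ℕ → ℕ) (M : ℕ → ℝ) (hP : 2000 ≤ P)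
    (w1 : 248 * P ≤ 100 * H) (w2 : 100 * H ≤ 259 * P) (hb : ∀ w, BubE H w (φ w) (M w))
    (hφ : ∀ w k, φ w k ≤ φ w (k + 1) + 1) (T : Multiset ℕ) (hT : ∀ w ∈ T, 0 < w ∧ w < H)
    (hN : 75 + 61 * #T.toFinset ≤ N)
    (hX : (lam : ℝ) - (H - 1) / 2 + (24 + 18 * #T.toFinset) ≤ N * M P + (T.map M).sum)
    {ι : Type} [Fintype ι] (m : ι → ℕ) (hm : ∑ i, ({m i} : Multiset ℕ) = replicate N P + T) :
    ∃ a b : ι → ℚ, Function.Injective a ∧
      EmpC (fun i k => k < H ∧ i + k < lam) (fun j => φ (m j)) a b := by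
  classical
  have hH0 : (0 : ℝ) < H := by exact_mod_cast (show 0 < H by omega)
  obtain ⟨t1, t2⟩ : (22 / 57 : ℝ) ≤ (P + 1) / H ∧ ((P : ℝ) + 1) / H ≤ 23 / 57 := by
    obtain ⟨Q, rfl⟩ : ∃ Q, H = P + Q := ⟨H - P, by omega⟩
    obtain ⟨-, -, -, -, t1, t2⟩ := trap_window hP w1 w2
    push_cast
    exact ⟨t1, t2⟩
  have small := pack_sup (J := 19) (A := 1) (B := 1) (g := 4) (hb P) hP w1 w2 le_rfl le_rfl
    (by norm_num) (by norm_num) (by push_cast; linarith)
  have big := fun (J B : ℕ) => pack_sup (J := J) (A := J) (B := B) (g := 4) (hb P) hP w1 w2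
  have hσ : (19 : ℝ) * ((P + 1) / H) * H = (19 * (P + 1) : ℕ) := by push_cast; field_simp
  generalize ((P : ℝ) + 1) / H = t at *
  have hd : ∀ y : ℤ, (1 / 3 : ℝ) ≤ |(y : ℝ) - 19 * t| :=
    trap_dist (δ := 1 / 3) 7 (x := 19 * t) (by push_cast; linarith) (by push_cast; linarith)
  obtain ⟨h, rfl⟩ : ∃ h, H = h + 1 := ⟨H - 1, by omega⟩
  have hh : ((h + 1 : ℕ) : ℝ) - 1 = h := by push_cast; ring
  rw [show ((1 : ℕ) : ℝ) - (1 : ℕ) + (19 : ℕ) * t = 19 * t by push_cast; ring] at small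
  have val := fun w (hw : w ∈ T.toFinset) => pack_val (J := T.count w)
    (hT w (Multiset.mem_toFinset.1 hw)).1 (hT w (Multiset.mem_toFinset.1 hw)).2 (hb w) hσ
    (fun y => by linarith [hd y]) small
  simp only [Pack] at val
  choose! B κ k1 k2 ψ n1 n2 n3 using val
  have hsum : (T.map M).sum = ∑ w ∈ T.toFinset, T.count w * M w := by
    rw [Finset.sum_multiset_map_count]; simp
  have hmap := map_eq_count T fun w => (φ w, false)
  rw [hsum] at hX
  generalize T.toFinset = W at *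
  obtain ⟨J, rfl⟩ : ∃ J, N = J + 57 + 57 * #W := ⟨N - 57 - 57 * #W, by omega⟩
  obtain ⟨C, hC⟩ : ∃ C, C = ∑ w ∈ W, (T.count w + B w) := ⟨_, rfl⟩
  have hC' : (C : ℝ) = ∑ w ∈ W, ((T.count w : ℝ) + B w) := by rw [hC]; push_cast; rfl
  have s1 : (C : ℝ) + #W * (57 * t - 2) ≤ ∑ w ∈ W, κ w := by
    rw [hC', ← nsmul_eq_mul, ← sum_const, ← sum_add_distrib]
    exact sum_le_sum fun w hw => by linarith [k1 w hw]
  have s2 : ∑ w ∈ W, κ w ≤ (C : ℝ) + #W * (57 * t) := by
    rw [hC', ← nsmul_eq_mul, ← sum_const, ← sum_add_distrib]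
    exact sum_le_sum fun w hw => by linarith [k2 w hw]
  have G0 : (0 : ℝ) ≤ #W := Nat.cast_nonneg _
  have J0 : (18 + 4 * #W : ℝ) ≤ J := by exact_mod_cast (show 18 + 4 * #W ≤ J by omega)
  have b1 := mul_le_mul_of_nonneg_left t1 G0
  have b2 := mul_le_mul_of_nonneg_left t2 G0
  have b5 := mul_le_mul_of_nonneg_left t1 (Nat.cast_nonneg (α := ℝ) J)
  have b6 := mul_le_mul_of_nonneg_left t2 (Nat.cast_nonneg (α := ℝ) J)
  obtain ⟨ν, hν⟩ : ∃ ν : ℝ, ν = ∑ w ∈ W, κ w - C - 18 * #W := ⟨_, rfl⟩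
  have B1 := Nat.floor_le (a := ((J + 57) * t + ν - 23) / 2) (by linarith)
  have B2 := Nat.lt_floor_add_one (((J + 57) * t + ν - 23) / 2)
  generalize ⌊((J + 57) * t + ν - 23) / 2⌋₊ = B₂ at B1 B2
  have hBJ : B₂ ≤ J := by
    have : (B₂ : ℝ) ≤ J := by linarith
    exact_mod_cast this
  obtain ⟨ψ₂, q1, q2, q3⟩ := big J B₂ hBJ le_rfl (by omega) (by omega) (by push_cast; linarith)
  obtain ⟨ψ₁, p1, p2, p3⟩ := small
  simp only [hh, Nat.add_sub_cancel] at p2 p3 q2 q3 n2 n3 hX
  obtain ⟨K, hK⟩ : ∃ K, K = 23 + J + B₂ + C + 18 * #W := ⟨_, rfl⟩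
  have hK' : (K : ℝ) = 23 + J + B₂ + C + 18 * #W := by exact_mod_cast hK
  have hD : H88.Bdd fun i k => k < h + 1 ∧ i + (1 + K) * k < lam + K * h :=
    ⟨h + 1 + (lam + K * h), fun i k h => by omega⟩
  have main : GE (fun i k => k < h + 1 ∧ i + (1 + K) * k < lam + K * h)
      (Sum.elim ![fun k => h - k, ψ₁, ψ₁, ψ₁, ψ₂] fun w : W => ψ w)
      (Sum.elim ![true, false, false, false, false] fun _ => false) := by
    push_cast at p2 q2 n2 hX
    refine ge_leaf h (1 + K) (lam + K * h - 1)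
      (Sum.elim ![1, 19 * t, 19 * t, 19 * t, J - B₂ + J * t] fun w : W => κ w)
      (Sum.elim ![h, 19 * t * h / 2 + 19 * M P + 3 * h - 6,
        19 * t * h / 2 + 19 * M P + 3 * h - 6, 19 * t * h / 2 + 19 * M P + 3 * h - 6,
        (J - B₂ + J * t) * h / 2 + J * M P + (J + B₂ + 4) * h / 2 - 6]
        fun w : W => κ w * (h / 2) + T.count w.1 * M w + ((T.count w.1 : ℝ) + B w) * (h / 2) +
          (57 * M P + 9 * h - 18))
      (fun i k hk => ⟨by omega, ?_⟩) ?_ ?_ ?_ ?_ ?_ ?_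
    · have : (i + (1 + K) * k + 1 : ℝ) ≤ lam + K * h := by exact_mod_cast hk.2
      linarith
    · rintro (j | j)
      · fin_cases j <;> simp
      · simp
    · rintro (j | j) k _
      · have a0 := bubble_sub h k
        have a1 := p2 k
        have a2 := q2 k
        fin_cases j <;> simp only [Sum.elim_inl, Fin.reduceFinMk, Matrix.cons_val] <;> linarith
      · have := n2 j j.2 k
        simp only [Sum.elim_inr]
        linarith
    · simp only [Fintype.sum_sum_type, Fin.sum_univ_five, Sum.elim_inl,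
        Sum.elim_inr, Matrix.cons_val, sum_coe_sort W κ]
      linarith
    · simp only [Fintype.sum_sum_type, Fin.sum_univ_five, Sum.elim_inl,
        Sum.elim_inr, Matrix.cons_val, if_true, Bool.false_eq_true, if_false, sum_coe_sort W κ,
        sum_const_zero]
      linarith
    · intro y
      simp only [Fintype.sum_sum_type, Fin.sum_univ_five, Sum.elim_inl,
        Sum.elim_inr, Matrix.cons_val]
      have : 0 ≤ ∑ w : W, |(y (Sum.inr w) : ℝ) - κ w| := sum_nonneg fun _ _ => abs_nonneg _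
      linarith [hd (y (Sum.inl 1)), hd (y (Sum.inl 2)), hd (y (Sum.inl 3)),
        abs_nonneg ((y (Sum.inl 0) : ℝ) - 1), abs_nonneg ((y (Sum.inl 4) : ℝ) - (J - B₂ + J * t))]
    · simp only [Fintype.sum_sum_type, Fin.sum_univ_five, Sum.elim_inl,
        Sum.elim_inr, Matrix.cons_val, sum_coe_sort W κ]
      rw [sum_coe_sort W fun w => κ w * (h / 2) + T.count w * M w +
        ((T.count w : ℝ) + B w) * (h / 2) + (57 * M P + 9 * h - 18), sum_add_distrib,
        sum_add_distrib, sum_add_distrib, ← sum_mul, ← sum_mul, ← hC', sum_const, nsmul_eq_mul, hK']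
      linarith
  have m0 : GM (fun i k => k < h + 1 ∧ i + (1 + K) * k < lam + K * h)
      ({(fun k => h - k, true)} + replicate 3 (ψ₁, false) + {(ψ₂, false)} +
        ∑ w ∈ W, {(ψ w, false)}) := by
    refine ⟨_, inferInstance, _, _, ?_, main⟩
    simp only [Fintype.sum_sum_type, Fin.sum_univ_five, Sum.elim_inl, Sum.elim_inr,
      Matrix.cons_val, sum_coe_sort W fun w => ({(ψ w, false)} : Multiset ((ℕ → ℕ) × Bool)),
      ← Multiset.nsmul_singleton]
    module
  have m1 := GM.split_sum hD (fun _ _ h => h.1) W n1 n3 m0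
  rw [add_right_comm] at m1
  have m2 := GM.split hD (fun _ _ h => h.1) q1 m1 q3
  rw [add_right_comm _ (replicate 3 _), add_right_comm _ (replicate 3 _)] at m2
  have m3 := GM.split_rep hD (fun _ _ h => h.1) p1 3 m2 p3
  obtain ⟨a, b, ha, hab⟩ := GM.elm (h := h) (S := 1) (lam := lam) (K := K) (fun j => φ (m j))
    (fun j => hφ (m j)) (by
      convert m3 using 1
      rw [map_sum_singleton m fun w => (φ w, false), hm, Multiset.map_add, Multiset.map_replicate,
        hmap]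
      simp only [← Multiset.nsmul_singleton, sum_add_distrib, sum_const, ← sum_smul, ← hC, hK]
      module)
  exact ⟨a, b, ha, by simpa only [one_mul] using hab⟩

end Pool.Agent.Lib.MP_6e81d8_ag.H22
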