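import Pool.Agent.Lib.MP_6e81d8_ag.H22.MixCore

/-!
A strip with groups of suppliers of several values and arbitrary further points.
-/

set_option autoImplicit false

namespace Pool.Agent.Lib.MP_6e81d8_ag.H22

open Polynomial Finset Module H36
open Multiset (replicate)

theorem spread {β : Type} [Fintype β] (T : Multiset ℕ) (h : #T.toFinset ≤ Fintype.card β) :
    ∃ w J : β → ℕ, (∀ b, w b = 1 ∨ w b ∈ T) ∧ ∑ b, J b • ({w b} : Multiset ℕ) = T := by
  classical
  obtain ⟨e⟩ : Nonempty (T.toFinset ↪ β) :=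
    Function.Embedding.nonempty_of_card_le (by rw [Fintype.card_coe]; exact h)
  refine ⟨Function.extend e (fun x => x.1) (fun _ => 1),
    Function.extend e (fun x => T.count x.1) (fun _ => 0), fun b => ?_, ?_⟩
  · by_cases hb : ∃ x, e x = b
    · obtain ⟨x, rfl⟩ := hb
      rw [e.injective.extend_apply]
      exact Or.inr (Multiset.mem_toFinset.1 x.2)
    · rw [Function.extend_apply' _ _ _ hb]
      exact Or.inl rfl
  · conv_rhs => rw [← Multiset.toFinset_sum_count_nsmul_eq T,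
      ← sum_coe_sort T.toFinset fun a => T.count a • ({a} : Multiset ℕ)]
    refine (Fintype.sum_of_injective e e.injective _ _ (fun b hb => ?_) fun x => ?_).symm
    · rw [Function.extend_apply' (fun x : T.toFinset => T.count x.1) _ _ hb, zero_smul]
    · rw [e.injective.extend_apply, e.injective.extend_apply]

theorem window_t {H s : ℕ} (h : 2000 ≤ s ∧ 248 * s ≤ 100 * H ∧ 100 * H ≤ 259 * s) :
    (22 / 57 : ℝ) ≤ (s + 1) / H ∧ ((s : ℝ) + 1) / H ≤ 23 / 57 := by
  obtain ⟨hP, w1, w2⟩ := h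
  obtain ⟨Q, rfl⟩ : ∃ Q, H = s + Q := ⟨H - s, by omega⟩
  obtain ⟨-, -, -, -, t1, t2⟩ := trap_window hP w1 w2
  push_cast
  exact ⟨t1, t2⟩

theorem pack_child {H s : ℕ} {φ₀ : ℕ → ℕ} {M : ℝ} (hb : BubE H s φ₀ M)
    (h : 2000 ≤ s ∧ 248 * s ≤ 100 * H ∧ 100 * H ≤ 259 * s) :
    ∃ σ : ℝ, 22 / 3 ≤ σ ∧ σ ≤ 23 / 3 ∧ σ * H = (19 * (s + 1) : ℕ) ∧
      Pack H σ (σ * (H - 1) / 2 + 19 * M + 3 * (H - 1) - 6)
        (replicate 19 (φ₀, false) + replicate 6 (fun k => H - 1 - k, true)) := by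
  obtain ⟨t1, t2⟩ := window_t h
  have hH0 : (0 : ℝ) < H := by exact_mod_cast (show 0 < H by omega)
  have small := pack_sup (J := 19) (A := 1) (B := 1) (g := 4) hb h.1 h.2.1 h.2.2 le_rfl le_rfl
    (by norm_num) (by norm_num) (by push_cast; linarith)
  refine ⟨19 * ((s + 1) / H), by linarith, by linarith, by push_cast; field_simp, ?_⟩
  convert small using 1 <;> push_cast <;> ring

theorem dist_third {σ : ℝ} (h1 : 22 / 3 ≤ σ) (h2 : σ ≤ 23 / 3) (y : ℤ) :
    (1 / 3 : ℝ) ≤ |(y : ℝ) - σ| :=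
  trap_dist (δ := 1 / 3) 7 (by push_cast; linarith) (by push_cast; linarith) y

theorem pack_group {H s w J : ℕ} {φs φw : ℕ → ℕ} {Ms Mw : ℝ} (hs : BubE H s φs Ms)
    (hw : BubE H w φw Mw) (h : 2000 ≤ s ∧ 248 * s ≤ 100 * H ∧ 100 * H ≤ 259 * s) (w0 : 0 < w)
    (w1 : w < H) :
    ∃ (C : ℕ) (κ : ℝ), C ≤ κ ∧ Pack H κ (κ * (H - 1) / 2 + J * Mw + 57 * Ms + C * (H - 1) / 2 - 18)
      (replicate J (φw, false) + replicate 57 (φs, false) +
        replicate C (fun k => H - 1 - k, true)) := by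
  obtain ⟨σ, s1, s2, s3, s4⟩ := pack_child hs h
  obtain ⟨B, κ, k1, -, k3⟩ := pack_val (J := J) w0 w1 hw s3
    (fun y => by linarith [dist_third s1 s2 y]) s4
  refine ⟨J + B + 18, κ, by push_cast; linarith, ?_⟩
  convert k3 using 1
  · push_cast; ring
  · simp only [← Multiset.nsmul_singleton]
    module

theorem mix_core2 {H lam : ℕ} (φ : ℕ → ℕ → ℕ) (M : ℕ → ℝ) (hb : ∀ w, BubE H w (φ w) (M w))
    (hφ : ∀ w k, φ w k ≤ φ w (k + 1) + 1) (U T : Multiset ℕ)
    (hU : ∀ s ∈ U, 2000 ≤ s ∧ 248 * s ≤ 100 * H ∧ 100 * H ≤ 259 * s)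
    (hT : ∀ w ∈ T, 0 < w ∧ w < H) (hc : #T.toFinset + 2 ≤ U.card)
    (hX : (lam : ℝ) - (H - 1) / 2 + 18 * U.card ≤ ((57 • U + T).map M).sum)
    {ι : Type} [Fintype ι] (m : ι → ℕ) (hm : ∑ i, ({m i} : Multiset ℕ) = 57 • U + T) :
    ∃ a b : ι → ℚ, Function.Injective a ∧
      EmpC (fun i k => k < H ∧ i + k < lam) (fun j => φ (m j)) a b := by
  classical
  obtain ⟨s₀, hs₀⟩ := Multiset.card_pos_iff_exists_mem.1 (show 0 < U.card by omega)
  obtain ⟨U₁, rfl⟩ := Multiset.exists_cons_of_mem hs₀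
  rw [Multiset.card_cons] at hc
  obtain ⟨s₁, hs₁⟩ := Multiset.card_pos_iff_exists_mem.1 (show 0 < U₁.card by omega)
  obtain ⟨U₂, rfl⟩ := Multiset.exists_cons_of_mem hs₁
  obtain ⟨β, _, s, rfl⟩ := exists_index U₂
  have hβ : (∑ b, ({s b} : Multiset ℕ)).card = Fintype.card β := by
    simp [Multiset.card_sum]
  rw [Multiset.card_cons, hβ] at hc
  obtain ⟨w, J, hw, rfl⟩ := spread (β := β) T (by omega)
  have u0 := hU s₀ (by simp)
  have u1 := hU s₁ (by simp)
  have ub : ∀ b, 2000 ≤ s b ∧ 248 * s b ≤ 100 * H ∧ 100 * H ≤ 259 * s b := fun b =>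
    hU (s b) (by simp only [Multiset.mem_cons, Multiset.mem_sum, Multiset.mem_singleton]
                 exact Or.inr (Or.inr ⟨b, mem_univ _, rfl⟩))
  have wb : ∀ b, 0 < w b ∧ w b < H := fun b => by
    rcases hw b with h | h
    · omega
    · exact hT _ h
  have val := fun b => pack_group (J := J b) (hb (s b)) (hb (w b)) (ub b) (wb b).1 (wb b).2
  simp only [Pack] at val
  choose C κ k1 ψ n1 n2 n3 using val
  obtain ⟨σ, s1, s2, -, ψ₁, p1, p2, p3⟩ := pack_child (hb s₀) u0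
  obtain ⟨t1, t2⟩ := window_t u1
  have big := fun B : ℕ => pack_sup (J := 57) (A := 57 + B) (B := B) (g := 4) (hb s₁) u1.1 u1.2.1
    u1.2.2 (by omega) le_rfl (by omega) (by omega)
  generalize ((s₁ : ℝ) + 1) / H = t at *
  have hd := dist_third s1 s2
  have hsum : ((57 • (s₀ ::ₘ s₁ ::ₘ ∑ b, ({s b} : Multiset ℕ)) +
      ∑ b, J b • ({w b} : Multiset ℕ)).map M).sum =
      57 * M s₀ + 57 * M s₁ + 57 * ∑ b, M (s b) + ∑ b, J b * M (w b) := by
    simp only [← Multiset.singleton_add, ← Multiset.coe_mapAddMonoidHom,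
      ← Multiset.coe_sumAddMonoidHom, map_add, map_nsmul, map_sum]
    simp only [Multiset.coe_mapAddMonoidHom, Multiset.coe_sumAddMonoidHom, Multiset.map_singleton,
      Multiset.sum_singleton, nsmul_eq_mul]
    push_cast
    ring
  rw [hsum, Multiset.card_cons, Multiset.card_cons, hβ] at hX
  obtain ⟨h, rfl⟩ : ∃ h, H = h + 1 := ⟨H - 1, by omega⟩
  have hh : ((h + 1 : ℕ) : ℝ) - 1 = h := by push_cast; ring
  have c1 : ((∑ b, C b : ℕ) : ℝ) ≤ ∑ b, κ b := by
    push_cast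
    exact sum_le_sum fun b _ => k1 b
  obtain ⟨ν, hν⟩ : ∃ ν : ℝ, ν = ∑ b, κ b - (∑ b, C b : ℕ) := ⟨_, rfl⟩
  have B1 := Nat.floor_le (a := (3 * σ + 57 * t + ν - 23) / 2) (by linarith)
  have B2 := Nat.lt_floor_add_one ((3 * σ + 57 * t + ν - 23) / 2)
  generalize ⌊(3 * σ + 57 * t + ν - 23) / 2⌋₊ = B₂ at B1 B2
  obtain ⟨ψ₂, q1, q2, q3⟩ := big B₂ (by push_cast; linarith)
  simp only [hh, Nat.add_sub_cancel] at p2 p3 q2 q3 n2 n3 hX
  obtain ⟨K, hK⟩ : ∃ K, K = 80 + 2 * B₂ + ∑ b, C b := ⟨_, rfl⟩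
  have hK' : (K : ℝ) = 80 + 2 * B₂ + (∑ b, C b : ℕ) := by exact_mod_cast hK
  have hD : H88.Bdd fun i k => k < h + 1 ∧ i + (1 + K) * k < lam + K * h :=
    ⟨h + 1 + (lam + K * h), fun i k h => by omega⟩
  have main : GE (fun i k => k < h + 1 ∧ i + (1 + K) * k < lam + K * h)
      (Sum.elim ![fun k => h - k, ψ₁, ψ₁, ψ₁, ψ₂] ψ)
      (Sum.elim ![true, false, false, false, false] fun _ => false) := by
    push_cast at p2 q2 n2 hX
    refine ge_leaf h (1 + K) (lam + K * h - 1) (Sum.elim ![1, σ, σ, σ, 57 + 57 * t] κ)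
      (Sum.elim ![h, σ * h / 2 + 19 * M s₀ + 3 * h - 6, σ * h / 2 + 19 * M s₀ + 3 * h - 6,
        σ * h / 2 + 19 * M s₀ + 3 * h - 6,
        (57 + 57 * t) * h / 2 + 57 * M s₁ + (61 + 2 * B₂) * h / 2 - 6]
        fun b => κ b * (h / 2) + J b * M (w b) + 57 * M (s b) + (C b : ℝ) * (h / 2) + (-18))
      (fun i k hk => ⟨by omega, ?_⟩) ?_ ?_ ?_ ?_ ?_ ?_
    · have : (i + (1 + K) * k + 1 : ℝ) ≤ lam + K * h := by exact_mod_cast hk.2
      linarith
    · rintro (j | j)
      · fin_cases j <;> simp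
      · simp
    · rintro (j | j) k _
      · have a0 := bubble_sub h k
        have a1 := p2 k
        have a2 := q2 k
        fin_cases j <;> simp only [Sum.elim_inl, Fin.reduceFinMk, Matrix.cons_val] <;> linarith
      · have := n2 j k
        simp only [Sum.elim_inr]
        linarith
    · simp only [Fintype.sum_sum_type, Fin.sum_univ_five, Sum.elim_inl,
        Sum.elim_inr, Matrix.cons_val]
      linarith
    · simp only [Fintype.sum_sum_type, Fin.sum_univ_five, Sum.elim_inl,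
        Sum.elim_inr, Matrix.cons_val, if_true, Bool.false_eq_true, if_false, sum_const_zero]
      linarith
    · intro y
      simp only [Fintype.sum_sum_type, Fin.sum_univ_five, Sum.elim_inl,
        Sum.elim_inr, Matrix.cons_val]
      have : 0 ≤ ∑ b, |(y (Sum.inr b) : ℝ) - κ b| := sum_nonneg fun _ _ => abs_nonneg _
      linarith [hd (y (Sum.inl 1)), hd (y (Sum.inl 2)), hd (y (Sum.inl 3)),
        abs_nonneg ((y (Sum.inl 0) : ℝ) - 1), abs_nonneg ((y (Sum.inl 4) : ℝ) - (57 + 57 * t))]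
    · simp only [Fintype.sum_sum_type, Fin.sum_univ_five, Sum.elim_inl,
        Sum.elim_inr, Matrix.cons_val]
      rw [sum_add_distrib, sum_add_distrib, sum_add_distrib, sum_add_distrib, ← sum_mul, ← sum_mul,
        ← mul_sum, ← Nat.cast_sum, sum_const, card_univ, nsmul_eq_mul, hK']
      linarith
  have m0 : GM (fun i k => k < h + 1 ∧ i + (1 + K) * k < lam + K * h)
      ({(fun k => h - k, true)} + replicate 3 (ψ₁, false) + {(ψ₂, false)} +
        ∑ b, {(ψ b, false)}) := by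
    refine ⟨_, inferInstance, _, _, ?_, main⟩
    simp only [Fintype.sum_sum_type, Fin.sum_univ_five, Sum.elim_inl, Sum.elim_inr,
      Matrix.cons_val, ← Multiset.nsmul_singleton]
    module
  have m1 := GM.split_sum hD (fun _ _ h => h.1) univ (fun b _ => n1 b) (fun b _ => n3 b) m0
  rw [add_right_comm] at m1
  have m2 := GM.split hD (fun _ _ h => h.1) q1 m1 q3
  rw [add_right_comm _ (replicate 3 _), add_right_comm _ (replicate 3 _)] at m2
  have m3 := GM.split_rep hD (fun _ _ h => h.1) p1 3 m2 p3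
  obtain ⟨a, b, ha, hab⟩ := GM.elm (h := h) (S := 1) (lam := lam) (K := K) (fun j => φ (m j))
    (fun j => hφ (m j)) (by
      convert m3 using 1
      rw [map_sum_singleton m fun w => (φ w, false), hm]
      simp only [← Multiset.singleton_add, ← Multiset.coe_mapAddMonoidHom, map_add, map_nsmul,
        map_sum]
      simp only [Multiset.coe_mapAddMonoidHom, Multiset.map_singleton, ← Multiset.nsmul_singleton,
        sum_add_distrib, ← sum_smul, ← smul_sum, hK]
      module)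
  exact ⟨a, b, ha, by simpa only [one_mul] using hab⟩

end Pool.Agent.Lib.MP_6e81d8_ag.H22
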