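import Pool.Agent.Lib.MP_6e81d8_ag.H22.Defs

set_option autoImplicit false

namespace Pool.Agent.Lib.MP_6e81d8_ag.H22

open Polynomial Finset Module H36
open Multiset (replicate)

theorem card_toFinset_replicate_le (n w : ℕ) : #(replicate n w).toFinset ≤ 1 := by
  refine (card_le_card fun x hx => ?_).trans (card_singleton w).le
  rw [Multiset.mem_toFinset] at hx
  exact mem_singleton.2 (Multiset.eq_of_mem_replicate hx)

theorem card_toFinset_add_le (S T : Multiset ℕ) :
    #(S + T).toFinset ≤ #S.toFinset + #T.toFinset := by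
  rw [Multiset.toFinset_add]
  exact card_union_le _ _

theorem exists_block {T : Multiset ℕ} {w : ℕ} (hw : w ∈ T) :
    ∃ (c : ℕ) (T₁ : Multiset ℕ), T = replicate c w + T₁ ∧ #T₁.toFinset + 1 = #T.toFinset := by
  refine ⟨T.count w, T.filter (fun x => ¬ x = w), ?_, ?_⟩
  · rw [← Multiset.filter_eq' T w, Multiset.filter_add_not]
  · have h : (T.filter (fun x => ¬ x = w)).toFinset = T.toFinset.erase w := by
      ext x
      simp [and_comm]
    rw [h]
    exact card_erase_add_one (Multiset.mem_toFinset.2 hw)

theorem select {μ : ℕ} (K : ℕ) (T : Multiset ℕ) (hT : ∀ w ∈ T, w ≤ μ) (X : ℕ) :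
    ∃ J T' : Multiset ℕ, T = J + T' ∧ #J.toFinset ≤ K ∧
      #J.toFinset + #T'.toFinset ≤ #T.toFinset + 1 ∧
      ((X ≤ mm J ∧ mm J ≤ X + tri μ) ∨
        (mm J < X ∧ (T' = 0 ∨ #T'.toFinset + K ≤ #T.toFinset))) := by
  induction K generalizing T X with
  | zero =>
    refine ⟨0, T, by simp, by simp, by simp, ?_⟩
    rcases Nat.eq_zero_or_pos X with h | h
    · exact Or.inl ⟨by simp [h], by simp⟩
    · exact Or.inr ⟨by simpa using h, Or.inr (by simp)⟩
  | succ K ih =>
    rcases T.empty_or_exists_mem with h0 | ⟨w, hw⟩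
    · refine ⟨0, 0, by simp [h0], by simp, by simp, ?_⟩
      rcases Nat.eq_zero_or_pos X with h | h
      · exact Or.inl ⟨by simp [h], by simp⟩
      · exact Or.inr ⟨by simpa using h, Or.inl rfl⟩
    obtain ⟨c, T₁, hc, hcard⟩ := exists_block hw
    have htri : tri w ≤ tri μ := tri_mono (hT w hw)
    by_cases hX : X ≤ c * tri w
    · have hex : ∃ j, X ≤ j * tri w := ⟨c, hX⟩
      have hjc : Nat.find hex ≤ c := Nat.find_min' hex hX
      have hj : X ≤ Nat.find hex * tri w := Nat.find_spec hex
      have hmin : ∀ i, i < Nat.find hex → ¬ X ≤ i * tri w := fun i hi => Nat.find_min hex hi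
      generalize Nat.find hex = j at hjc hj hmin
      have hT' : T = replicate j w + (replicate (c - j) w + T₁) := by
        rw [← add_assoc, ← Multiset.replicate_add, Nat.add_sub_cancel' hjc]
        exact hc
      have h1 := card_toFinset_replicate_le j w
      have h2 : #(replicate (c - j) w + T₁).toFinset ≤ #T.toFinset := by
        refine card_le_card fun x hx => ?_
        rw [Multiset.mem_toFinset] at hx ⊢
        rw [hT']
        exact Multiset.mem_add.2 (Or.inr hx)
      refine ⟨replicate j w, replicate (c - j) w + T₁, hT', by omega, by omega,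
        Or.inl ⟨by rwa [mm_replicate], ?_⟩⟩
      rw [mm_replicate]
      cases j with
      | zero => simp
      | succ i =>
        have := hmin i i.lt_succ_self
        rw [Nat.succ_mul]
        omega
    · obtain ⟨J, T', e, hJ, hs, hr⟩ := ih T₁
        (fun x hx => hT x (hc ▸ Multiset.mem_add.2 (Or.inr hx))) (X - c * tri w)
      have h1 := card_toFinset_replicate_le c w
      have h2 := card_toFinset_add_le (replicate c w) J
      refine ⟨replicate c w + J, T', by rw [add_assoc, ← e]; exact hc, by omega, by omega, ?_⟩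
      rw [mm_add, mm_replicate]
      rcases hr with ⟨ha, hb⟩ | ⟨ha, hb⟩
      · exact Or.inl ⟨by omega, by omega⟩
      · refine Or.inr ⟨by omega, ?_⟩
        rcases hb with hb | hb
        · exact Or.inl hb
        · exact Or.inr (by omega)

end Pool.Agent.Lib.MP_6e81d8_ag.H22
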