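import Pool.Agent.Lib.MP_6e81d8_ag.H22.Mix2
import Pool.Agent.Lib.MP_6e81d8_ag.H22.BMl
import Pool.Agent.Lib.MP_6e81d8_ag.H22.Step

set_option autoImplicit false

namespace Pool.Agent.Lib.MP_6e81d8_ag.H22

open Polynomial Finset Module H36
open Multiset (replicate)

theorem strip_step2 {E k₁ k₂ c L : ℕ} {U T I : Multiset ℕ}
    (hU : ∀ s ∈ U, 2000 ≤ s ∧ 248 * s ≤ 100 * k₁ ∧ 100 * (k₂ + 1) ≤ 259 * s) (hk : k₁ ≤ k₂)
    (hT : ∀ w ∈ T, 0 < w ∧ w < k₁) (hc : #T.toFinset + 3 ≤ U.card)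
    (hL : 18 * U.card * (k₂ + 1) ≤ L) (hE : k₂ + 1 + 2 * L ≤ E)
    (lo : tri E + L ≤ tri (E - k₁) + mm (57 • U + T))
    (hi : tri (E - (k₂ + 1)) + mm (57 • U + T) + L < tri E)
    (ih : ∀ k, 1 ≤ k → ∀ c', tri (E - k) ≤ mm I + c' →
      BM (Dsp (E - k) (E - k)) (I + replicate c' 1) 0)
    (res : tri E + L ≤ mm I + c + mm (57 • U + T) ∨
      (tri E ≤ mm I + c + mm (57 • U + T) ∧ 2 * L ≤ c)) :
    BM (Dsp E E) (I + replicate c 1 + (57 • U + T)) 0 := by
  have hk1 : 1 < k₁ := by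
    obtain ⟨s, hs⟩ := Multiset.card_pos_iff_exists_mem.1 (show 0 < U.card by omega)
    have := hU s hs
    omega
  have hc' : ∀ z, #(T + replicate z 1).toFinset + 2 ≤ U.card := fun z => by
    have := card_add_simple T z
    omega
  have hLz : ∀ H, H ≤ k₂ + 1 → 18 * U.card * H ≤ L :=
    fun H hH => (Nat.mul_le_mul_left _ hH).trans hL
  have hUH : ∀ H, k₁ ≤ H → H ≤ k₂ + 1 →
      ∀ s ∈ U, 2000 ≤ s ∧ 248 * s ≤ 100 * H ∧ 100 * H ≤ 259 * s := fun H h1 h2 s hs => by
    have := hU s hs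
    omega
  have hm : ∀ z, mm (57 • U + (T + replicate z 1)) = mm (57 • U + T) + z := fun z => by
    rw [← add_assoc, mm_add, mm_replicate, tri_one, mul_one]
  have hp : ∀ z H, k₁ ≤ H → H ≤ k₂ + 1 → tri E + L ≤ tri (E - H) + mm (57 • U + T) + z →
      BM (Sp H E) (57 • U + (T + replicate z 1)) 0 := fun z H h1 h2 h3 =>
    mix_plus2 (by omega) U _ (hUH H h1 h2) (mem_add_simple z hT h1 (by omega)) (hc' z)
      (by have := hLz H h2; rw [hm]; omega)
  have hq : ∀ z H, k₁ ≤ H → H ≤ k₂ + 1 → tri (E - H) + mm (57 • U + T) + z + L ≤ tri E →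
      BM (Sp H E) (57 • U + (T + replicate z 1))
        (tri E - (tri (E - H) + mm (57 • U + T) + z)) := fun z H h1 h2 h3 => by
    have := mix_minus2 (E := E) (H := H) (by omega) U _ (hUH H h1 h2)
      (mem_add_simple z hT h1 (by omega)) (hc' z) (by have := hLz H h2; rw [hm]; omega)
    rwa [hm, ← Nat.add_assoc] at this
  have ht : ∀ k, k + 1 ≤ E → tri (E - k) = tri (E - (k + 1)) + (E - k) := fun k h => by
    rw [show E - k = E - (k + 1) + 1 by omega]; rfl
  have hx : ∀ k, k₁ ≤ k → ∀ c' ρ, tri (E - k) ≤ mm I + c' + ρ →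
      BM (Dsp (E - k) (E - k)) (I + replicate c' 1) ρ := fun k h1 c' ρ h2 => by
    refine BM.of_extra ?_
    rw [add_assoc, ← Multiset.replicate_add]
    exact ih k (by omega) _ (by omega)
  generalize mm (57 • U + T) = X at lo hi res hp hq
  rcases res with res | ⟨res, hc2⟩
  · obtain ⟨k, h1, h2, h3, h4⟩ := exists_step (f := fun k => tri (E - k) + X < tri E + L)
      (a := k₁) (b := k₂ + 1) (by omega) (by omega) (by omega)
    have h5 := ht k (by omega)
    have J0 := hp 0 k h1 (by omega) (by omega)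
    rw [Multiset.replicate_zero, add_zero] at J0
    have J1 := hp (tri E + L - (tri (E - (k + 1)) + X)) (k + 1) (by omega) (by omega)
      (by omega)
    rw [← add_assoc] at J1
    exact linecut (k := k) (ρ := tri (E - k) + X - (tri E + L)) (by omega) (by omega)
      (hx (k + 1) (by omega) c 0 (by omega)) (hx k h1 c _ (by omega)) J0 (BM.of_extra J1)
  · obtain ⟨k, h1, h2, h3, h4⟩ := exists_step (f := fun k => tri (E - k) + X + L < tri E)
      (a := k₁) (b := k₂ + 1) (by omega) (by omega) (by omega)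
    have h5 := ht k (by omega)
    obtain ⟨z, hz⟩ : ∃ z, z = tri E + L - (tri (E - k) + X) := ⟨_, rfl⟩
    obtain ⟨u, rfl⟩ : ∃ u, c = u + z := ⟨c - z, by omega⟩
    have J0 := hp z k h1 (by omega) (by omega)
    have J1 := hq z (k + 1) (by omega) (by omega) (by omega)
    have := linecut (k := k) (ρ := tri (E - k) + X + z - tri E) (by omega) (by omega)
      (hx (k + 1) (by omega) u 0 (by omega)) (hx k h1 u _ (by omega)) J0 J1
    rwa [show I + replicate u 1 + (57 • U + (T + replicate z 1)) =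
      I + replicate (u + z) 1 + (57 • U + T) by rw [Multiset.replicate_add]; abel] at this

end Pool.Agent.Lib.MP_6e81d8_ag.H22
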