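import Pool.Agent.Lib.MP_6e81d8_ag.H22.Mix3
import Pool.Agent.Lib.MP_6e81d8_ag.H22.Fibre

set_option autoImplicit false

namespace Pool.Agent.Lib.MP_6e81d8_ag.H22

open Polynomial Finset Module H36
open Multiset (replicate)

theorem sys_area {E m k : ℕ} (hk : k ≤ m) (hm : m ≤ E) :
    tri E + tri (m - k) = k * (E - m) + tri (E - k) + tri m := by
  induction k with
  | zero => simp
  | succ k ih =>
    have h1 := ih (by omega)
    have h2 : tri (E - k) = tri (E - (k + 1)) + (E - k) := by
      rw [show E - k = (E - (k + 1)) + 1 by omega, tri]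
    have h3 : tri (m - k) = tri (m - (k + 1)) + (m - k) := by
      rw [show m - k = (m - (k + 1)) + 1 by omega, tri]
    rw [add_mul, one_mul]
    omega

theorem sys_line {E K : ℕ} (hK : K ≤ E) :
    CutSys E E K (fun _ => 0) (fun k => Sp k E) (fun t => E - t) := by
  refine ⟨fun k => by omega, fun k => by omega, fun k hk => ?_,
    fun k ρ ρ' I J hk hρ h1 h2 h3 h4 => ?_, fun H hH U T hU hT hc h => ?_,
    fun H hH U T hU hT hc h => ?_⟩
  · rw [mix_tri (hk.trans hK)]
  · rw [zero_add] at h1 h2 ⊢
    exact linecut (by omega) (by omega) h1 h2 h3 h4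
  · have h1 := mix_tri (hH.trans hK)
    exact mix_plus2 (hH.trans hK) U T hU hT hc (by omega)
  · have h1 := mix_tri (hH.trans hK)
    have h2 := mix_minus2 (hH.trans hK) U T hU hT hc (by omega)
    rwa [show tri E - (tri (E - H) + mm (57 • U + T)) =
      ∑ t ∈ range H, (E - t) - mm (57 • U + T) by omega] at h2

theorem sys_fibre {E m K : ℕ} (hK : K ≤ m) (hm : m ≤ E) :
    CutSys E (E - m) K (fun k => {m - k}) (fun k => Rc k (E - m)) (fun _ => E - m) := by
  refine ⟨fun k => by omega, fun k => le_rfl, fun k hk => ?_,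
    fun k ρ ρ' I J hk hρ h1 h2 h3 h4 => ?_, fun H hH U T hU hT hc h => ?_,
    fun H hH U T hU hT hc h => ?_⟩
  · rw [sum_const, card_range, smul_eq_mul, mm_singleton, mm_singleton, Nat.sub_zero]
    exact sys_area (hk.trans hK) hm
  · exact fibrecut (hk.trans hK) hm hρ h1 h2 h3 h4
  · rw [sum_const, card_range, smul_eq_mul] at h
    exact mix_plus0 U T hU hT hc h
  · rw [sum_const, card_range, smul_eq_mul] at h ⊢
    exact mix_minus0 U T hU hT hc h

end Pool.Agent.Lib.MP_6e81d8_ag.H22
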